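import Pool.Agent.Y933.KD.Roots

/-!
# Exponential sums with powers of exponent less than one, large frequencies
(a variant of the file `VdC3` of helper933)
-/

set_option autoImplicit false

namespace Pool.Agent.Y603.BR

open Finset Real Filter MeasureTheory
open Pool.Agent.Y933.KD.VdC (Core core_fin ev_le sum_Ioc_split)
open Pool.Agent.Y933.KD (unif integral_unif norm_e e_add e_neg)

/-- the choice of the order -/
lemma choose_order' {c : ℝ} (hc1 : c < 1) (A μ : ℝ) (hμ : 0 < μ) {M : ℕ}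
    (hM : 2 ≤ M) {Y f : ℝ} (hMY : (M : ℝ) ≤ Y) (hY2 : Y ≤ (M : ℝ) ^ (2 - 4 * μ))
    (hf0 : 0 < f) (hYc : (M : ℝ) ^ (-1 + μ) ≤ f * Y ^ (c - 1)) (hfA : f ≤ (M : ℝ) ^ A) :
    ∃ K : ℕ, K ≤ ⌈A + c⌉₊ ∧ c < K + 1 ∧ f * Y ^ (c - (K + 1)) ≤ (M : ℝ) ^ (-μ) ∧
      (M : ℝ) ^ (-((K : ℝ) + 1) + μ) ≤ f * Y ^ (c - (K + 1)) := by
  classical
  have hMR : (2 : ℝ) ≤ M := by exact_mod_cast hM
  have hM1 : (1 : ℝ) ≤ M := by linarith
  have hMp : (0 : ℝ) < M := by linarith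
  have hY1 : 1 ≤ Y := by linarith
  have hYp : 0 < Y := by linarith
  -- the size of `A`
  have hAc : 0 ≤ A + c := by
    by_contra hcon
    push Not at hcon
    have h1 : f * Y ^ (c - 1) ≤ (M : ℝ) ^ (A + (c - 1)) := by
      rw [Real.rpow_add hMp]
      have h2 : Y ^ (c - 1) ≤ (M : ℝ) ^ (c - 1) :=
        Real.rpow_le_rpow_of_nonpos hMp hMY (by linarith)
      gcongr
    have h2 := (hYc.trans h1)
    rw [Real.rpow_le_rpow_left_iff (by linarith)] at h2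
    linarith
  have hex : ∃ K : ℕ, c < K + 1 ∧ f * Y ^ (c - (K + 1)) ≤ (M : ℝ) ^ (-μ) := by
    refine ⟨⌈A + c + μ⌉₊, ?_, ?_⟩
    · have := Nat.cast_nonneg (α := ℝ) ⌈A + c + μ⌉₊
      linarith
    · have h1 := Nat.le_ceil (A + c + μ)
      calc f * Y ^ (c - (((⌈A + c + μ⌉₊ : ℕ) : ℝ) + 1))
          ≤ (M : ℝ) ^ A * (M : ℝ) ^ (c - (((⌈A + c + μ⌉₊ : ℕ) : ℝ) + 1)) := by
            have h2 : Y ^ (c - (((⌈A + c + μ⌉₊ : ℕ) : ℝ) + 1)) ≤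
                (M : ℝ) ^ (c - (((⌈A + c + μ⌉₊ : ℕ) : ℝ) + 1)) :=
              Real.rpow_le_rpow_of_nonpos hMp hMY (by linarith)
            gcongr
        _ = (M : ℝ) ^ (A + (c - (((⌈A + c + μ⌉₊ : ℕ) : ℝ) + 1))) := by rw [← Real.rpow_add hMp]
        _ ≤ (M : ℝ) ^ (-μ) := by
            apply Real.rpow_le_rpow_of_exponent_le hM1
            linarith
  set K := Nat.find hex with hKdef
  obtain ⟨hK1, hK2⟩ := Nat.find_spec hex
  rw [← hKdef] at hK1 hK2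
  have hKle : K ≤ ⌈A + c⌉₊ := by
    by_contra hcon
    push Not at hcon
    have hmin := Nat.find_min hex hcon
    apply hmin
    refine ⟨?_, ?_⟩
    · have := Nat.cast_nonneg (α := ℝ) ⌈A + c⌉₊
      linarith
    · have h1 := Nat.le_ceil (A + c)
      have hμ1 : μ ≤ 1 := by
        by_contra hcon2
        push Not at hcon2
        have h3 : (M : ℝ) ^ (2 - 4 * μ) < (M : ℝ) ^ (1 : ℝ) :=
          Real.rpow_lt_rpow_of_exponent_lt (by linarith) (by linarith)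
        rw [Real.rpow_one] at h3
        linarith
      calc f * Y ^ (c - (((⌈A + c⌉₊ : ℕ) : ℝ) + 1))
          ≤ (M : ℝ) ^ A * (M : ℝ) ^ (c - (((⌈A + c⌉₊ : ℕ) : ℝ) + 1)) := by
            have h2 : Y ^ (c - (((⌈A + c⌉₊ : ℕ) : ℝ) + 1)) ≤
                (M : ℝ) ^ (c - (((⌈A + c⌉₊ : ℕ) : ℝ) + 1)) :=
              Real.rpow_le_rpow_of_nonpos hMp hMY (by linarith)
            gcongr
        _ = (M : ℝ) ^ (A + (c - (((⌈A + c⌉₊ : ℕ) : ℝ) + 1))) := by rw [← Real.rpow_add hMp]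
        _ ≤ (M : ℝ) ^ (-μ) := by
            apply Real.rpow_le_rpow_of_exponent_le hM1
            linarith
  refine ⟨K, hKle, hK1, hK2, ?_⟩
  have hYinv : (M : ℝ) ^ (-(2 - 4 * μ)) ≤ Y ^ (-1 : ℝ) := by
    rw [Real.rpow_neg hMp.le, Real.rpow_neg_one]
    exact inv_anti₀ hYp hY2
  rcases Nat.eq_zero_or_pos K with hK0 | hKpos
  · rw [hK0]
    have h1 : (M : ℝ) ^ (-(((0 : ℕ) : ℝ) + 1) + μ) = (M : ℝ) ^ (-1 + μ) := by
      congr 1; push_cast; ring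
    have h2 : Y ^ (c - (((0 : ℕ) : ℝ) + 1)) = Y ^ (c - 1) := by
      congr 1; push_cast; ring
    rw [h1, h2]
    exact hYc
  · have hKR : (1 : ℝ) ≤ K := by exact_mod_cast hKpos
    have hmin := Nat.find_min hex (m := K - 1) (by omega)
    have hK' : ((K - 1 : ℕ) : ℝ) + 1 = K := by
      rw [Nat.cast_sub hKpos]
      push_cast
      ring
    rw [hK'] at hmin
    push Not at hmin
    have h3 := hmin (by linarith)
    have h4 : f * Y ^ (c - ((K : ℝ) + 1)) = f * Y ^ (c - (K : ℝ)) * Y ^ (-1 : ℝ) := by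
      rw [mul_assoc, ← Real.rpow_add hYp]
      congr 2
      ring
    rw [h4]
    calc (M : ℝ) ^ (-((K : ℝ) + 1) + μ) ≤ (M : ℝ) ^ (-μ + -(2 - 4 * μ)) := by
          apply Real.rpow_le_rpow_of_exponent_le hM1
          linarith
      _ = (M : ℝ) ^ (-μ) * (M : ℝ) ^ (-(2 - 4 * μ)) := Real.rpow_add hMp _ _
      _ ≤ f * Y ^ (c - (K : ℝ)) * Y ^ (-1 : ℝ) := by gcongr

/-- **exponential sums with powers of exponent less than one** -/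
theorem pow_sum' {c : ℝ} (hc : ∀ m : ℕ, c ≠ m) (hc1 : c < 1) (A μ : ℝ) (hμ : 0 < μ)
    (hμ1 : μ ≤ 1 / 4) :
    ∃ ρ : ℝ, 0 < ρ ∧ ∃ M0 : ℕ, ∀ M : ℕ, M0 ≤ M → ∀ N : ℕ,
      (N : ℝ) + M + 1 ≤ (M : ℝ) ^ (2 - 4 * μ) →
      ∀ f : ℝ, 0 < f → (M : ℝ) ^ (-1 + μ) ≤ f * ((N : ℝ) + M + 1) ^ (c - 1) → f ≤ (M : ℝ) ^ A →
      ‖∑ m ∈ Ioc N (N + M), Pool.Agent.Y933.KD.e (f * (m : ℝ) ^ c)‖ ≤ (M : ℝ) ^ (1 - ρ) := by
  obtain ⟨ρ, hρ, δ, hδ, M1, hM1, hcore⟩ := core_fin hc μ hμ hμ1 ⌈A + c⌉₊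
  set δ' : ℝ := min δ 1 with hδ'
  have hδ'0 : 0 < δ' := lt_min hδ one_pos
  have hδ'1 : δ' ≤ 1 := min_le_right _ _
  set r : ℝ := min ρ (δ' / 2) with hr
  have hr0 : 0 < r := lt_min hρ (by positivity)
  obtain ⟨M2, hM2⟩ := eventually_atTop.1 ((ev_le 3 (δ' / 2) (by positivity)).and
    (ev_le 3 (r / 2) (by positivity)))
  refine ⟨r / 2, by positivity, max (max M1 M2) 2, ?_⟩
  intro M hM N hN1 f hf0 hf1 hfA
  have hMM1 : M1 ≤ M := le_of_max_le_left (le_of_max_le_left hM)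
  have hMM2 : M2 ≤ M := le_of_max_le_right (le_of_max_le_left hM)
  have hM2' : 2 ≤ M := le_of_max_le_right hM
  obtain ⟨hM3, hM4⟩ := hM2 M hMM2
  have hMR : (2 : ℝ) ≤ M := by exact_mod_cast hM2'
  have hM1' : (1 : ℝ) ≤ M := by linarith
  have hMp : (0 : ℝ) < M := by linarith
  have hN0 : (0 : ℝ) ≤ N := Nat.cast_nonneg N
  obtain ⟨K, hKle, hcK, hup, hlow⟩ := choose_order' hc1 A μ hμ hM2'
    (by linarith : (M : ℝ) ≤ (N : ℝ) + M + 1) hN1 hf0 hf1 hfA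
  set J : ℕ := ⌈(M : ℝ) ^ (1 - δ' / 2)⌉₊ with hJ
  have hJ1 : (M : ℝ) ^ (1 - δ' / 2) ≤ J := Nat.le_ceil _
  have hJ2 : (J : ℝ) < (M : ℝ) ^ (1 - δ' / 2) + 1 := Nat.ceil_lt_add_one (by positivity)
  have hJM : J ≤ M := by
    refine Nat.ceil_le.2 ?_
    calc (M : ℝ) ^ (1 - δ' / 2) ≤ (M : ℝ) ^ (1 : ℝ) :=
          Real.rpow_le_rpow_of_exponent_le hM1' (by linarith)
      _ = M := Real.rpow_one _
  have hJpos : (0 : ℝ) < J := lt_of_lt_of_le (by positivity) hJ1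
  have hX : (0 : ℝ) < N + J := by linarith
  have hcast : ((M - J : ℕ) : ℝ) = (M : ℝ) - J := Nat.cast_sub hJM
  have hmain := hcore K hKle hcK M hMM1 ((N : ℝ) + J) ((N : ℝ) + M + 1) f ((N : ℝ) + J + 1) (M - J)
    (Nat.sub_le _ _) hX (by linarith) (by rw [hcast]; linarith) (by
      have h1 : (M : ℝ) ^ δ' ≤ (M : ℝ) ^ δ :=
        Real.rpow_le_rpow_of_exponent_le hM1' (min_le_left _ _)
      have h2 : (M : ℝ) * (M : ℝ) ^ (δ' / 2) = (M : ℝ) ^ (1 - δ' / 2) * (M : ℝ) ^ δ' := by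
        nth_rewrite 1 [← Real.rpow_one (M : ℝ)]
        rw [← Real.rpow_add hMp, ← Real.rpow_add hMp]
        congr 1
        ring
      have h3 : 3 ≤ (M : ℝ) ^ δ' := hM3.trans
        (Real.rpow_le_rpow_of_exponent_le hM1' (by linarith))
      calc (N : ℝ) + M + 1 ≤ N * 3 + M * 3 := by linarith
        _ ≤ N * (M : ℝ) ^ δ' + M * (M : ℝ) ^ (δ' / 2) := by gcongr
        _ = N * (M : ℝ) ^ δ' + (M : ℝ) ^ (1 - δ' / 2) * (M : ℝ) ^ δ' := by rw [h2]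
        _ ≤ N * (M : ℝ) ^ δ' + J * (M : ℝ) ^ δ' := by gcongr
        _ = (N + J) * (M : ℝ) ^ δ' := by ring
        _ ≤ (N + J) * (M : ℝ) ^ δ := by gcongr) hf0 hup hlow
  have hsplit : ∑ m ∈ Ioc N (N + M), Pool.Agent.Y933.KD.e (f * (m : ℝ) ^ c) =
      ∑ m ∈ Ioc N (N + J), Pool.Agent.Y933.KD.e (f * (m : ℝ) ^ c) +
      ∑ n ∈ range (M - J), Pool.Agent.Y933.KD.e (f * ((N + J + 1 + n : ℕ) : ℝ) ^ c) :=
    sum_Ioc_split (fun m : ℕ => Pool.Agent.Y933.KD.e (f * (m : ℝ) ^ c)) N M J hJM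
  rw [hsplit]
  refine (norm_add_le _ _).trans ?_
  have h1 : ‖∑ m ∈ Ioc N (N + J), Pool.Agent.Y933.KD.e (f * (m : ℝ) ^ c)‖ ≤ J := by
    refine (norm_sum_le _ _).trans ?_
    simp [norm_e]
  have h2 : ‖∑ n ∈ range (M - J), Pool.Agent.Y933.KD.e (f * ((N + J + 1 + n : ℕ) : ℝ) ^ c)‖ ≤
      (M : ℝ) ^ (1 - ρ) := by
    refine le_trans (le_of_eq ?_) hmain
    congr 1
    refine sum_congr rfl fun n _ => ?_
    push_cast
    ring_nf
    rfl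
  have h3 : (M : ℝ) ^ (1 - δ' / 2) ≤ (M : ℝ) ^ (1 - r) := by
    apply Real.rpow_le_rpow_of_exponent_le hM1'
    have := min_le_right ρ (δ' / 2)
    linarith
  have h4 : (M : ℝ) ^ (1 - ρ) ≤ (M : ℝ) ^ (1 - r) := by
    apply Real.rpow_le_rpow_of_exponent_le hM1'
    have := min_le_left ρ (δ' / 2)
    linarith
  have h5 : 1 ≤ (M : ℝ) ^ (1 - r) := by
    apply Real.one_le_rpow hM1'
    have := min_le_right ρ (δ' / 2)
    linarith
  calc ‖∑ m ∈ Ioc N (N + J), Pool.Agent.Y933.KD.e (f * (m : ℝ) ^ c)‖ +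
        ‖∑ n ∈ range (M - J), Pool.Agent.Y933.KD.e (f * ((N + J + 1 + n : ℕ) : ℝ) ^ c)‖
      ≤ ((M : ℝ) ^ (1 - δ' / 2) + 1) + (M : ℝ) ^ (1 - ρ) := by linarith
    _ ≤ 3 * (M : ℝ) ^ (1 - r) := by linarith
    _ ≤ (M : ℝ) ^ (r / 2) * (M : ℝ) ^ (1 - r) := by gcongr
    _ = (M : ℝ) ^ (1 - r / 2) := by
        rw [← Real.rpow_add hMp]
        congr 1
        ring

/-- The Fourier coefficients of the law of `ω m ^ c + y`, from the exponential sums. -/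
lemma hat_unif {N M : ℕ} (hM : 1 ≤ M) (ω y c : ℝ) (l : ℤ) {B : ℝ}
    (h : ‖∑ m ∈ Ioc N (N + M), Pool.Agent.Y933.KD.e (|l * ω| * (m : ℝ) ^ c)‖ ≤ (M : ℝ) ^ B) :
    ‖Pool.Agent.Y933.KD.hat (unif (Ioc N (N + M)) (fun m : ℕ => ω * (m : ℝ) ^ c + y)) l‖ ≤
      (M : ℝ) ^ (B - 1) := by
  have hMR : (1 : ℝ) ≤ M := by exact_mod_cast hM
  have hMp : (0 : ℝ) < M := by linarith
  unfold Pool.Agent.Y933.KD.hat
  rw [integral_unif, Nat.card_Ioc, Nat.add_sub_cancel_left]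
  have h1 : ∑ m ∈ Finset.Ioc N (N + M), Pool.Agent.Y933.KD.e (l * (ω * (m : ℝ) ^ c + y)) =
      Pool.Agent.Y933.KD.e (l * y) *
        ∑ m ∈ Finset.Ioc N (N + M), Pool.Agent.Y933.KD.e ((l * ω) * (m : ℝ) ^ c) := by
    rw [mul_sum]
    refine sum_congr rfl fun m _ => ?_
    rw [← e_add]
    congr 1
    ring
  have h2 : ‖∑ m ∈ Finset.Ioc N (N + M), Pool.Agent.Y933.KD.e ((l * ω) * (m : ℝ) ^ c)‖ =
      ‖∑ m ∈ Finset.Ioc N (N + M), Pool.Agent.Y933.KD.e (|l * ω| * (m : ℝ) ^ c)‖ := by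
    rcases abs_choice ((l : ℝ) * ω) with h3 | h3
    · rw [h3]
    · rw [h3, ← Complex.norm_conj, map_sum]
      congr 1
      refine sum_congr rfl fun m _ => ?_
      rw [← e_neg]
      congr 1
      ring
  rw [h1, norm_mul, norm_mul, norm_e, one_mul, h2]
  have h4 : ‖(1 / (M : ℂ))‖ = (M : ℝ) ^ (-1 : ℝ) := by
    rw [norm_div, norm_one, Complex.norm_natCast, one_div, Real.rpow_neg_one]
  rw [h4]
  calc (M : ℝ) ^ (-1 : ℝ) *
        ‖∑ m ∈ Finset.Ioc N (N + M), Pool.Agent.Y933.KD.e (|l * ω| * (m : ℝ) ^ c)‖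
      ≤ (M : ℝ) ^ (-1 : ℝ) * (M : ℝ) ^ B := by gcongr
    _ = (M : ℝ) ^ (B - 1) := by
        rw [← Real.rpow_add hMp]
        congr 1
        ring

end Pool.Agent.Y603.BR
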