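import Mathlib

/-!
Digits of real numbers, and circuits of AND and OR gates which read digits.
-/

set_option autoImplicit false

namespace Pool.Agent.Y603.BR

/-- The digit of the real number `x` in base `b` at the place `j` after the point. -/
noncomputable def digit (b : ℕ) (x : ℝ) (j : ℕ) : ℕ := (⌊(b : ℝ) ^ j * x⌋ % (b : ℤ)).toNat

/-- A circuit which reads the terms `X j`, `j ∈ P`, of a sequence `X` of natural numbers (digits).
`val v X` is the bit at the node `v`. Every node is a leaf (its bit is a function of one of the
numbers `X j`, `j ∈ P`), or an AND gate or an OR gate of any number of wires. An element `(u, a)`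
of a set `J` of wires is a wire from the node `u`, and it is true if the bit at `u` is `a` (so
negations are free). The depth grows along the wires. -/
structure Circuit (P : Set ℕ) where
  Node : Type
  [finite : Finite Node]
  val : Node → (ℕ → ℕ) → Bool
  depth : Node → ℕ
  rule : ∀ v : Node, (∃ j ∈ P, ∃ p : ℕ → Bool, ∀ X, val v X = p (X j)) ∨
    ∃ J : Finset (Node × Bool), (∀ u ∈ J, depth u.1 < depth v) ∧
      ((∀ X, val v X = decide (∀ u ∈ J, val u.1 X = u.2)) ∨
        (∀ X, val v X = decide (∃ u ∈ J, val u.1 X = u.2)))

end Pool.Agent.Y603.BR
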