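import Pool.Agent.Y603.BR.Asy
import Pool.Agent.Y603.BR.Defs

/-!
# Circuits which read the digits of a random real number
-/

set_option autoImplicit false

namespace Pool.Agent.Y603.BR

open Finset MeasureTheory Real
open Pool.Agent.Y933.KD (Leb unif real_unif)

lemma digit_eq (b : ℕ) (x : ℝ) (j : ℕ) : digit b x j = dg b x j := rfl

lemma dec_all {p : Prop} {h : Decidable p} : (@decide p h = true) ↔ p := decide_eq_true_iff

/-- The bits depend on the numbers that may be read. -/
lemma Circuit.congr {P : Set ℕ} (C : Circuit P) {X Y : ℕ → ℕ} (h : ∀ j ∈ P, X j = Y j)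
    (v : C.Node) : C.val v X = C.val v Y := by
  induction hd : C.depth v using Nat.strong_induction_on generalizing v with
  | _ d ih =>
    rcases C.rule v with ⟨j, hj, p, hp⟩ | ⟨J, hJ, hv | hv⟩
    · rw [hp, hp, h j hj]
    · rw [hv, hv, Bool.eq_iff_iff, dec_all, dec_all]
      refine forall₂_congr fun u hu => ?_
      rw [ih _ (by rw [← hd]; exact hJ u hu) u.1 rfl]
    · rw [hv, hv, Bool.eq_iff_iff, dec_all, dec_all]
      refine exists_congr fun u => and_congr_right fun hu => ?_
      rw [ih _ (by rw [← hd]; exact hJ u hu) u.1 rfl]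

/-- The sequence of a word. -/
def ext {b n : ℕ} (x : Fin n → Fin b) (j : ℕ) : ℕ :=
  if h : 1 ≤ j ∧ j ≤ n then x ⟨j - 1, by omega⟩ else 0

/-- The circuit on the words. -/
def Circuit.toLC {n : ℕ} (b : ℕ) (C : Circuit (Set.Icc 1 n)) : LC (Fin b) n :=
  letI := C.finite
  { Node := C.Node
    finite := C.finite
    val := fun v x => C.val v (ext x)
    depth := C.depth
    rule := by
      classical
      intro v
      rcases C.rule v with ⟨j, hj, p, hp⟩ | ⟨J, hJ, hv | hv⟩
      · left
        refine ⟨⟨j - 1, by have := hj.1; have := hj.2; omega⟩, fun x y h => ?_⟩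
        rw [hp, hp]
        congr 1
        unfold ext
        rw [dif_pos (show 1 ≤ j ∧ j ≤ n from hj), dif_pos (show 1 ≤ j ∧ j ≤ n from hj), h]
      · right; right
        refine ⟨false, J.image fun u => (u.1, !u.2), ?_, fun x => ?_⟩
        · intro u hu
          obtain ⟨a, ha, rfl⟩ := Finset.mem_image.1 hu
          exact hJ a ha
        · rw [hv, decide_eq_false_iff_not]
          push Not
          constructor
          · rintro ⟨u, hu, h⟩
            refine ⟨_, Finset.mem_image_of_mem _ hu, ?_⟩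
            show C.val u.1 (ext x) = !u.2
            revert h
            cases C.val u.1 (ext x) <;> cases u.2 <;> simp
          · rintro ⟨u, hu, h⟩
            obtain ⟨a, ha, rfl⟩ := Finset.mem_image.1 hu
            refine ⟨a, ha, ?_⟩
            have h' : C.val a.1 (ext x) = !a.2 := h
            rw [h']
            cases a.2 <;> simp
      · right; right
        refine ⟨true, J, hJ, fun x => ?_⟩
        rw [hv, dec_all] }

lemma toLC_val {n : ℕ} {b : ℕ} (hb0 : 0 < b) (C : Circuit (Set.Icc 1 n)) (v : C.Node) (y : ℝ) :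
    (C.toLC b).val v (gdig hb0 n y) = C.val v (digit b y) := by
  show C.val v (ext (gdig hb0 n y)) = _
  refine C.congr (fun j hj => ?_) v
  unfold ext
  rw [dif_pos (show 1 ≤ j ∧ j ≤ n from hj)]
  show dg b y (j - 1 + 1) = digit b y j
  rw [Nat.sub_add_cancel hj.1]
  rfl

lemma measurableSet_val {b : ℕ} (hb0 : 0 < b) {n : ℕ} (C : Circuit (Set.Icc 1 n)) (v : C.Node) :
    MeasurableSet {y : ℝ | C.val v (digit b y) = true} := by
  have h1 : {y : ℝ | C.val v (digit b y) = true} =
      ⋃ x ∈ (univ : Finset (Fin n → Fin b)).filter fun x => (C.toLC b).val v x = true,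
        {y | gdig hb0 n y = x} := by
    ext y
    simp only [Set.mem_iUnion, Finset.mem_filter, Finset.mem_univ, true_and, exists_prop,
      Set.mem_ofPred_eq]
    rw [← toLC_val hb0]
    constructor
    · intro h
      exact ⟨_, h, rfl⟩
    · rintro ⟨x, h, rfl⟩
      exact h
  rw [h1]
  exact Finset.measurableSet_biUnion _ fun x _ => measurableSet_gdig hb0 n x

/-- **The digits of a random real number with small Fourier coefficients fool the circuits of
constant depth.** -/
theorem circ_fool {b : ℕ} (hb : 2 ≤ b) (d : ℕ) {A η : ℝ} (hA : 0 ≤ A) (hη : 0 < η) :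
    ∃ c : ℝ, 0 < c ∧ ∃ M0 : ℕ, ∀ M : ℕ, M0 ≤ M → ∀ (P : Measure ℝ) [IsProbabilityMeasure P],
      (∀ l : ℤ, l ≠ 0 → |(l : ℝ)| ≤ (M : ℝ) ^ (A + 2) →
        ‖Pool.Agent.Y933.KD.hat P l‖ ≤ (M : ℝ) ^ (-η)) →
      ∀ n : ℕ, (b : ℝ) ^ n ≤ (M : ℝ) ^ A → ∀ C : Circuit (Set.Icc 1 n), (∀ v, C.depth v ≤ d) →
      (Nat.card C.Node : ℝ) ≤ exp (log M ^ c) → ∀ v : C.Node,
      |P.real {y | C.val v (digit b y) = true} -
        volume.real {y | y ∈ Set.Ico (0 : ℝ) 1 ∧ C.val v (digit b y) = true}| ≤
          exp (-(log M ^ c)) := by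
  have hb0 : 0 < b := by omega
  obtain ⟨c, hc, M0, hM0⟩ := real_fool hb hb0 d hA hη
  refine ⟨c, hc, M0, fun M hM P _ hP n hn C hCd hCs v => ?_⟩
  have h := hM0 M hM P hP n hn (C.toLC b) hCd hCs v
  have h1 : {y : ℝ | (C.toLC b).val v (gdig hb0 n y) = true} =
      {y : ℝ | C.val v (digit b y) = true} := by
    ext y
    simp only [Set.mem_ofPred_eq]
    rw [← toLC_val hb0]
  have h2 : Leb.real {y : ℝ | C.val v (digit b y) = true} =
      volume.real {y | y ∈ Set.Ico (0 : ℝ) 1 ∧ C.val v (digit b y) = true} := by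
    unfold Leb
    rw [measureReal_restrict_apply (measurableSet_val hb0 C v)]
    congr 1
    ext y
    simp only [Set.mem_inter_iff, Set.mem_ofPred_eq]
    exact and_comm
  rw [← h2, ← h1]
  exact h

/-- The proportion of the members of a family for which the circuit accepts. -/
lemma unif_val {b : ℕ} (hb0 : 0 < b) {n : ℕ} (C : Circuit (Set.Icc 1 n)) (v : C.Node) (N M : ℕ)
    (x : ℕ → ℝ) :
    (unif (Ioc N (N + M)) x).real {y | C.val v (digit b y) = true} =
      (((Ioc N (N + M)).filter fun m => C.val v (digit b (x m)) = true).card : ℝ) / M := by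
  classical
  rw [real_unif _ _ (measurableSet_val hb0 C v), Nat.card_Ioc, Nat.add_sub_cancel_left]
  congr 3

end Pool.Agent.Y603.BR
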