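import Mathlib

/-!
# From letters to blocks of bits
-/

set_option autoImplicit false

namespace Pool.Agent.Y603.BR

open Finset

section abs
variable {A T : Type} [Fintype A] [Fintype T] [DecidableEq A] [DecidableEq T] {n : ℕ}

lemma spf {ι S : Type} [Fintype ι] [DecidableEq ι] [Fintype S] (g : ι → S → ℝ) :
    ∑ τ : ι → S, ∏ i, g i (τ i) = ∏ i, ∑ t, g i t := by
  classical
  have h := Finset.prod_univ_sum (fun _ : ι => (Finset.univ : Finset S)) g
  rw [Fintype.piFinset_univ] at h
  exact h.symm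

/-- The law of the blocks. -/
noncomputable def push (K : A → T → ℝ) (D : (Fin n → A) → ℝ) (τ : Fin n → T) : ℝ :=
  ∑ x, D x * ∏ j, K (x j) (τ j)

lemma push_swap (K : A → T → ℝ) (D : (Fin n → A) → ℝ) (g : (Fin n → T) → ℝ) :
    ∑ τ, push K D τ * g τ = ∑ x, D x * ∑ τ : Fin n → T, (∏ j, K (x j) (τ j)) * g τ := by
  unfold push
  simp only [Finset.sum_mul, Finset.mul_sum]
  rw [Finset.sum_comm]
  refine Finset.sum_congr rfl fun x _ => Finset.sum_congr rfl fun τ _ => ?_
  ring

lemma push_nonneg {K : A → T → ℝ} (hK0 : ∀ a t, 0 ≤ K a t) {D : (Fin n → A) → ℝ}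
    (hD0 : ∀ x, 0 ≤ D x) (τ : Fin n → T) : 0 ≤ push K D τ :=
  Finset.sum_nonneg fun x _ => mul_nonneg (hD0 x) (Finset.prod_nonneg fun j _ => hK0 _ _)

lemma ker_prod {K : A → T → ℝ} (hK1 : ∀ a, ∑ t, K a t = 1) (x : Fin n → A) :
    ∑ τ : Fin n → T, ∏ j, K (x j) (τ j) = 1 := by
  rw [spf (fun j t => K (x j) t)]
  exact Finset.prod_eq_one fun j _ => hK1 _

lemma push_one {K : A → T → ℝ} (hK1 : ∀ a, ∑ t, K a t = 1) {D : (Fin n → A) → ℝ}
    (hD1 : ∑ x, D x = 1) : ∑ τ, push K D τ = 1 := by
  have h := push_swap K D fun _ => 1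
  simp only [mul_one] at h
  rw [h, ← hD1]
  refine Finset.sum_congr rfl fun x _ => ?_
  rw [ker_prod hK1, mul_one]

/-- Reading the letters off the blocks. -/
lemma push_read {K : A → T → ℝ} (hK0 : ∀ a t, 0 ≤ K a t) (hK1 : ∀ a, ∑ t, K a t = 1)
    {φ : T → A} {η : ℝ} (hφ : ∀ a, ∑ t, K a t * (if φ t ≠ a then 1 else 0) ≤ η)
    {D : (Fin n → A) → ℝ} (hD0 : ∀ x, 0 ≤ D x) (hD1 : ∑ x, D x = 1) {f : (Fin n → A) → ℝ}
    (hf0 : ∀ x, 0 ≤ f x) (hf1 : ∀ x, f x ≤ 1) :
    |∑ τ, push K D τ * f (fun j => φ (τ j)) - ∑ x, D x * f x| ≤ n * η := by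
  rw [push_swap, ← Finset.sum_sub_distrib]
  refine (Finset.abs_sum_le_sum_abs _ _).trans ?_
  have h1 : ∀ x : Fin n → A, |D x * ∑ τ : Fin n → T, (∏ j, K (x j) (τ j)) *
      f (fun j => φ (τ j)) - D x * f x| ≤ D x * (n * η) := by
    intro x
    rw [← mul_sub, abs_mul, abs_of_nonneg (hD0 x)]
    refine mul_le_mul_of_nonneg_left ?_ (hD0 x)
    have h2 : ∑ τ : Fin n → T, (∏ j, K (x j) (τ j)) * f (fun j => φ (τ j)) - f x =
        ∑ τ : Fin n → T, (∏ j, K (x j) (τ j)) * (f (fun j => φ (τ j)) - f x) := by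
      simp only [mul_sub, Finset.sum_sub_distrib]
      rw [← Finset.sum_mul, ker_prod hK1, one_mul]
    rw [h2]
    refine (Finset.abs_sum_le_sum_abs _ _).trans ?_
    have h3 : ∀ τ : Fin n → T, |(∏ j, K (x j) (τ j)) * (f (fun j => φ (τ j)) - f x)| ≤
        ∑ i, ∏ j, (K (x j) (τ j) * (if j = i then (if φ (τ j) ≠ x j then 1 else 0) else 1)) := by
      intro τ
      have h0 : 0 ≤ ∏ j, K (x j) (τ j) := Finset.prod_nonneg fun j _ => hK0 _ _
      have h4 : ∀ i, ∏ j, (K (x j) (τ j) *
          (if j = i then (if φ (τ j) ≠ x j then (1 : ℝ) else 0) else 1)) =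
          (∏ j, K (x j) (τ j)) * (if φ (τ i) ≠ x i then 1 else 0) := by
        intro i
        rw [Finset.prod_mul_distrib]
        congr 1
        rw [Finset.prod_ite_eq' univ i (fun j => if φ (τ j) ≠ x j then (1 : ℝ) else 0)]
        simp
      simp only [h4]
      rw [← Finset.mul_sum, abs_mul, abs_of_nonneg h0]
      refine mul_le_mul_of_nonneg_left ?_ h0
      by_cases hx : (fun j => φ (τ j)) = x
      · rw [hx, sub_self, abs_zero]
        exact Finset.sum_nonneg fun i _ => by split_ifs <;> norm_num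
      · have h5 : |f (fun j => φ (τ j)) - f x| ≤ 1 := by
          rw [abs_le]
          constructor <;> linarith [hf0 (fun j => φ (τ j)), hf1 (fun j => φ (τ j)), hf0 x, hf1 x]
        obtain ⟨i, hi⟩ : ∃ i, φ (τ i) ≠ x i := by
          by_contra hcon
          push Not at hcon
          exact hx (funext hcon)
        have h6 : (1 : ℝ) ≤ ∑ i, if φ (τ i) ≠ x i then 1 else 0 := by
          refine le_trans (le_of_eq (if_pos hi).symm) (Finset.single_le_sum
            (f := fun i => if φ (τ i) ≠ x i then (1 : ℝ) else 0) (fun j _ => ?_)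
            (Finset.mem_univ i))
          split_ifs <;> norm_num
        exact h5.trans h6
    refine (Finset.sum_le_sum fun τ _ => h3 τ).trans ?_
    rw [Finset.sum_comm]
    have h4 : ∀ i : Fin n, ∑ τ : Fin n → T, ∏ j, (K (x j) (τ j) *
        (if j = i then (if φ (τ j) ≠ x j then (1 : ℝ) else 0) else 1)) ≤ η := by
      intro i
      rw [spf (fun j t => K (x j) t * (if j = i then (if φ t ≠ x j then (1 : ℝ) else 0) else 1)),
        ← Finset.mul_prod_erase _ _ (Finset.mem_univ i)]
      have h5 : ∏ j ∈ univ.erase i, ∑ t, K (x j) t *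
          (if j = i then (if φ t ≠ x j then (1 : ℝ) else 0) else 1) = 1 := by
        refine Finset.prod_eq_one fun j hj => ?_
        refine (Finset.sum_congr rfl fun t _ => ?_).trans (hK1 (x j))
        rw [if_neg (Finset.ne_of_mem_erase hj), mul_one]
      rw [h5, mul_one]
      simpa using hφ (x i)
    refine (Finset.sum_le_sum fun i _ => h4 i).trans ?_
    rw [Finset.sum_const, Finset.card_univ, Fintype.card_fin, nsmul_eq_mul]
  refine (Finset.sum_le_sum fun x _ => h1 x).trans ?_
  rw [← Finset.sum_mul, hD1, one_mul]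

/-- Uniform letters give uniform blocks. -/
lemma push_unif {K : A → T → ℝ} (hK2 : ∀ t, ∑ a, K a t = (Fintype.card A : ℝ) / Fintype.card T)
    (hA : 0 < Fintype.card A) (τ : Fin n → T) :
    push K (fun _ => ((Fintype.card A : ℝ) ^ n)⁻¹) τ = ((Fintype.card T : ℝ) ^ n)⁻¹ := by
  unfold push
  rw [← Finset.mul_sum, spf (fun j a => K a (τ j))]
  simp only [hK2, Finset.prod_const, Finset.card_univ, Fintype.card_fin]
  have : (Fintype.card A : ℝ) ≠ 0 := by exact_mod_cast hA.ne'
  rw [div_pow]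
  field_simp

/-- The correlations of the blocks. -/
lemma push_bias {K : A → T → ℝ} (hK0 : ∀ a t, 0 ≤ K a t) (hK1 : ∀ a, ∑ t, K a t = 1)
    (hK2 : ∀ t, ∑ a, K a t = (Fintype.card A : ℝ) / Fintype.card T) [Inhabited A]
    {D : (Fin n → A) → ℝ} {J : Finset (Fin n)} (hJ : J.Nonempty) {ε : ℝ}
    (hε : ∀ a : Fin n → A, |∑ x, D x * (if ∀ j ∈ J, x j = a j then 1 else 0) -
      ((Fintype.card A : ℝ) ^ J.card)⁻¹| ≤ ε)
    {g : Fin n → T → ℝ} (hg : ∀ j t, |g j t| ≤ 1) (hg0 : ∀ j ∈ J, ∑ t, g j t = 0) :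
    |∑ τ, push K D τ * ∏ j ∈ J, g j (τ j)| ≤ (Fintype.card A : ℝ) ^ J.card * ε := by
  classical
  set G : Fin n → A → ℝ := fun j a => ∑ t, K a t * g j t with hG
  have hG1 : ∀ j a, |G j a| ≤ 1 := by
    intro j a
    rw [← hK1 a]
    refine (Finset.abs_sum_le_sum_abs _ _).trans (Finset.sum_le_sum fun t _ => ?_)
    rw [abs_mul, abs_of_nonneg (hK0 a t)]
    exact mul_le_of_le_one_right (hK0 a t) (hg j t)
  have hG0 : ∀ j ∈ J, ∑ a, G j a = 0 := by
    intro j hj
    rw [hG]
    simp only
    rw [Finset.sum_comm]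
    have h1 : ∀ t, ∑ a, K a t * g j t = (Fintype.card A : ℝ) / Fintype.card T * g j t := fun t => by
      rw [← Finset.sum_mul, hK2]
    simp only [h1]
    rw [← Finset.mul_sum, hg0 j hj, mul_zero]
  have h1 : ∑ τ, push K D τ * ∏ j ∈ J, g j (τ j) = ∑ x, D x * ∏ j ∈ J, G j (x j) := by
    rw [push_swap]
    refine Finset.sum_congr rfl fun x _ => ?_
    congr 1
    have h2 : ∀ τ : Fin n → T, (∏ j, K (x j) (τ j)) * ∏ j ∈ J, g j (τ j) =
        ∏ j, (K (x j) (τ j) * (if j ∈ J then g j (τ j) else 1)) := by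
      intro τ
      rw [Finset.prod_mul_distrib, Finset.prod_ite_mem, Finset.univ_inter]
    simp only [h2]
    rw [spf (fun j t => K (x j) t * (if j ∈ J then g j t else 1))]
    have h3 : ∀ j, ∑ t, K (x j) t * (if j ∈ J then g j t else 1) =
        if j ∈ J then G j (x j) else 1 := by
      intro j
      by_cases hj : j ∈ J
      · simp only [if_pos hj]; rfl
      · simp only [if_neg hj, mul_one]; exact hK1 _
    simp only [h3]
    rw [Finset.prod_ite_mem, Finset.univ_inter]
  rw [h1]
  -- the patterns on `J`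
  set S : Finset (Fin n → A) :=
    Fintype.piFinset fun j => if j ∈ J then (univ : Finset A) else {default} with hS
  have hScard : S.card = Fintype.card A ^ J.card := by
    rw [hS, Fintype.card_piFinset]
    have : ∀ j, (if j ∈ J then (univ : Finset A) else {default}).card =
        if j ∈ J then Fintype.card A else 1 := by
      intro j
      split_ifs
      · rfl
      · simp
    simp only [this]
    rw [Finset.prod_ite_mem, Finset.univ_inter, Finset.prod_const]
  set r : (Fin n → A) → (Fin n → A) := fun x j => if j ∈ J then x j else default with hr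
  have hrS : ∀ x ∈ (univ : Finset (Fin n → A)), r x ∈ S := by
    intro x _
    rw [hS, Fintype.mem_piFinset]
    intro j
    rw [hr]
    by_cases hj : j ∈ J
    · simp [hj]
    · simp [hj]
  have h2 : ∑ x, D x * ∏ j ∈ J, G j (x j) = ∑ a ∈ S,
      (∑ x, D x * (if ∀ j ∈ J, x j = a j then 1 else 0)) * ∏ j ∈ J, G j (a j) := by
    rw [← Finset.sum_fiberwise_of_maps_to hrS]
    refine Finset.sum_congr rfl fun a ha => ?_
    rw [Finset.sum_mul, Finset.sum_filter]
    refine Finset.sum_congr rfl fun x _ => ?_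
    have hax : r x = a ↔ ∀ j ∈ J, x j = a j := by
      rw [hS, Fintype.mem_piFinset] at ha
      constructor
      · intro h j hj
        have := congrFun h j
        rw [hr] at this
        simpa [hj] using this
      · intro h
        funext j
        rw [hr]
        by_cases hj : j ∈ J
        · simp [hj, h j hj]
        · have := ha j
          simp only [if_neg hj, Finset.mem_singleton] at this
          simp [hj, this]
    by_cases h : r x = a
    · rw [if_pos h, if_pos (hax.1 h), mul_one]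
      congr 1
      exact Finset.prod_congr rfl fun j hj => by rw [hax.1 h j hj]
    · rw [if_neg h, if_neg (fun h' => h (hax.2 h'))]
      ring
  have h3 : ∑ a ∈ S, ((Fintype.card A : ℝ) ^ J.card)⁻¹ * ∏ j ∈ J, G j (a j) = 0 := by
    rw [← Finset.mul_sum]
    have h4 : ∑ a ∈ S, ∏ j ∈ J, G j (a j) =
        ∏ j, ∑ a ∈ (if j ∈ J then (univ : Finset A) else {default}),
          (if j ∈ J then G j a else 1) := by
      rw [Finset.prod_univ_sum, hS]
      refine Finset.sum_congr rfl fun a _ => ?_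
      rw [Finset.prod_ite_mem, Finset.univ_inter]
    obtain ⟨i, hi⟩ := hJ
    have h5 : ∏ j, ∑ a ∈ (if j ∈ J then (univ : Finset A) else {default}),
          (if j ∈ J then G j a else 1) = 0 := by
      refine Finset.prod_eq_zero (Finset.mem_univ i) ?_
      simp only [if_pos hi]
      exact hG0 i hi
    rw [h4, h5, mul_zero]
  have h4 : ∑ x, D x * ∏ j ∈ J, G j (x j) = ∑ a ∈ S,
      (∑ x, D x * (if ∀ j ∈ J, x j = a j then 1 else 0) -
        ((Fintype.card A : ℝ) ^ J.card)⁻¹) * ∏ j ∈ J, G j (a j) := by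
    rw [h2]
    simp only [sub_mul, Finset.sum_sub_distrib]
    rw [h3, sub_zero]
  rw [h4]
  refine (Finset.abs_sum_le_sum_abs _ _).trans ?_
  have h5 : ∀ a ∈ S, |(∑ x, D x * (if ∀ j ∈ J, x j = a j then 1 else 0) -
      ((Fintype.card A : ℝ) ^ J.card)⁻¹) * ∏ j ∈ J, G j (a j)| ≤ ε := by
    intro a _
    have h6 : |∏ j ∈ J, G j (a j)| ≤ 1 := by
      rw [Finset.abs_prod]
      exact Finset.prod_le_one (fun _ _ => abs_nonneg _) fun j _ => hG1 j _
    rw [abs_mul]
    calc _ ≤ ε * 1 := mul_le_mul (hε a) h6 (abs_nonneg _) ((abs_nonneg _).trans (hε a))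
      _ = ε := mul_one _
  refine (Finset.sum_le_card_nsmul _ _ _ h5).trans (le_of_eq ?_)
  rw [hScard, nsmul_eq_mul]
  push_cast
  rfl

end abs

/-! ### The kernel -/

lemma sum_range_mul' (f : ℕ → ℝ) (b N : ℕ) :
    ∑ a ∈ range b, ∑ u ∈ range N, f (a * N + u) = ∑ s ∈ range (b * N), f s := by
  induction b with
  | zero => simp
  | succ b ih =>
    rw [Finset.sum_range_succ, ih, Nat.succ_mul, Finset.sum_range_add]

/-- The kernel from letters to numbers below `N`. -/
noncomputable def kr (b N : ℕ) (a : Fin b) (r : ℕ) : ℝ :=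
  (N : ℝ)⁻¹ * ∑ u ∈ range N, if (a * N + u) / b = r then 1 else 0

lemma kr_nonneg (b N : ℕ) (a : Fin b) (r : ℕ) : 0 ≤ kr b N a r :=
  mul_nonneg (by positivity) (Finset.sum_nonneg fun u _ => by split_ifs <;> norm_num)

lemma kr_lt {b N : ℕ} (hb : 0 < b) (a : Fin b) {u : ℕ} (hu : u < N) : (a * N + u) / b < N := by
  rw [Nat.div_lt_iff_lt_mul hb]
  have := a.2
  calc (a : ℕ) * N + u < a * N + N := by omega
    _ = (a + 1) * N := by ring
    _ ≤ b * N := Nat.mul_le_mul_right _ (by omega)
    _ = N * b := mul_comm _ _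

lemma kr_one {b N : ℕ} (hb : 0 < b) (hN : 0 < N) (a : Fin b) : ∑ r : Fin N, kr b N a r = 1 := by
  unfold kr
  rw [← Finset.mul_sum, Finset.sum_comm]
  have h1 : ∀ u ∈ range N, ∑ r : Fin N, (if (a * N + u) / b = (r : ℕ) then (1 : ℝ) else 0) = 1 := by
    intro u hu
    have h2 := kr_lt hb a (Finset.mem_range.1 hu)
    rw [Finset.sum_eq_single (⟨_, h2⟩ : Fin N)]
    · simp
    · intro r _ hr
      rw [if_neg]
      intro h
      exact hr (Fin.ext h.symm)
    · intro h
      exact absurd (Finset.mem_univ _) h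
  rw [Finset.sum_congr rfl h1, Finset.sum_const, Finset.card_range, nsmul_eq_mul, mul_one]
  have : (N : ℝ) ≠ 0 := by exact_mod_cast hN.ne'
  field_simp

lemma kr_two {b N : ℕ} (hb : 0 < b) {r : ℕ} (hr : r < N) :
    ∑ a : Fin b, kr b N a r = (b : ℝ) / N := by
  unfold kr
  rw [← Finset.mul_sum]
  have h1 : ∑ a : Fin b, ∑ u ∈ range N, (if ((a : ℕ) * N + u) / b = r then (1 : ℝ) else 0) =
      ∑ s ∈ range (b * N), if s / b = r then (1 : ℝ) else 0 := by
    rw [Fin.sum_univ_eq_sum_range (fun a => ∑ u ∈ range N,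
      (if (a * N + u) / b = r then (1 : ℝ) else 0)) b]
    exact sum_range_mul' (fun s => if s / b = r then (1 : ℝ) else 0) b N
  rw [h1, Finset.sum_boole]
  have h2 : ((range (b * N)).filter fun s => s / b = r) = Finset.Ico (b * r) (b * r + b) := by
    ext s
    simp only [Finset.mem_filter, Finset.mem_range, Finset.mem_Ico]
    constructor
    · rintro ⟨_, h⟩
      have h3 := Nat.div_add_mod s b
      have h4 := Nat.mod_lt s hb
      rw [h] at h3
      omega
    · rintro ⟨h3, h4⟩
      have h5 : s / b = r := by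
        exact Nat.div_eq_of_lt_le (by rw [mul_comm]; exact h3)
          (by rw [Nat.add_mul, one_mul, mul_comm r b]; exact h4)
      refine ⟨?_, h5⟩
      have h6 : (r + 1) * b ≤ N * b := Nat.mul_le_mul_right _ (by omega)
      nlinarith
  rw [h2, Nat.card_Ico, Nat.add_sub_cancel_left, div_eq_inv_mul]

/-- The letter of a number below `N`. -/
def let_ (b N r : ℕ) : ℕ := r * b / N

lemma let_lt {b N r : ℕ} (hN : 0 < N) (hb : 0 < b) (hr : r < N) : let_ b N r < b := by
  unfold let_
  rw [Nat.div_lt_iff_lt_mul hN, mul_comm]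
  exact Nat.mul_lt_mul_of_pos_left hr hb

lemma let_eq {b N : ℕ} (hb : 0 < b) (hN : 0 < N) (a u : ℕ) (hu : u < N) (hbu : b ≤ u) :
    let_ b N ((a * N + u) / b) = a := by
  unfold let_
  have h1 := Nat.div_add_mod (a * N + u) b
  have h2 := Nat.mod_lt (a * N + u) hb
  set q := (a * N + u) / b with hq
  rw [Nat.div_eq_iff hN]
  have h3 : q * b = b * q := mul_comm _ _
  constructor
  · rw [h3]; omega
  · rw [h3]
    have : b * q ≤ a * N + u := by omega
    omega

lemma kr_three {b N : ℕ} (hb : 0 < b) (hN : 0 < N) (a : Fin b) :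
    ∑ r : Fin N, kr b N a r * (if let_ b N r ≠ a then 1 else 0) ≤ (b : ℝ) / N := by
  unfold kr
  have h1 : ∀ r : Fin N, (N : ℝ)⁻¹ * (∑ u ∈ range N, if ((a : ℕ) * N + u) / b = (r : ℕ) then
      (1 : ℝ) else 0) * (if let_ b N r ≠ a then 1 else 0) = (N : ℝ)⁻¹ *
      ∑ u ∈ range N, (if ((a : ℕ) * N + u) / b = (r : ℕ) then
        (if let_ b N r ≠ a then (1 : ℝ) else 0) else 0) := by
    intro r
    rw [mul_assoc, Finset.sum_mul]
    congr 1
    refine Finset.sum_congr rfl fun u _ => ?_
    split_ifs <;> simp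
  simp only [h1]
  rw [← Finset.mul_sum, Finset.sum_comm, div_eq_inv_mul]
  refine mul_le_mul_of_nonneg_left ?_ (by positivity)
  have h2 : ∀ u ∈ range N, ∑ r : Fin N, (if ((a : ℕ) * N + u) / b = (r : ℕ) then
        (if let_ b N r ≠ a then (1 : ℝ) else 0) else 0) ≤ if u < b then 1 else 0 := by
    intro u hu
    have h3 := kr_lt hb a (Finset.mem_range.1 hu)
    rw [Finset.sum_eq_single (⟨_, h3⟩ : Fin N)]
    · simp only [if_true]
      by_cases hub : u < b
      · rw [if_pos hub]; split_ifs <;> norm_num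
      · rw [if_neg hub, if_neg]
        rw [not_not]
        exact let_eq hb hN a u (Finset.mem_range.1 hu) (by omega)
    · intro r _ hr
      rw [if_neg]
      intro h
      exact hr (Fin.ext h.symm)
    · intro h
      exact absurd (Finset.mem_univ _) h
  refine (Finset.sum_le_sum h2).trans ?_
  rw [Finset.sum_boole]
  have h3 : ((range N).filter fun u => u < b).card ≤ b := by
    calc ((range N).filter fun u => u < b).card ≤ (range b).card := by
          refine Finset.card_le_card fun u hu => ?_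
          rw [Finset.mem_range]
          exact (Finset.mem_filter.1 hu).2
      _ = b := Finset.card_range b
  exact_mod_cast h3

end Pool.Agent.Y603.BR
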