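import Pool.Agent.Y933.KD.Unif
import Pool.Agent.Y603.BR.Ker

/-!
# The law of the digits of a random real number
-/

set_option autoImplicit false

namespace Pool.Agent.Y603.BR

open Finset MeasureTheory
open Pool.Agent.Y933.KD (ind e Leb Ev measurableSet_Ev integral_ind test hat_Leb)

/-- The digit at the place `j` after the point. -/
noncomputable def dg (b : ℕ) (y : ℝ) (j : ℕ) : ℕ := (⌊(b : ℝ) ^ j * y⌋ % (b : ℤ)).toNat

lemma dg_lt {b : ℕ} (hb : 0 < b) (y : ℝ) (j : ℕ) : dg b y j < b := by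
  unfold dg
  have hb' : (0 : ℤ) < b := by exact_mod_cast hb
  have h1 := Int.emod_nonneg ⌊(b : ℝ) ^ j * y⌋ hb'.ne'
  have h2 := Int.emod_lt_of_pos ⌊(b : ℝ) ^ j * y⌋ hb'
  omega

lemma dg_iff {b : ℕ} (hb : 0 < b) (y : ℝ) (j : ℕ) {a : ℕ} (ha : a < b) :
    dg b y (j + 1) = a ↔ (a : ℝ) / b ≤ Int.fract ((b : ℝ) ^ j * y) ∧
      Int.fract ((b : ℝ) ^ j * y) < ((a : ℝ) + 1) / b := by
  have hbR : (0 : ℝ) < b := by exact_mod_cast hb
  set z := (b : ℝ) ^ j * y with hz
  set f := Int.fract z with hf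
  have hf0 : 0 ≤ f := Int.fract_nonneg z
  have hf1 : f < 1 := Int.fract_lt_one z
  have h1 : (b : ℝ) ^ (j + 1) * y = (b : ℝ) * f + ((b * ⌊z⌋ : ℤ) : ℝ) := by
    have h2 : z = f + ⌊z⌋ := (Int.fract_add_floor z).symm
    calc (b : ℝ) ^ (j + 1) * y = b * z := by rw [hz, pow_succ]; ring
      _ = b * (f + ⌊z⌋) := by rw [← h2]
      _ = _ := by push_cast; ring
  have h2 : ⌊(b : ℝ) ^ (j + 1) * y⌋ = ⌊(b : ℝ) * f⌋ + b * ⌊z⌋ := by
    rw [h1, Int.floor_add_intCast]
  have h3 : 0 ≤ ⌊(b : ℝ) * f⌋ := Int.floor_nonneg.2 (by positivity)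
  have h4 : ⌊(b : ℝ) * f⌋ < b := by
    rw [Int.floor_lt]
    push_cast
    nlinarith
  have h5 : dg b y (j + 1) = (⌊(b : ℝ) * f⌋).toNat := by
    unfold dg
    rw [h2, Int.add_mul_emod_self_left, Int.emod_eq_of_lt h3 h4]
  rw [h5, div_le_iff₀ hbR, lt_div_iff₀ hbR]
  have h6 : (⌊(b : ℝ) * f⌋).toNat = a ↔ ⌊(b : ℝ) * f⌋ = a := by omega
  rw [h6, Int.floor_eq_iff]
  push_cast
  constructor
  · rintro ⟨h7, h8⟩
    exact ⟨by linarith, by linarith⟩
  · rintro ⟨h7, h8⟩
    exact ⟨by linarith, by linarith⟩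

lemma measurable_dg (b j : ℕ) : Measurable fun y => dg b y j := by
  unfold dg
  have h1 : Measurable fun y : ℝ => ⌊(b : ℝ) ^ j * y⌋ :=
    Int.measurable_floor.comp (measurable_const_mul _)
  exact (measurable_from_top (f := fun z : ℤ => (z % (b : ℤ)).toNat)).comp h1

section law
variable {b : ℕ} (hb : 0 < b) (n : ℕ)
include hb

/-- The first digits. -/
noncomputable def gdig (y : ℝ) (j : Fin n) : Fin b := ⟨dg b y (j + 1), dg_lt hb y _⟩

lemma measurableSet_gdig (x : Fin n → Fin b) : MeasurableSet {y | gdig hb n y = x} := by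
  have h1 : {y | gdig hb n y = x} = ⋂ j : Fin n, {y | dg b y (j + 1) = x j} := by
    ext y
    simp only [Set.mem_ofPred_eq, Set.mem_iInter]
    constructor
    · intro h j
      have := congrFun h j
      rw [← this]
      rfl
    · intro h
      funext j
      exact Fin.ext (h j)
  rw [h1]
  exact MeasurableSet.iInter fun j => measurable_dg b (j + 1) (measurableSet_singleton _)

/-- The law of the first digits. -/
noncomputable def law (P : Measure ℝ) (x : Fin n → Fin b) : ℝ := P.real {y | gdig hb n y = x}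

lemma law_nonneg (P : Measure ℝ) (x : Fin n → Fin b) : 0 ≤ law hb n P x := measureReal_nonneg

open Classical in
lemma law_event (P : Measure ℝ) [IsProbabilityMeasure P] (p : (Fin n → Fin b) → Prop) :
    P.real {y | p (gdig hb n y)} = ∑ x, law hb n P x * (if p x then 1 else 0) := by
  have h1 : {y | p (gdig hb n y)} = ⋃ x ∈ univ.filter p, {y | gdig hb n y = x} := by
    ext y
    simp
  rw [h1, measureReal_biUnion_finset]
  · rw [Finset.sum_filter]
    refine Finset.sum_congr rfl fun x _ => ?_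
    unfold law
    split_ifs <;> ring
  · intro x _ x' _ hne
    rw [Function.onFun, Set.disjoint_left]
    intro y hy hy'
    exact hne (hy.symm.trans hy')
  · intro x _
    exact measurableSet_gdig hb n x

lemma law_sum (P : Measure ℝ) [IsProbabilityMeasure P] : ∑ x, law hb n P x = 1 := by
  classical
  have h := law_event hb n P fun _ => True
  simp only [if_true, mul_one] at h
  rw [← h]
  simp

open Classical in
lemma law_J (P : Measure ℝ) [IsProbabilityMeasure P] (J : Finset (Fin n)) (a : Fin n → Fin b) :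
    ∑ x, law hb n P x * (if ∀ j ∈ J, x j = a j then 1 else 0) =
      P.real (Ev (fun _ : Fin J.card => b) (fun i => (J.orderEmbOfFin rfl i : Fin n))
        (fun i => ((a (J.orderEmbOfFin rfl i) : ℕ) : ℝ) / b)
        (fun i => (((a (J.orderEmbOfFin rfl i) : ℕ) : ℝ) + 1) / b)) := by
  have h0 : ∑ x, law hb n P x * (if ∀ j ∈ J, x j = a j then (1 : ℝ) else 0) =
      P.real {y | ∀ j ∈ J, gdig hb n y j = a j} := by
    rw [law_event hb n P fun x => ∀ j ∈ J, x j = a j]
    refine Finset.sum_congr rfl fun x _ => ?_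
    congr 1
    split_ifs <;> rfl
  rw [h0]
  congr 1
  ext y
  unfold Ev
  simp only [Set.mem_ofPred_eq]
  constructor
  · intro h i
    have h1 := h (J.orderEmbOfFin rfl i) (J.orderEmbOfFin_mem rfl i)
    exact (dg_iff hb y _ (a (J.orderEmbOfFin rfl i)).2).1 (congrArg Fin.val h1)
  · intro h j hj
    have hr : j ∈ Set.range (J.orderEmbOfFin rfl) := by
      rw [Finset.range_orderEmbOfFin]; exact hj
    obtain ⟨i, rfl⟩ := hr
    exact Fin.ext ((dg_iff hb y _ (a (J.orderEmbOfFin rfl i)).2).2 (h i))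

lemma dg_floor (y : ℝ) (hy : 0 ≤ y) (i : ℕ) (hi : i < n) :
    dg b y (n - i) = ⌊(b : ℝ) ^ n * y⌋₊ / b ^ i % b := by
  have hbR : (0 : ℝ) < b := by exact_mod_cast hb
  have h1 : (b : ℝ) ^ (n - i) * y = (b : ℝ) ^ n * y / ((b ^ i : ℕ) : ℝ) := by
    push_cast
    rw [eq_div_iff (by positivity)]
    have : (b : ℝ) ^ n = (b : ℝ) ^ (n - i) * (b : ℝ) ^ i := by
      rw [← pow_add]; congr 1; omega
    rw [this]; ring
  have h2 : 0 ≤ (b : ℝ) ^ n * y := by positivity
  have h3 : ⌊(b : ℝ) ^ (n - i) * y⌋ = ((⌊(b : ℝ) ^ n * y⌋₊ / b ^ i : ℕ) : ℤ) := by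
    rw [← Nat.floor_div_natCast, ← h1]
    exact (Int.natCast_floor_eq_floor (by positivity)).symm
  unfold dg
  rw [h3]
  have h4 : (((⌊(b : ℝ) ^ n * y⌋₊ / b ^ i : ℕ) : ℤ) % (b : ℤ)) =
      ((⌊(b : ℝ) ^ n * y⌋₊ / b ^ i % b : ℕ) : ℤ) := by push_cast; rfl
  rw [h4, Int.toNat_natCast]

/-- The digits of a random number of the unit interval. -/
lemma law_Leb (x : Fin n → Fin b) : law hb n Leb x = ((b : ℝ) ^ n)⁻¹ := by
  have hbR : (0 : ℝ) < b := by exact_mod_cast hb
  set q : Fin (b ^ n) := finFunctionFinEquiv fun i => x i.rev with hq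
  have hqx : ∀ i : Fin n, (q : ℕ) / b ^ (i : ℕ) % b = x i.rev := by
    intro i
    have h1 : finFunctionFinEquiv.symm q = fun i => x i.rev := by
      rw [hq, Equiv.symm_apply_apply]
    have h2 := congrArg Fin.val (congrFun h1 i)
    rw [← h2]
    rfl
  have hset : {y | gdig hb n y = x} ∩ Set.Ico (0 : ℝ) 1 =
      Set.Ico ((q : ℝ) / b ^ n) (((q : ℝ) + 1) / b ^ n) := by
    ext y
    simp only [Set.mem_inter_iff, Set.mem_ofPred_eq, Set.mem_Ico]
    have hpow : (0 : ℝ) < (b : ℝ) ^ n := by positivity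
    rw [div_le_iff₀ hpow, lt_div_iff₀ hpow]
    constructor
    · rintro ⟨h1, h2, h3⟩
      have hlt : ⌊(b : ℝ) ^ n * y⌋₊ < b ^ n := by
        rw [Nat.floor_lt (by positivity)]
        push_cast
        nlinarith
      have h4 : (⟨⌊(b : ℝ) ^ n * y⌋₊, hlt⟩ : Fin (b ^ n)) = q := by
        rw [hq, ← Equiv.symm_apply_eq]
        funext i
        apply Fin.ext
        have h5 := dg_floor hb n y h2 i i.2
        have h6 := congrArg Fin.val (congrFun h1 i.rev)
        have h7 : ((i.rev : Fin n) : ℕ) + 1 = n - i := by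
          rw [Fin.val_rev]; omega
        have h8 : (gdig hb n y i.rev : ℕ) = dg b y (n - i) := by
          rw [← h7]; rfl
        rw [← h6, h8, h5]
        rfl
      have h5 : ⌊(b : ℝ) ^ n * y⌋₊ = (q : ℕ) := congrArg Fin.val h4
      have h6 := Nat.floor_le (by positivity : 0 ≤ (b : ℝ) ^ n * y)
      have h7 := Nat.lt_floor_add_one ((b : ℝ) ^ n * y)
      rw [h5] at h6 h7
      constructor <;> linarith
    · rintro ⟨h1, h2⟩
      have hq0 : (0 : ℝ) ≤ q := Nat.cast_nonneg _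
      have hqn : ((q : ℕ) : ℝ) + 1 ≤ (b : ℝ) ^ n := by
        have : (q : ℕ) + 1 ≤ b ^ n := q.2
        exact_mod_cast this
      have hy0 : 0 ≤ y := by
        by_contra hcon
        push Not at hcon
        have : y * (b : ℝ) ^ n < 0 := mul_neg_of_neg_of_pos hcon hpow
        linarith
      have hy1 : y < 1 := by
        by_contra hcon
        push Not at hcon
        have : 1 * (b : ℝ) ^ n ≤ y * (b : ℝ) ^ n := mul_le_mul_of_nonneg_right hcon hpow.le
        linarith
      refine ⟨?_, hy0, hy1⟩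
      have hfl : ⌊(b : ℝ) ^ n * y⌋₊ = (q : ℕ) := by
        rw [Nat.floor_eq_iff (by positivity)]
        constructor <;> linarith
      funext j
      apply Fin.ext
      show dg b y (j + 1) = x j
      have h3 : (j : ℕ) + 1 = n - (j.rev : Fin n) := by
        rw [Fin.val_rev]; omega
      rw [h3, dg_floor hb n y hy0 _ j.rev.2, hfl, hqx j.rev, Fin.rev_rev]
  unfold law Leb
  rw [measureReal_restrict_apply (measurableSet_gdig hb n x), hset, Real.volume_real_Ico]
  have h1 : ((q : ℝ) + 1) / (b : ℝ) ^ n - (q : ℝ) / (b : ℝ) ^ n = ((b : ℝ) ^ n)⁻¹ := by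
    field_simp
    ring
  rw [h1]
  exact max_eq_left (by positivity)

open Classical in
lemma unif_J (J : Finset (Fin n)) (a : Fin n → Fin b) :
    ∑ x : Fin n → Fin b, ((b : ℝ) ^ n)⁻¹ * (if ∀ j ∈ J, x j = a j then 1 else 0) =
      ((b : ℝ) ^ J.card)⁻¹ := by
  have hbR : (0 : ℝ) < b := by exact_mod_cast hb
  rw [← Finset.mul_sum]
  have h1 : ∀ x : Fin n → Fin b, (if ∀ j ∈ J, x j = a j then (1 : ℝ) else 0) =
      ∏ j, (if j ∈ J ∧ x j ≠ a j then (0 : ℝ) else 1) := by
    intro x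
    by_cases h : ∀ j ∈ J, x j = a j
    · rw [if_pos h]
      symm
      refine Finset.prod_eq_one fun j _ => ?_
      rw [if_neg]
      rintro ⟨h2, h3⟩
      exact h3 (h j h2)
    · rw [if_neg h]
      push Not at h
      obtain ⟨j, hj, h2⟩ := h
      symm
      exact Finset.prod_eq_zero (Finset.mem_univ j) (if_pos ⟨hj, h2⟩)
  simp only [h1]
  rw [spf (fun j (c : Fin b) => if j ∈ J ∧ c ≠ a j then (0 : ℝ) else 1)]
  have h2 : ∀ j : Fin n, ∑ c : Fin b, (if j ∈ J ∧ c ≠ a j then (0 : ℝ) else 1) =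
      b * (if j ∈ J then (b : ℝ)⁻¹ else 1) := by
    intro j
    by_cases hj : j ∈ J
    · have h3 : ∀ c : Fin b, (if j ∈ J ∧ c ≠ a j then (0 : ℝ) else 1) = if c = a j then 1 else 0 := by
        intro c
        by_cases hc : c = a j
        · simp [hc]
        · simp [hc, hj]
      simp only [h3, if_pos hj, Finset.sum_ite_eq', Finset.mem_univ, if_true]
      rw [mul_inv_cancel₀ hbR.ne']
    · simp [hj]
  simp only [h2]
  rw [Finset.prod_mul_distrib, Finset.prod_const, Finset.card_univ, Fintype.card_fin,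
    Finset.prod_ite_mem, Finset.univ_inter, Finset.prod_const, inv_pow]
  field_simp

open Classical in
/-- The joint distribution of few digits. -/
theorem law_bias (P : Measure ℝ) [IsProbabilityMeasure P] {K k : ℕ} (hK : 0 < K) {Δ : ℝ}
    (hΔ0 : 0 ≤ Δ) (hΔ : ∀ l : ℤ, l ≠ 0 → |(l : ℝ)| ≤ k * (K : ℝ) ^ 3 * (b : ℝ) ^ n →
      ‖Pool.Agent.Y933.KD.hat P l‖ ≤ Δ) (J : Finset (Fin n)) (hJ : J.card ≤ k)
    (a : Fin n → Fin b) :
    |∑ x, law hb n P x * (if ∀ j ∈ J, x j = a j then 1 else 0) - ((b : ℝ) ^ J.card)⁻¹| ≤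
      (2 * (K : ℝ) ^ 3 + 1) ^ k * Δ + k * (12 / K + 5 * Δ) := by
  have hbR : (1 : ℝ) ≤ b := by exact_mod_cast hb
  have hKR : (0 : ℝ) < K := by exact_mod_cast hK
  have h1 : ((b : ℝ) ^ J.card)⁻¹ =
      ∑ x, law hb n Leb x * (if ∀ j ∈ J, x j = a j then 1 else 0) := by
    rw [← unif_J hb n J a]
    refine Finset.sum_congr rfl fun x _ => ?_
    rw [law_Leb]
  rw [h1, law_J, law_J, ← integral_ind, ← integral_ind]
  have h2 := test hK P Leb hat_Leb
    (fun i : Fin J.card => (b : ℤ) ^ ((J.orderEmbOfFin rfl i : Fin n) : ℕ))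
    (fun i => pow_ne_zero _ (by exact_mod_cast hb.ne')) Δ (by
      intro h hh hne
      refine hΔ _ hne ?_
      push_cast
      refine (Finset.abs_sum_le_sum_abs _ _).trans ?_
      calc ∑ i : Fin J.card, |(h i : ℝ) * (b : ℝ) ^ ((J.orderEmbOfFin rfl i : Fin n) : ℕ)|
          ≤ ∑ _i : Fin J.card, (K : ℝ) ^ 3 * (b : ℝ) ^ n := by
            refine Finset.sum_le_sum fun i _ => ?_
            rw [abs_mul]
            have h3 : |(h i : ℝ)| ≤ (K : ℝ) ^ 3 := by exact_mod_cast hh i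
            have h4 : |(b : ℝ) ^ ((J.orderEmbOfFin rfl i : Fin n) : ℕ)| ≤ (b : ℝ) ^ n := by
              rw [abs_of_nonneg (by positivity)]
              exact pow_le_pow_right₀ hbR (J.orderEmbOfFin rfl i).2.le
            exact mul_le_mul h3 h4 (abs_nonneg _) (by positivity)
        _ = J.card * ((K : ℝ) ^ 3 * (b : ℝ) ^ n) := by
            rw [Finset.sum_const, Finset.card_univ, Fintype.card_fin, nsmul_eq_mul]
        _ ≤ k * ((K : ℝ) ^ 3 * (b : ℝ) ^ n) := by
            have : (J.card : ℝ) ≤ k := by exact_mod_cast hJ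
            gcongr
        _ = _ := by ring) hΔ0
    (fun i => ((a (J.orderEmbOfFin rfl i) : ℕ) : ℝ) / b)
    (fun i => (((a (J.orderEmbOfFin rfl i) : ℕ) : ℝ) + 1) / b)
    (fun i => by positivity) (fun i => by
      rw [div_le_one (by linarith)]
      have := (a (J.orderEmbOfFin rfl i)).2
      exact_mod_cast this)
  refine h2.trans ?_
  have h3 : (2 * (K : ℝ) ^ 3 + 1) ^ J.card ≤ (2 * (K : ℝ) ^ 3 + 1) ^ k :=
    pow_le_pow_right₀ (by nlinarith [pow_pos hKR 3]) hJ
  have h4 : (J.card : ℝ) ≤ k := by exact_mod_cast hJ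
  have h5 : 0 ≤ 12 / (K : ℝ) + 5 * Δ := by positivity
  gcongr

end law

end Pool.Agent.Y603.BR
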