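import Pool.Agent.Y603.BR.Fool
import Pool.Agent.Y603.BR.Ker

/-!
# Almost independent letters fool circuits of constant depth
-/

set_option autoImplicit false

namespace Pool.Agent.Y603.BR

open Finset

/-- Circuits on the words of length `n`. -/
structure LC (A : Type) (n : ℕ) where
  Node : Type
  [finite : Finite Node]
  val : Node → (Fin n → A) → Bool
  depth : Node → ℕ
  rule : ∀ v, (∃ j : Fin n, ∀ x y, x j = y j → val v x = val v y) ∨
    (∃ b : Bool, ∀ x, val v x = b) ∨
    ∃ (c : Bool) (J : Finset (Node × Bool)), (∀ u ∈ J, depth u.1 < depth v) ∧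
      ∀ x, (val v x = c ↔ ∃ u ∈ J, val u.1 x = u.2)

/-- The real function of a predicate. -/
def rw' {A : Type} {n : ℕ} (f : (Fin n → A) → Bool) (x : Fin n → A) : ℝ :=
  if f x = true then 1 else 0

/-- The blocks of a bit string. -/
def blk (n L : ℕ) : (Fin (n * L) → Bool) ≃ (Fin n → Fin L → Bool) :=
  (Equiv.arrowCongr finProdFinEquiv.symm (Equiv.refl Bool)).trans (Equiv.curry (Fin n) (Fin L) Bool)

lemma blk_apply (n L : ℕ) (z : Fin (n * L) → Bool) (j : Fin n) (i : Fin L) :
    blk n L z j i = z (finProdFinEquiv (j, i)) := rfl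

section
variable {b n L : ℕ} (hb : 0 < b)

/-- The blocks are numbers. -/
noncomputable def num (L : ℕ) : (Fin L → Bool) ≃ Fin (2 ^ L) :=
  Fintype.equivFinOfCardEq (by simp)

/-- The letter of a block. -/
noncomputable def lt' (L : ℕ) (t : Fin L → Bool) : Fin b :=
  ⟨let_ b (2 ^ L) (num L t), let_lt (by positivity) hb (num L t).2⟩

/-- The kernel. -/
noncomputable def kk (b L : ℕ) (a : Fin b) (t : Fin L → Bool) : ℝ := kr b (2 ^ L) a (num L t)

include hb in
lemma kk_one (a : Fin b) : ∑ t, kk b L a t = 1 := by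
  unfold kk
  rw [(num L).sum_comp (fun r : Fin (2 ^ L) => kr b (2 ^ L) a r)]
  exact kr_one hb (by positivity) a

include hb in
lemma kk_two (t : Fin L → Bool) :
    ∑ a, kk b L a t = (Fintype.card (Fin b) : ℝ) / Fintype.card (Fin L → Bool) := by
  unfold kk
  rw [kr_two hb (num L t).2]
  simp

lemma kk_three (a : Fin b) :
    ∑ t, kk b L a t * (if lt' hb L t ≠ a then 1 else 0) ≤ (b : ℝ) / 2 ^ L := by
  have h := kr_three hb (N := 2 ^ L) (by positivity) a
  have h1 : ∑ t, kk b L a t * (if lt' hb L t ≠ a then (1 : ℝ) else 0) =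
      ∑ r : Fin (2 ^ L), kr b (2 ^ L) a r * (if let_ b (2 ^ L) r ≠ a then 1 else 0) := by
    rw [← (num L).sum_comp]
    refine Finset.sum_congr rfl fun t _ => ?_
    unfold kk
    congr 1
    refine if_congr ?_ rfl rfl
    unfold lt'
    rw [ne_eq, ne_eq, Fin.ext_iff]
  rw [h1]
  refine h.trans (le_of_eq ?_)
  push_cast
  rfl

/-- The circuit on the bits. -/
noncomputable def toC (hL : 1 ≤ L) (C : LC (Fin b) n) : Ckt L (n * L) :=
  letI := C.finite
  { Node := C.Node
    finite := C.finite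
    val := fun v z => C.val v fun j => lt' hb L (blk n L z j)
    depth := C.depth
    rule := by
      intro v
      rcases C.rule v with ⟨j, hj⟩ | ⟨c, hc⟩ | h
      · left
        refine ⟨univ.image fun i : Fin L => finProdFinEquiv (j, i), ?_, fun x y h => hj _ _ ?_⟩
        · refine Finset.card_image_le.trans ?_
          simp
        · congr 1
          funext i
          rw [blk_apply, blk_apply]
          exact h _ (Finset.mem_image_of_mem _ (Finset.mem_univ i))
      · left
        exact ⟨∅, by simp, fun x y _ => by rw [hc, hc]⟩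
      · obtain ⟨c, J, h1, h2⟩ := h
        exact Or.inr ⟨c, J, h1, fun z => h2 _⟩ }

/-- The rows of a set of bits. -/
def row (S : Finset (Fin (n * L))) (j : Fin n) : Finset (Fin L) :=
  univ.filter fun i => finProdFinEquiv (j, i) ∈ S

/-- The nonempty rows. -/
def rows (S : Finset (Fin (n * L))) : Finset (Fin n) :=
  S.image fun s => (finProdFinEquiv.symm s).1

lemma row_ne {S : Finset (Fin (n * L))} {j : Fin n} (hj : j ∈ rows S) : (row S j).Nonempty := by
  obtain ⟨s, hs, rfl⟩ := Finset.mem_image.1 hj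
  refine ⟨(finProdFinEquiv.symm s).2, Finset.mem_filter.2 ⟨Finset.mem_univ _, ?_⟩⟩
  rw [Prod.mk.eta, Equiv.apply_symm_apply]
  exact hs

lemma row_em {S : Finset (Fin (n * L))} {j : Fin n} (hj : j ∉ rows S) : row S j = ∅ := by
  rw [Finset.eq_empty_iff_forall_notMem]
  intro i hi
  refine hj (Finset.mem_image.2 ⟨_, (Finset.mem_filter.1 hi).2, ?_⟩)
  rw [Equiv.symm_apply_apply]

lemma chi_rows (S : Finset (Fin (n * L))) (z : Fin (n * L) → Bool) :
    H601R3.chi S z = ∏ j ∈ rows S, H601R3.chi (row S j) (blk n L z j) := by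
  have h1 : H601R3.chi S z = ∏ s, if s ∈ S then H601R3.sg (z s) else 1 := by
    unfold H601R3.chi
    rw [Finset.prod_ite_mem, Finset.univ_inter]
  have h2 : ∀ j : Fin n, H601R3.chi (row S j) (blk n L z j) =
      ∏ i : Fin L, if finProdFinEquiv (j, i) ∈ S then H601R3.sg (z (finProdFinEquiv (j, i)))
        else 1 := by
    intro j
    unfold H601R3.chi row
    rw [Finset.prod_filter]
    rfl
  have h3 : ∏ j ∈ rows S, H601R3.chi (row S j) (blk n L z j) =
      ∏ j, H601R3.chi (row S j) (blk n L z j) := by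
    refine Finset.prod_subset (Finset.subset_univ _) fun j _ hj => ?_
    rw [row_em hj, H601R3.chi_empty]
  rw [h3, h1, ← finProdFinEquiv.prod_comp, Fintype.prod_prod_type]
  exact Finset.prod_congr rfl fun j _ => (h2 j).symm

include hb in
/-- **Almost independent letters fool circuits of constant depth.** -/
theorem dfool_fin (C : LC (Fin b) n) (hL : 1 ≤ L) {s d k : ℕ} (hs : Nat.card C.Node ≤ 2 ^ s)
    (hnL : n * L ≤ 2 ^ s) (hd : ∀ v, C.depth v ≤ d) (v : C.Node) {D : (Fin n → Fin b) → ℝ}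
    (hD0 : ∀ x, 0 ≤ D x) (hD1 : ∑ x, D x = 1) (hk : ord L s d ≤ k) {ε : ℝ} (hε0 : 0 ≤ ε)
    (hε : ∀ J : Finset (Fin n), J.card ≤ k → ∀ a : Fin n → Fin b,
      |∑ x, D x * (if ∀ j ∈ J, x j = a j then 1 else 0) - ((b : ℝ) ^ J.card)⁻¹| ≤ ε) :
    |∑ x, D x * rw' (C.val v) x - ∑ x, ((b : ℝ) ^ n)⁻¹ * rw' (C.val v) x| ≤
      2 * (n * ((b : ℝ) / 2 ^ L)) + (1 / 2) ^ s + (b : ℝ) ^ k * ε * (2 * (n * L + 1)) ^ k := by
  classical
  have hbR : (1 : ℝ) ≤ b := by exact_mod_cast hb
  let _ : Inhabited (Fin b) := ⟨⟨0, hb⟩⟩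
  set U : (Fin n → Fin b) → ℝ := fun _ => ((b : ℝ) ^ n)⁻¹ with hU
  have hU0 : ∀ x, 0 ≤ U x := fun x => by rw [hU]; positivity
  have hU1 : ∑ x, U x = 1 := by
    rw [hU, Finset.sum_const, nsmul_eq_mul, Finset.card_univ, Fintype.card_fun, Fintype.card_fin,
      Fintype.card_fin]
    push_cast
    rw [mul_inv_cancel₀ (by positivity)]
  have hK0 : ∀ (a : Fin b) (t : Fin L → Bool), 0 ≤ kk b L a t := fun a t => kr_nonneg _ _ _ _
  have hK1 := kk_one (L := L) hb
  have hK2 := kk_two (L := L) hb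
  have hr0 : ∀ x, 0 ≤ rw' (C.val v) x := fun x => by unfold rw'; split_ifs <;> norm_num
  have hr1 : ∀ x, rw' (C.val v) x ≤ 1 := fun x => by unfold rw'; split_ifs <;> norm_num
  have h1 := push_read hK0 hK1 (kk_three (L := L) hb) hD0 hD1 hr0 hr1
  have h2 := push_read hK0 hK1 (kk_three (L := L) hb) hU0 hU1 hr0 hr1
  -- the bits
  set D' : (Fin (n * L) → Bool) → ℝ := fun z => push (kk b L) D (blk n L z) with hD'
  have hD'0 : ∀ z, 0 ≤ D' z := fun z => push_nonneg hK0 hD0 _
  have hD'1 : ∑ z, D' z = 1 := by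
    rw [hD', (blk n L).sum_comp (fun τ => push (kk b L) D τ)]
    exact push_one hK1 hD1
  have hbias : ∀ S : Finset (Fin (n * L)), S.Nonempty → S.card ≤ ord L s d →
      |∑ z, D' z * H601R3.chi S z| ≤ (b : ℝ) ^ k * ε := by
    intro S hS hSc
    have hJ : (rows S).Nonempty := hS.image _
    have hJc : (rows S).card ≤ k := Finset.card_image_le.trans (hSc.trans hk)
    have h3 : ∑ z, D' z * H601R3.chi S z = ∑ τ : Fin n → Fin L → Bool, push (kk b L) D τ *
        ∏ j ∈ rows S, H601R3.chi (row S j) (τ j) := by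
      rw [← (blk n L).sum_comp]
      refine Finset.sum_congr rfl fun z _ => ?_
      rw [chi_rows]
    rw [h3]
    refine (push_bias hK0 hK1 hK2 hJ (ε := ε) (fun a => ?_)
      (g := fun j t => H601R3.chi (row S j) t) (fun j t => (abs_chi _ _).le) fun j hj => ?_).trans ?_
    · have := hε (rows S) hJc a
      rw [Fintype.card_fin]
      exact this
    · have h4 := H601R3.chi_orth (row S j) ∅
      rw [if_neg (Finset.nonempty_iff_ne_empty.1 (row_ne hj))] at h4
      simpa using h4
    · rw [Fintype.card_fin]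
      exact mul_le_mul_of_nonneg_right (pow_le_pow_right₀ hbR hJc) hε0
  have h3 := fool (toC hb hL C) hL hs hnL hd v hD'0 hD'1 (by positivity) hbias
  have h4 : ∑ z, D' z * ru ((toC hb hL C).val v) z =
      ∑ τ, push (kk b L) D τ * rw' (C.val v) (fun j => lt' hb L (τ j)) := by
    rw [← (blk n L).sum_comp]
    rfl
  have h5 : H601R3.Ex (ru ((toC hb hL C).val v)) =
      ∑ τ, push (kk b L) U τ * rw' (C.val v) (fun j => lt' hb L (τ j)) := by
    have h6 : ∀ τ : Fin n → Fin L → Bool, push (kk b L) U τ = ((2 : ℝ) ^ (n * L))⁻¹ := by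
      intro τ
      have h7 := push_unif (K := kk b L) (n := n) hK2 (by rw [Fintype.card_fin]; exact hb) τ
      rw [Fintype.card_fin] at h7
      rw [hU, h7, Fintype.card_fun, Fintype.card_fin, Fintype.card_bool]
      push_cast
      rw [← pow_mul, mul_comm]
    simp only [h6]
    rw [← Finset.mul_sum, ← (blk n L).sum_comp]
    unfold H601R3.Ex H601R3.cn
    rw [Fintype.card_fin]
    rfl
  rw [h4, h5] at h3
  have h6 : (b : ℝ) ^ k * ε * (2 * (((n * L : ℕ) : ℝ) + 1)) ^ ord L s d ≤
      (b : ℝ) ^ k * ε * (2 * (n * L + 1)) ^ k := by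
    push_cast
    refine mul_le_mul_of_nonneg_left (pow_le_pow_right₀ ?_ hk) (by positivity)
    have : (0 : ℝ) ≤ (n : ℝ) * L := by positivity
    linarith
  rw [abs_le] at h1 h2 h3 ⊢
  constructor <;> linarith [h1.1, h1.2, h2.1, h2.2, h3.1, h3.2]

end

end Pool.Agent.Y603.BR
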