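import Pool.Agent.Y603.BR.Tail

/-!
# The degree of a function on the cube
-/

set_option autoImplicit false

namespace Pool.Agent.Y603.BR

open Finset

variable {I : Type} [Fintype I] [DecidableEq I]

/-- The function depends on at most `k` coordinates. -/
def Jun (k : ℕ) (f : (I → Bool) → ℝ) : Prop :=
  ∃ A : Finset I, A.card ≤ k ∧ ∀ x y : I → Bool, (∀ i ∈ A, x i = y i) → f x = f y

/-- The function has degree at most `k`. -/
def Deg (k : ℕ) (f : (I → Bool) → ℝ) : Prop :=
  f ∈ Submodule.span ℝ {g : (I → Bool) → ℝ | Jun k g}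

omit [Fintype I] [DecidableEq I] in
lemma Deg.of_jun {k : ℕ} {f : (I → Bool) → ℝ} (h : Jun k f) : Deg k f := Submodule.subset_span h

omit [Fintype I] [DecidableEq I] in
lemma Deg.mono {k k' : ℕ} {f : (I → Bool) → ℝ} (h : Deg k f) (hk : k ≤ k') : Deg k' f :=
  Submodule.span_mono (by
    rintro g ⟨A, hA, h⟩
    exact ⟨A, hA.trans hk, h⟩) h

omit [Fintype I] [DecidableEq I] in
lemma Deg.const (k : ℕ) (c : ℝ) : Deg k (fun _ : I → Bool => c) :=
  Deg.of_jun ⟨∅, by simp, fun _ _ _ => rfl⟩

omit [Fintype I] [DecidableEq I] in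
lemma Deg.add {k : ℕ} {f g : (I → Bool) → ℝ} (hf : Deg k f) (hg : Deg k g) :
    Deg k (fun x => f x + g x) := Submodule.add_mem _ hf hg

omit [Fintype I] [DecidableEq I] in
lemma Deg.sub {k : ℕ} {f g : (I → Bool) → ℝ} (hf : Deg k f) (hg : Deg k g) :
    Deg k (fun x => f x - g x) := Submodule.sub_mem _ hf hg

omit [Fintype I] [DecidableEq I] in
lemma Deg.smul {k : ℕ} {f : (I → Bool) → ℝ} (c : ℝ) (hf : Deg k f) :
    Deg k (fun x => c * f x) := Submodule.smul_mem _ c hf

omit [Fintype I] [DecidableEq I] in
lemma Deg.sum {k : ℕ} {κ : Type*} (s : Finset κ) {f : κ → (I → Bool) → ℝ}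
    (h : ∀ i ∈ s, Deg k (f i)) : Deg k (fun x => ∑ i ∈ s, f i x) := by
  have : (fun x => ∑ i ∈ s, f i x) = ∑ i ∈ s, f i := by
    funext x; simp
  rw [this]
  exact Submodule.sum_mem _ h

omit [Fintype I] in
lemma Deg.mul {k l : ℕ} {f g : (I → Bool) → ℝ} (hf : Deg k f) (hg : Deg l g) :
    Deg (k + l) (fun x => f x * g x) := by
  unfold Deg at hf
  induction hf using Submodule.span_induction with
  | mem f hf =>
    unfold Deg at hg
    induction hg using Submodule.span_induction with
    | mem g hg =>
      obtain ⟨A, hA, hfA⟩ := hf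
      obtain ⟨B, hB, hgB⟩ := hg
      refine Deg.of_jun ⟨A ∪ B, (Finset.card_union_le _ _).trans (by omega), fun x y h => ?_⟩
      show f x * g x = f y * g y
      rw [hfA x y fun i hi => h i (Finset.mem_union_left _ hi),
        hgB x y fun i hi => h i (Finset.mem_union_right _ hi)]
    | zero =>
      have : (fun x => f x * (0 : (I → Bool) → ℝ) x) = fun _ => (0 : ℝ) := by
        funext x; simp
      rw [this]
      exact Deg.const _ _
    | add a b _ _ ha hb =>
      have : (fun x => f x * (a + b) x) = fun x => f x * a x + f x * b x := by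
        funext x; simp only [Pi.add_apply]; ring
      rw [this]
      exact ha.add hb
    | smul c a _ ha =>
      have : (fun x => f x * (c • a) x) = fun x => c * (f x * a x) := by
        funext x; simp only [Pi.smul_apply, smul_eq_mul]; ring
      rw [this]
      exact ha.smul c
  | zero =>
    have : (fun x => (0 : (I → Bool) → ℝ) x * g x) = fun _ => (0 : ℝ) := by
      funext x; simp
    rw [this]
    exact Deg.const _ _
  | add a b _ _ ha hb =>
    have : (fun x => (a + b) x * g x) = fun x => a x * g x + b x * g x := by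
      funext x; simp only [Pi.add_apply]; ring
    rw [this]
    exact ha.add hb
  | smul c a _ ha =>
    have : (fun x => (c • a) x * g x) = fun x => c * (a x * g x) := by
      funext x; simp only [Pi.smul_apply, smul_eq_mul]; ring
    rw [this]
    exact ha.smul c

omit [Fintype I] in
lemma Deg.prod {k : ℕ} {κ : Type*} (s : Finset κ) {f : κ → (I → Bool) → ℝ}
    (h : ∀ i ∈ s, Deg k (f i)) : Deg (s.card * k) (fun x => ∏ i ∈ s, f i x) := by
  classical
  induction s using Finset.induction_on with
  | empty =>
    simp only [Finset.prod_empty]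
    exact Deg.const _ _
  | insert a s ha ih =>
    simp only [Finset.prod_insert ha]
    rw [Finset.card_insert_of_notMem ha, add_mul, one_mul, add_comm]
    exact (h a (Finset.mem_insert_self _ _)).mul (ih fun i hi => h i (Finset.mem_insert_of_mem hi))

lemma hat_jun {k : ℕ} {f : (I → Bool) → ℝ} (h : Jun k f) {T : Finset I} (hT : k < T.card) :
    H601R3.hat f T = 0 := by
  classical
  obtain ⟨A, hA, hf⟩ := h
  obtain ⟨i, hi⟩ : (T \ A).Nonempty := by
    rw [← Finset.card_pos]
    have h1 := Finset.le_card_sdiff A T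
    omega
  rw [Finset.mem_sdiff] at hi
  unfold H601R3.hat
  have hz : ∑ ε : I → Bool, H601R3.chi T ε • f ε = 0 := by
    refine Finset.sum_involution (fun x _ => Function.update x i (!x i)) ?_ ?_ ?_ ?_
    · intro x _
      have h1 : f (Function.update x i (!x i)) = f x := hf _ _ fun j hj => by
        rw [Function.update_of_ne]
        rintro rfl
        exact hi.2 hj
      rw [h1, chi_flip hi.1, smul_eq_mul, smul_eq_mul]
      ring
    · intro x _ _ h2
      have h3 := congrFun h2 i
      rw [Function.update_self] at h3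
      cases hx : x i <;> rw [hx] at h3 <;> simp at h3
    · intro x _
      exact Finset.mem_univ _
    · intro x _
      funext j
      by_cases hj : j = i
      · subst hj; simp
      · simp [Function.update_of_ne hj]
  rw [hz, smul_zero]

lemma Deg.hat {k : ℕ} {f : (I → Bool) → ℝ} (h : Deg k f) {T : Finset I} (hT : k < T.card) :
    H601R3.hat f T = 0 := by
  unfold Deg at h
  induction h using Submodule.span_induction with
  | mem f hf => exact hat_jun hf hT
  | zero => unfold H601R3.hat; simp
  | add a b _ _ ha hb => rw [H601R3.hat_add, ha, hb, add_zero]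
  | smul c a _ ha => rw [H601R3.hat_smul, ha, smul_zero]

lemma Deg.chi {k : ℕ} {S : Finset I} (hS : S.card ≤ k) : Deg k (H601R3.chi S) :=
  Deg.of_jun ⟨S, hS, fun x y h => by
    unfold H601R3.chi
    exact Finset.prod_congr rfl fun i hi => by rw [h i hi]⟩

end Pool.Agent.Y603.BR
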