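import Pool.Agent.Y603.BR.Raz

/-!
# The circuit which detects the errors (Braverman)
-/

set_option autoImplicit false

namespace Pool.Agent.Y603.BR

open Finset H568R2 Pool.Agent.Y603.MS

lemma dec_iff {p : Prop} {h : Decidable p} : (@decide p h = true) ↔ p := decide_eq_true_iff

variable {w n : ℕ}

/-- The nodes of the circuit: inputs, old nodes, isolated wires, wrong gates, output. -/
abbrev VN (V : Type) (R n : ℕ) : Type :=
  Fin n ⊕ (V ⊕ ((V × Fin R × (V × Bool)) ⊕ (V ⊕ Unit)))

variable {C : Ckt w n}

open Classical in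
/-- The wire `u` is the only true wire in `T v k`. -/
noncomputable def isoB (C : Ckt w n) (T : C.Node → ℕ → Finset (C.Node × Bool)) (v : C.Node) (k : ℕ)
    (u : C.Node × Bool) (x : Fin n → Bool) : Bool :=
  decide (u ∈ T v k ∧ C.val u.1 x = u.2 ∧ ∀ u' ∈ T v k, u' ≠ u → C.val u'.1 x = !u'.2)

open Classical in
/-- The gate `v` is wrong. -/
noncomputable def badB (G : Gates C) (T : C.Node → ℕ → Finset (C.Node × Bool)) (R : ℕ)
    (v : C.Node) (x : Fin n → Bool) : Bool :=
  decide (C.val v x = G.c v ∧ ∀ k : Fin R, ∀ u ∈ T v k, isoB C T v k u x = false)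

open Classical in
/-- Some gate is wrong. -/
noncomputable def outB (G : Gates C) (T : C.Node → ℕ → Finset (C.Node × Bool)) (R : ℕ)
    (x : Fin n → Bool) : Bool :=
  decide (∃ v, G.g v = true ∧ badB G T R v x = true)

/-- The values of the nodes. -/
noncomputable def vv (G : Gates C) (T : C.Node → ℕ → Finset (C.Node × Bool)) (R : ℕ) :
    VN C.Node R n → (Fin n → Bool) → Bool
  | .inl i, x => x i
  | .inr (.inl v), x => C.val v x
  | .inr (.inr (.inl (v, k, u))), x => isoB C T v k u x
  | .inr (.inr (.inr (.inl v))), x => badB G T R v x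
  | .inr (.inr (.inr (.inr _))), x => outB G T R x

/-- The depths of the nodes. -/
def vd (C : Ckt w n) (R d : ℕ) : VN C.Node R n → ℕ
  | .inl _ => 0
  | .inr (.inl v) => C.depth v + 1
  | .inr (.inr (.inl (v, _, _))) => C.depth v + 1
  | .inr (.inr (.inr (.inl v))) => C.depth v + 2
  | .inr (.inr (.inr (.inr _))) => d + 3

open Classical in
lemma vv_rule (G : Gates C) (T : C.Node → ℕ → Finset (C.Node × Bool))
    (hT : ∀ v k, T v k ⊆ G.J v) (R : ℕ) {d : ℕ} (hd : ∀ v, C.depth v ≤ d)
    (a : VN C.Node R n) : a ∈ (∅ : Finset (VN C.Node R n)) ∨ (∃ i, ∀ x, vv G T R a x = x i) ∨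
    ∃ J : Finset (VN C.Node R n × Bool), (∀ u ∈ J, vd C R d u.1 < vd C R d a) ∧
      ((J.card ≤ w ∧ ∃ F : Finset (VN C.Node R n × Bool) → Bool,
          ∀ x, vv G T R a x = F (J.filter fun u => vv G T R u.1 x = u.2)) ∨
        (∀ x, vv G T R a x = decide (∀ u ∈ J, vv G T R u.1 x = u.2)) ∨
        (∀ x, vv G T R a x = decide (∃ u ∈ J, vv G T R u.1 x = u.2))) := by
  have hfin := C.finite
  let _ : Fintype C.Node := Fintype.ofFinite _
  rcases a with i | v | ⟨v, k, u⟩ | v | a
  · exact Or.inr (Or.inl ⟨i, fun _ => rfl⟩)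
  · right; right
    cases hg : G.g v with
    | false =>
      obtain ⟨A, hA, h⟩ := G.leaf v hg
      refine ⟨A.image fun i => (Sum.inl i, true), ?_, Or.inl ⟨Finset.card_image_le.trans hA,
        fun S => C.val v fun i => decide (((Sum.inl i : VN C.Node R n), true) ∈ S),
        fun x => ?_⟩⟩
      · intro u hu
        obtain ⟨i, _, rfl⟩ := Finset.mem_image.1 hu
        show 0 < C.depth v + 1
        omega
      · show C.val v x = _
        refine h _ _ fun i hi => ?_
        rw [Bool.eq_iff_iff, dec_iff, Finset.mem_filter]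
        constructor
        · intro hx
          exact ⟨Finset.mem_image.2 ⟨i, hi, rfl⟩, hx⟩
        · rintro ⟨_, hx⟩
          exact hx
    | true =>
      cases hc : G.c v with
      | true =>
        refine ⟨(G.J v).image fun u => (Sum.inr (Sum.inl u.1), u.2), ?_, Or.inr (Or.inr
          fun x => ?_)⟩
        · intro u hu
          obtain ⟨a, ha, rfl⟩ := Finset.mem_image.1 hu
          show C.depth a.1 + 1 < C.depth v + 1
          have := G.lt v hg a ha
          omega
        · show C.val v x = _
          rw [Bool.eq_iff_iff, dec_iff]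
          have h1 := G.gate v hg x
          rw [hc] at h1
          rw [h1]
          constructor
          · rintro ⟨u, hu, hux⟩
            exact ⟨_, Finset.mem_image_of_mem _ hu, hux⟩
          · rintro ⟨u, hu, hux⟩
            obtain ⟨a, ha, rfl⟩ := Finset.mem_image.1 hu
            exact ⟨a, ha, hux⟩
      | false =>
        refine ⟨(G.J v).image fun u => (Sum.inr (Sum.inl u.1), !u.2), ?_, Or.inr (Or.inl
          fun x => ?_)⟩
        · intro u hu
          obtain ⟨a, ha, rfl⟩ := Finset.mem_image.1 hu
          show C.depth a.1 + 1 < C.depth v + 1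
          have := G.lt v hg a ha
          omega
        · show C.val v x = _
          rw [Bool.eq_iff_iff, dec_iff]
          have h1 := G.gate v hg x
          rw [hc] at h1
          constructor
          · intro hx u hu
            obtain ⟨a, ha, rfl⟩ := Finset.mem_image.1 hu
            show C.val a.1 x = !a.2
            by_contra h2
            have h3 : C.val a.1 x = a.2 := by
              revert h2
              cases C.val a.1 x <;> cases a.2 <;> simp
            have h4 := h1.2 ⟨a, ha, h3⟩
            rw [hx] at h4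
            exact absurd h4 (by decide)
          · intro h2
            by_contra h3
            obtain ⟨a, ha, hax⟩ := h1.1 (by simpa using h3)
            have h4 : C.val a.1 x = !a.2 := h2 _ (Finset.mem_image_of_mem _ ha)
            rw [hax] at h4
            revert h4
            cases a.2 <;> simp
  · right; right
    by_cases hu : u ∈ T v k
    · have hg : G.g v = true := by
        by_contra hg
        have := hT v k hu
        rw [G.J0 v (by simpa using hg)] at this
        exact absurd this (Finset.notMem_empty _)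
      refine ⟨insert (Sum.inr (Sum.inl u.1), u.2) (((T v k).erase u).image fun a =>
        (Sum.inr (Sum.inl a.1), !a.2)), ?_, Or.inr (Or.inl fun x => ?_)⟩
      · intro b hb
        rcases Finset.mem_insert.1 hb with rfl | hb
        · show C.depth u.1 + 1 < C.depth v + 1
          have := G.lt v hg u (hT v k hu)
          omega
        · obtain ⟨a, ha, rfl⟩ := Finset.mem_image.1 hb
          show C.depth a.1 + 1 < C.depth v + 1
          have := G.lt v hg a (hT v k (Finset.mem_of_mem_erase ha))
          omega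
      · show isoB C T v k u x = _
        unfold isoB
        rw [Bool.eq_iff_iff, dec_iff, dec_iff]
        constructor
        · rintro ⟨_, h2, h3⟩ b hb
          rcases Finset.mem_insert.1 hb with rfl | hb
          · exact h2
          · obtain ⟨a, ha, rfl⟩ := Finset.mem_image.1 hb
            exact h3 a (Finset.mem_of_mem_erase ha) (Finset.ne_of_mem_erase ha)
        · intro h
          refine ⟨hu, h _ (Finset.mem_insert_self _ _), fun a ha hne => ?_⟩
          exact h _ (Finset.mem_insert_of_mem
            (Finset.mem_image_of_mem _ (Finset.mem_erase.2 ⟨hne, ha⟩)))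
    · refine ⟨∅, by simp, Or.inr (Or.inr fun x => ?_)⟩
      show isoB C T v k u x = _
      unfold isoB
      simp [hu]
  · right; right
    refine ⟨insert (Sum.inr (Sum.inl v), G.c v) ((univ : Finset (Fin R)).biUnion fun k =>
      (T v k).image fun u => (Sum.inr (Sum.inr (Sum.inl (v, k, u))), false)), ?_,
      Or.inr (Or.inl fun x => ?_)⟩
    · intro b hb
      rcases Finset.mem_insert.1 hb with rfl | hb
      · show C.depth v + 1 < C.depth v + 2
        omega
      · obtain ⟨k, _, hb⟩ := Finset.mem_biUnion.1 hb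
        obtain ⟨a, ha, rfl⟩ := Finset.mem_image.1 hb
        show C.depth v + 1 < C.depth v + 2
        omega
    · show badB G T R v x = _
      unfold badB
      rw [Bool.eq_iff_iff, dec_iff, dec_iff]
      constructor
      · rintro ⟨h1, h2⟩ b hb
        rcases Finset.mem_insert.1 hb with rfl | hb
        · exact h1
        · obtain ⟨k, _, hb⟩ := Finset.mem_biUnion.1 hb
          obtain ⟨a, ha, rfl⟩ := Finset.mem_image.1 hb
          exact h2 k a ha
      · intro h
        refine ⟨h _ (Finset.mem_insert_self _ _), fun k u hu => ?_⟩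
        exact h _ (Finset.mem_insert_of_mem (Finset.mem_biUnion.2
          ⟨k, Finset.mem_univ _, Finset.mem_image_of_mem _ hu⟩))
  · right; right
    refine ⟨(univ.filter fun v => G.g v = true).image fun v =>
      (Sum.inr (Sum.inr (Sum.inr (Sum.inl v))), true), ?_, Or.inr (Or.inr fun x => ?_)⟩
    · intro b hb
      obtain ⟨v, hv, rfl⟩ := Finset.mem_image.1 hb
      show C.depth v + 2 < d + 3
      have := hd v
      omega
    · show outB G T R x = _
      unfold outB
      rw [Bool.eq_iff_iff, dec_iff, dec_iff]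
      constructor
      · rintro ⟨v, hv, h⟩
        exact ⟨_, Finset.mem_image_of_mem _ (Finset.mem_filter.2 ⟨Finset.mem_univ v, hv⟩), h⟩
      · rintro ⟨b, hb, h⟩
        obtain ⟨v, hv, rfl⟩ := Finset.mem_image.1 hb
        exact ⟨v, (Finset.mem_filter.1 hv).2, h⟩

/-- The circuit which detects the errors. -/
noncomputable def errC (G : Gates C) (T : C.Node → ℕ → Finset (C.Node × Bool))
    (hT : ∀ v k, T v k ⊆ G.J v) (R : ℕ) {d : ℕ} (hd : ∀ v, C.depth v ≤ d) : Circuit w n :=
  letI := C.finite
  { Node := VN C.Node R n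
    finite := inferInstance
    val := vv G T R
    depth := vd C R d
    leak := ∅
    rule := vv_rule G T hT R hd }

lemma outB_eq [DecidableEq C.Node] (G : Gates C) (T : C.Node → ℕ → Finset (C.Node × Bool))
    (hT : ∀ v k, T v k ⊆ G.J v) (R : ℕ) (x : Fin n → Bool) :
    outB G T R x = true ↔ ∃ v, Bad G T R v x := by
  unfold outB
  rw [dec_iff]
  refine exists_congr fun v => ?_
  unfold Bad
  refine and_congr_right fun hg => ?_
  unfold badB
  rw [dec_iff, G.gate v hg x]
  have h1 : (∃ u ∈ G.J v, C.val u.1 x = u.2) ↔ (tru G v x).Nonempty := by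
    constructor
    · rintro ⟨u, hu, h⟩
      exact ⟨u, Finset.mem_filter.2 ⟨hu, h⟩⟩
    · rintro ⟨u, hu⟩
      exact ⟨u, (Finset.mem_filter.1 hu).1, (Finset.mem_filter.1 hu).2⟩
  rw [h1]
  refine and_congr_right fun _ => ?_
  have h2 : ∀ k : ℕ, (∀ u ∈ T v k, isoB C T v k u x = false) ↔ (T v k ∩ tru G v x).card ≠ 1 := by
    intro k
    have h3 : ∀ u, u ∈ T v k ∩ tru G v x ↔ u ∈ T v k ∧ C.val u.1 x = u.2 := by
      intro u
      simp only [tru, Finset.mem_inter, Finset.mem_filter]
      constructor
      · rintro ⟨h1, h2, h3⟩; exact ⟨h1, h3⟩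
      · rintro ⟨h1, h2⟩; exact ⟨h1, hT v k h1, h2⟩
    rw [← not_iff_not, not_not, Finset.card_eq_one]
    push Not
    constructor
    · rintro ⟨u, hu, h⟩
      refine ⟨u, ?_⟩
      unfold isoB at h
      rw [ne_eq, Bool.not_eq_false, dec_iff] at h
      ext a
      rw [h3, Finset.mem_singleton]
      constructor
      · rintro ⟨ha, ha2⟩
        by_contra hne
        have := h.2.2 a ha hne
        rw [ha2] at this
        revert this
        cases a.2 <;> simp
      · rintro rfl
        exact ⟨hu, h.2.1⟩
    · rintro ⟨u, hu⟩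
      have h4 : ∀ a, (a ∈ T v k ∧ C.val a.1 x = a.2) ↔ a = u := fun a => by
        rw [← h3, hu, Finset.mem_singleton]
      have h5 := (h4 u).2 rfl
      refine ⟨u, h5.1, ?_⟩
      unfold isoB
      rw [ne_eq, Bool.not_eq_false, dec_iff]
      refine ⟨h5.1, h5.2, fun a ha hne => ?_⟩
      have h6 : C.val a.1 x ≠ a.2 := fun h => hne ((h4 a).1 ⟨ha, h⟩)
      revert h6
      cases C.val a.1 x <;> cases a.2 <;> simp
  constructor
  · intro h k hk
    exact (h2 k).1 (h ⟨k, hk⟩)
  · intro h k
    exact (h2 k).2 (h k k.2)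

/-- The size of the circuit. -/
lemma card_VN (C : Ckt w n) {s R ρ : ℕ} (hs : Nat.card C.Node ≤ 2 ^ s) (hn : n ≤ 2 ^ s)
    (hR : R ≤ 2 ^ ρ) : Nat.card (VN C.Node R n) ≤ 2 ^ (2 * s + ρ + 3) := by
  have hfin := C.finite
  let _ : Fintype C.Node := Fintype.ofFinite _
  rw [Nat.card_eq_fintype_card] at hs ⊢
  simp only [Fintype.card_sum, Fintype.card_prod, Fintype.card_fin, Fintype.card_bool,
    Fintype.card_unit]
  set N := Fintype.card C.Node with hN
  have h1 : N * (R * (N * 2)) ≤ 2 ^ (2 * s + ρ + 1) := by
    calc N * (R * (N * 2)) ≤ 2 ^ s * (2 ^ ρ * (2 ^ s * 2)) :=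
          Nat.mul_le_mul hs (Nat.mul_le_mul hR (Nat.mul_le_mul_right _ hs))
      _ = 2 ^ (2 * s + ρ + 1) := by
          rw [show 2 * s + ρ + 1 = s + (ρ + (s + 1)) by ring, pow_add, pow_add, pow_add]
          ring
  have h2 : 2 ^ s ≤ 2 ^ (2 * s + ρ) := Nat.pow_le_pow_right (by norm_num) (by omega)
  have h3 : (1 : ℕ) ≤ 2 ^ (2 * s + ρ) := Nat.one_le_two_pow
  have h4 : (2 : ℕ) ^ (2 * s + ρ + 1) = 2 * 2 ^ (2 * s + ρ) := by rw [pow_succ]; ring
  have h5 : (2 : ℕ) ^ (2 * s + ρ + 3) = 8 * 2 ^ (2 * s + ρ) := by rw [pow_add]; ring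
  omega

end Pool.Agent.Y603.BR
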