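import Pool.Agent.Y603.BR.Deg

/-!
# Sandwiching polynomials (Bazzi, Braverman)
-/

set_option autoImplicit false

namespace Pool.Agent.Y603.BR

open Finset

variable {I : Type} [Fintype I] [DecidableEq I]

lemma card_small (k : ℕ) :
    (univ.filter fun S : Finset I => S.card ≤ k).card ≤ (Fintype.card I + 1) ^ k := by
  classical
  induction k with
  | zero =>
    have : (univ.filter fun S : Finset I => S.card ≤ 0) = {∅} := by
      ext S; simp
    rw [this]; simp
  | succ k ih =>
    have hsub : (univ.filter fun S : Finset I => S.card ≤ k + 1) ⊆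
        ((univ.filter fun S : Finset I => S.card ≤ k) ×ˢ (univ : Finset (Option I))).image
          (fun p => match p.2 with
            | none => p.1
            | some i => insert i p.1) := by
      intro S hS
      rw [Finset.mem_filter] at hS
      rw [Finset.mem_image]
      by_cases h : S.card ≤ k
      · exact ⟨(S, none), by simp [h], rfl⟩
      · have hne : S.Nonempty := by
          rw [← Finset.card_pos]; omega
        obtain ⟨i, hi⟩ := hne
        refine ⟨(S.erase i, some i), ?_, ?_⟩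
        · simp only [Finset.mem_product, Finset.mem_filter, Finset.mem_univ, true_and, and_true]
          rw [Finset.card_erase_of_mem hi]
          omega
        · simp only
          exact Finset.insert_erase hi
    refine (Finset.card_le_card hsub).trans (Finset.card_image_le.trans ?_)
    rw [Finset.card_product, Finset.card_univ, Fintype.card_option, pow_succ]
    exact Nat.mul_le_mul_right _ ih

lemma abs_chi (S : Finset I) (x : I → Bool) : |H601R3.chi S x| = 1 := by
  unfold H601R3.chi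
  rw [Finset.abs_prod]
  simp

lemma hat_le {g : (I → Bool) → ℝ} {M : ℝ} (h : ∀ x, |g x| ≤ M) (S : Finset I) :
    |H601R3.hat g S| ≤ M := by
  have hc := H601R3.cn_pos (I := I)
  unfold H601R3.hat
  rw [smul_eq_mul, abs_mul, abs_of_pos (inv_pos.2 hc)]
  have h1 : |∑ ε : I → Bool, H601R3.chi S ε • g ε| ≤ H601R3.cn I * M := by
    refine (Finset.abs_sum_le_sum_abs _ _).trans ?_
    have h2 : ∀ ε : I → Bool, |H601R3.chi S ε • g ε| ≤ M := fun ε => by
      rw [smul_eq_mul, abs_mul, abs_chi, one_mul]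
      exact h ε
    refine (Finset.sum_le_card_nsmul _ _ _ fun ε _ => h2 ε).trans (le_of_eq ?_)
    unfold H601R3.cn
    simp
  calc (H601R3.cn I)⁻¹ * |∑ ε : I → Bool, H601R3.chi S ε • g ε|
      ≤ (H601R3.cn I)⁻¹ * (H601R3.cn I * M) := mul_le_mul_of_nonneg_left h1 (by positivity)
    _ = M := by field_simp

/-- The part of a function below the level `t`. -/
noncomputable def trunc (t : ℕ) (f : (I → Bool) → ℝ) : (I → Bool) → ℝ :=
  H601R3.mult (fun S => if S.card < t then 1 else 0) f

lemma trunc_deg (t : ℕ) (f : (I → Bool) → ℝ) : Deg t (trunc t f) := by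
  have : trunc t f = fun x => ∑ S : Finset I,
      (if S.card < t then H601R3.hat f S else 0) * H601R3.chi S x := by
    funext x
    unfold trunc H601R3.mult
    refine Finset.sum_congr rfl fun S _ => ?_
    by_cases h : S.card < t
    · simp [h, mul_comm]
    · simp [h]
  rw [this]
  refine Deg.sum _ fun S _ => ?_
  by_cases h : S.card < t
  · exact (Deg.chi h.le).smul _
  · simp only [if_neg h, zero_mul]
    exact Deg.const _ _

lemma trunc_err (t : ℕ) (f : (I → Bool) → ℝ) :
    H601R3.Ex (fun x => (f x - trunc t f x) ^ 2) =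
      ∑ S, if t ≤ S.card then H601R3.hat f S ^ 2 else 0 := by
  rw [pars (fun x => f x - trunc t f x)]
  refine Finset.sum_congr rfl fun S _ => ?_
  have h1 : H601R3.hat (fun x => f x - trunc t f x) S =
      H601R3.hat f S - H601R3.hat (trunc t f) S := H601R3.hat_sub f (trunc t f) S
  rw [h1]
  unfold trunc
  rw [H601R3.hat_mult]
  by_cases h : S.card < t
  · rw [if_pos h, if_neg (by omega)]
    simp
  · rw [if_neg h, if_pos (by omega)]
    simp

lemma trunc_bd (t : ℕ) {f : (I → Bool) → ℝ} (h : ∀ x, |f x| ≤ 1) (x : I → Bool) :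
    |trunc t f x| ≤ (Fintype.card I + 1 : ℝ) ^ t := by
  unfold trunc H601R3.mult
  refine (Finset.abs_sum_le_sum_abs _ _).trans ?_
  have h1 : ∀ S : Finset I, |((if S.card < t then (1 : ℝ) else 0) * H601R3.chi S x) •
      H601R3.hat f S| ≤ if S.card ≤ t then 1 else 0 := by
    intro S
    rw [smul_eq_mul, abs_mul, abs_mul, abs_chi, mul_one]
    have h2 := hat_le h S
    by_cases hS : S.card < t
    · rw [if_pos hS, if_pos hS.le]
      simpa using h2
    · rw [if_neg hS]
      split_ifs <;> simp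
  refine (Finset.sum_le_sum fun S _ => h1 S).trans ?_
  rw [Finset.sum_ite, Finset.sum_const_zero, add_zero, Finset.sum_const, nsmul_eq_mul, mul_one]
  exact_mod_cast card_small (I := I) t

/-- The expectations of a function of low degree. -/
lemma deg_exp {k : ℕ} {q : (I → Bool) → ℝ} (hq : Deg k q) {M : ℝ} (hM : ∀ x, |q x| ≤ M)
    {D : (I → Bool) → ℝ} (hD1 : ∑ x, D x = 1) {ε : ℝ} (hε0 : 0 ≤ ε)
    (hε : ∀ S : Finset I, S.Nonempty → S.card ≤ k → |∑ x, D x * H601R3.chi S x| ≤ ε) :
    |∑ x, D x * q x - H601R3.Ex q| ≤ ε * (Fintype.card I + 1 : ℝ) ^ k * M := by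
  classical
  have hM0 : 0 ≤ M := (abs_nonneg _).trans (hM fun _ => false)
  have h1 : ∑ x, D x * q x = ∑ S, H601R3.hat q S * ∑ x, D x * H601R3.chi S x := by
    have h2 : ∀ x, q x = ∑ S, H601R3.chi S x * H601R3.hat q S := fun x => by
      conv_lhs => rw [← H601R3.mult_one q]
      unfold H601R3.mult
      simp
    calc ∑ x, D x * q x = ∑ x, ∑ S, H601R3.hat q S * (D x * H601R3.chi S x) := by
          refine Finset.sum_congr rfl fun x _ => ?_
          rw [h2 x, Finset.mul_sum]
          refine Finset.sum_congr rfl fun S _ => ?_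
          ring
      _ = _ := by
          rw [Finset.sum_comm]
          refine Finset.sum_congr rfl fun S _ => ?_
          rw [Finset.mul_sum]
  have h3 : ∑ x, D x * q x - H601R3.Ex q =
      ∑ S ∈ univ.erase ∅, H601R3.hat q S * ∑ x, D x * H601R3.chi S x := by
    rw [h1, ← Finset.add_sum_erase _ _ (Finset.mem_univ (∅ : Finset I)), H601R3.Ex_eq_hat]
    simp [hD1]
  rw [h3]
  refine (Finset.abs_sum_le_sum_abs _ _).trans ?_
  have h4 : ∀ S ∈ univ.erase (∅ : Finset I), |H601R3.hat q S * ∑ x, D x * H601R3.chi S x| ≤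
      if S.card ≤ k then ε * M else 0 := by
    intro S hS
    have hne : S.Nonempty := Finset.nonempty_iff_ne_empty.2 (Finset.ne_of_mem_erase hS)
    by_cases hk : S.card ≤ k
    · rw [if_pos hk, abs_mul, mul_comm]
      exact mul_le_mul (hε S hne hk) (hat_le hM S) (abs_nonneg _) hε0
    · rw [if_neg hk, hq.hat (by omega)]
      simp
  refine (Finset.sum_le_sum h4).trans ?_
  have h5 : ∑ S ∈ univ.erase (∅ : Finset I), (if S.card ≤ k then ε * M else 0) ≤
      ∑ S : Finset I, (if S.card ≤ k then ε * M else 0) :=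
    Finset.sum_le_sum_of_subset_of_nonneg (Finset.erase_subset _ _) fun S _ _ => by
      split_ifs
      · exact mul_nonneg hε0 hM0
      · exact le_rfl
  refine h5.trans ?_
  rw [Finset.sum_ite, Finset.sum_const_zero, add_zero, Finset.sum_const, nsmul_eq_mul]
  have h6 : ((univ.filter fun S : Finset I => S.card ≤ k).card : ℝ) ≤
      (Fintype.card I + 1 : ℝ) ^ k := by exact_mod_cast card_small (I := I) k
  calc ((univ.filter fun S : Finset I => S.card ≤ k).card : ℝ) * (ε * M)
      ≤ (Fintype.card I + 1 : ℝ) ^ k * (ε * M) :=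
        mul_le_mul_of_nonneg_right h6 (mul_nonneg hε0 hM0)
    _ = _ := by ring

lemma Ex_sub' (f g : (I → Bool) → ℝ) :
    H601R3.Ex (fun x => f x - g x) = H601R3.Ex f - H601R3.Ex g := by
  unfold H601R3.Ex
  rw [Finset.sum_sub_distrib, mul_sub]

/-- One half of the sandwich. -/
theorem half {f ν : (I → Bool) → Bool} {P : (I → Bool) → ℝ} {a t : ℕ} (hP : Deg a P) {B : ℝ}
    (hB1 : 1 ≤ B) (hB : ∀ x, |P x| ≤ B) (hν : ∀ x, ν x = false → P x = ru f x)
    {D : (I → Bool) → ℝ} (hD0 : ∀ x, 0 ≤ D x) (hD1 : ∑ x, D x = 1) {ε : ℝ} (hε0 : 0 ≤ ε)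
    (hε : ∀ S : Finset I, S.Nonempty → S.card ≤ 2 * (a + t) →
      |∑ x, D x * H601R3.chi S x| ≤ ε) :
    H601R3.Ex (ru f) - ∑ x, D x * ru f x ≤ 2 * H601R3.Ex (ru ν) + ∑ x, D x * ru ν x +
      2 * B ^ 2 * (∑ S, if t ≤ S.card then H601R3.hat (ru ν) S ^ 2 else 0) +
      ε * (Fintype.card I + 1 : ℝ) ^ (2 * (a + t)) *
        (12 * B ^ 2 * (Fintype.card I + 1 : ℝ) ^ (2 * t)) := by
  set N : ℝ := (Fintype.card I + 1 : ℝ) with hN
  have hN1 : 1 ≤ N := by rw [hN]; linarith [(Nat.cast_nonneg (Fintype.card I) : (0:ℝ) ≤ _)]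
  have hNt : 1 ≤ N ^ t := one_le_pow₀ hN1
  set νt := trunc t (ru ν) with hνt
  set y : (I → Bool) → ℝ := fun x => P x * (1 - νt x) with hy
  set q : (I → Bool) → ℝ := fun x => 1 - (1 - y x) * (1 - y x) with hq
  have hru : ∀ x, |ru ν x| ≤ 1 := fun x => by
    rw [abs_of_nonneg (ru_nonneg ν x)]; exact ru_le_one ν x
  have hdy : Deg (a + t) y := hP.mul ((Deg.const t 1).sub (trunc_deg t _))
  have hdq : Deg (2 * (a + t)) q := by
    have h1 := (Deg.const (a + t) 1).sub hdy
    have h2 := h1.mul h1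
    rw [← two_mul] at h2
    exact (Deg.const _ 1).sub h2
  have hyb : ∀ x, |y x| ≤ 2 * B * N ^ t := fun x => by
    have h1 : |1 - νt x| ≤ 2 * N ^ t := by
      have h2 := trunc_bd t hru x
      have h3 : |1 - νt x| ≤ |(1 : ℝ)| + |νt x| := abs_sub _ _
      rw [abs_one] at h3
      rw [← hN, ← hνt] at h2
      linarith
    show |P x * (1 - νt x)| ≤ _
    rw [abs_mul]
    calc |P x| * |1 - νt x| ≤ B * (2 * N ^ t) :=
          mul_le_mul (hB x) h1 (abs_nonneg _) (by linarith)
      _ = _ := by ring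
  have hqb : ∀ x, |q x| ≤ 12 * B ^ 2 * N ^ (2 * t) := fun x => by
    have h1 := hyb x
    set Y := 2 * B * N ^ t with hY
    have hY1 : 1 ≤ Y := by rw [hY]; nlinarith
    have h2 : q x = 2 * y x - y x ^ 2 := by simp only [hq]; ring
    have h3 : |q x| ≤ 2 * |y x| + |y x| ^ 2 := by
      rw [h2]
      refine (abs_sub _ _).trans ?_
      rw [abs_mul, abs_pow, abs_two]
    have h4 : 12 * B ^ 2 * N ^ (2 * t) = 3 * Y ^ 2 := by
      rw [hY, pow_mul', mul_pow, mul_pow]; ring
    rw [h4]
    have h5 := abs_nonneg (y x)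
    nlinarith
  have hη := deg_exp hdq hqb hD1 hε0 hε
  have h1 : ∑ x, D x * q x ≤ ∑ x, D x * ru f x + ∑ x, D x * ru ν x := by
    rw [← Finset.sum_add_distrib]
    refine Finset.sum_le_sum fun x _ => ?_
    rw [← mul_add]
    refine mul_le_mul_of_nonneg_left ?_ (hD0 x)
    have hf0 := ru_nonneg f x
    cases hx : ν x with
    | true =>
      have h2 : ru ν x = 1 := by unfold ru; rw [if_pos hx]
      rw [h2]
      have h3 : q x ≤ 1 := by
        simp only [hq]
        nlinarith [mul_self_nonneg (1 - y x)]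
      linarith
    | false =>
      have h2 : ru ν x = 0 := by unfold ru; rw [hx]; simp
      have h3 := hν x hx
      rw [h2, add_zero]
      by_cases hfx : f x = true
      · have h4 : ru f x = 1 := by unfold ru; rw [if_pos hfx]
        rw [h4]
        simp only [hq]
        nlinarith [mul_self_nonneg (1 - y x)]
      · have h4 : ru f x = 0 := by unfold ru; rw [if_neg hfx]
        rw [h4] at h3 ⊢
        simp only [hq, hy, h3]
        norm_num
  have h2 : H601R3.Ex (ru f) - H601R3.Ex q ≤ 2 * H601R3.Ex (ru ν) +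
      2 * B ^ 2 * H601R3.Ex (fun x => (ru ν x - νt x) ^ 2) := by
    rw [← Ex_sub', ← H601R3.Ex_mul_left, ← H601R3.Ex_mul_left, ← H601R3.Ex_add]
    refine H601R3.Ex_mono fun x => ?_
    have hf1 := ru_le_one f x
    have hP2 : P x ^ 2 ≤ B ^ 2 := by
      have := hB x
      have h0 := abs_nonneg (P x)
      rw [← sq_abs]
      exact pow_le_pow_left₀ h0 this 2
    have hB2 : 1 ≤ B ^ 2 := by nlinarith
    have hs := sq_nonneg (ru ν x - νt x)
    cases hx : ν x with
    | true =>
      have h3 : ru ν x = 1 := by unfold ru; rw [if_pos hx]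
      rw [h3] at hs ⊢
      have h4 : ru f x - q x ≤ (1 - P x * (1 - νt x)) ^ 2 := by
        simp only [hq, hy]
        nlinarith
      have h5 : (1 - P x * (1 - νt x)) ^ 2 ≤ 2 + 2 * (P x ^ 2 * (1 - νt x) ^ 2) := by
        nlinarith [sq_nonneg (1 + P x * (1 - νt x))]
      have h6 : P x ^ 2 * (1 - νt x) ^ 2 ≤ B ^ 2 * (1 - νt x) ^ 2 :=
        mul_le_mul_of_nonneg_right hP2 hs
      nlinarith
    | false =>
      have h3 : ru ν x = 0 := by unfold ru; rw [hx]; simp
      have h4 := hν x hx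
      rw [h3] at hs ⊢
      by_cases hfx : f x = true
      · have h5 : ru f x = 1 := by unfold ru; rw [if_pos hfx]
        rw [h5] at h4 ⊢
        have h6 : 1 - q x = (0 - νt x) ^ 2 := by
          simp only [hq, hy, h4]
          ring
        rw [h6]
        nlinarith
      · have h5 : ru f x = 0 := by unfold ru; rw [if_neg hfx]
        rw [h5] at h4 ⊢
        have h6 : q x = 0 := by
          simp only [hq, hy, h4]
          ring
        rw [h6]
        nlinarith
  rw [trunc_err] at h2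
  have h3 := (abs_le.1 hη).1
  linarith

/-- **The sandwich.** -/
theorem sandwich {f ν : (I → Bool) → Bool} {P : (I → Bool) → ℝ} {a t : ℕ} (hP : Deg a P) {B : ℝ}
    (hB1 : 1 ≤ B) (hB : ∀ x, |P x| ≤ B) (hν : ∀ x, ν x = false → P x = ru f x)
    {D : (I → Bool) → ℝ} (hD0 : ∀ x, 0 ≤ D x) (hD1 : ∑ x, D x = 1) {ε : ℝ} (hε0 : 0 ≤ ε)
    (hε : ∀ S : Finset I, S.Nonempty → S.card ≤ 2 * (a + t) →
      |∑ x, D x * H601R3.chi S x| ≤ ε) :
    |∑ x, D x * ru f x - H601R3.Ex (ru f)| ≤ 2 * H601R3.Ex (ru ν) + ∑ x, D x * ru ν x +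
      8 * B ^ 2 * (∑ S, if t ≤ S.card then H601R3.hat (ru ν) S ^ 2 else 0) +
      ε * (Fintype.card I + 1 : ℝ) ^ (2 * (a + t)) *
        (48 * B ^ 2 * (Fintype.card I + 1 : ℝ) ^ (2 * t)) := by
  have hT0 : 0 ≤ ∑ S, (if t ≤ S.card then H601R3.hat (ru ν) S ^ 2 else 0) :=
    Finset.sum_nonneg fun S _ => by split_ifs <;> positivity
  have hB2 : 0 ≤ B ^ 2 := sq_nonneg B
  have h1 := half hP (B := 2 * B) (by linarith) (fun x => (hB x).trans (by linarith)) hν hD0 hD1
    hε0 hε
  have h2 := half (f := fun x => !f x) (ν := ν) (P := fun x => 1 - P x)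
    ((Deg.const a 1).sub hP) (B := 2 * B) (by linarith) (fun x => by
      have h3 : |1 - P x| ≤ |(1 : ℝ)| + |P x| := abs_sub _ _
      rw [abs_one] at h3
      linarith [hB x]) (fun x hx => by
      rw [hν x hx]
      unfold ru
      cases hfx : f x <;> simp [hfx]) hD0 hD1 hε0 hε
  have h3 : (ru fun x => !f x) = fun x => 1 - ru f x := by
    funext x
    unfold ru
    cases hfx : f x <;> simp [hfx]
  rw [h3, Ex_sub', H601R3.Ex_const] at h2
  have h4 : ∑ x, D x * (1 - ru f x) = 1 - ∑ x, D x * ru f x := by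
    have h5 : ∑ x, D x * (1 - ru f x) = ∑ x, D x - ∑ x, D x * ru f x := by
      rw [← Finset.sum_sub_distrib]
      exact Finset.sum_congr rfl fun x _ => by ring
    rw [h5, hD1]
  rw [h4] at h2
  have e1 : 2 * (2 * B) ^ 2 = 8 * B ^ 2 := by ring
  have e2 : 12 * (2 * B) ^ 2 = 48 * B ^ 2 := by ring
  rw [e1, e2] at h1 h2
  rw [abs_le]
  constructor <;> linarith

end Pool.Agent.Y603.BR
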