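import Pool.Agent.Y603.BR.Err
import Pool.Agent.Y603.BR.Sand

/-!
# Almost independent bits fool circuits of constant depth (Braverman)
-/

set_option autoImplicit false

namespace Pool.Agent.Y603.BR

open Finset H568R2 Pool.Agent.Y603.MS

/-- The number of sets for each gate. -/
def RR (s : ℕ) : ℕ := 16 * (s + 3) ^ 2

/-- The level of the truncation. -/
def tt (w s d : ℕ) : ℕ := lvl w (4 * s + 11) (d + 3) (bb s (RR s) d + 2 * s + 3)

/-- The order of independence. -/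
def ord (w s d : ℕ) : ℕ :=
  2 * (w * RR s ^ d + tt w s d) + 2 * tt w s d + 2 * bb s (RR s) d + 6

/-- Functions of polynomial growth. -/
def PB (f : ℕ → ℕ) : Prop := ∃ c : ℕ, ∀ s, 2 ≤ s → f s ≤ s ^ c

lemma PB.id : PB fun s => s := ⟨1, fun s _ => by rw [pow_one]⟩

lemma PB.const (a : ℕ) : PB fun _ => a := ⟨a, fun s hs =>
  (Nat.lt_two_pow_self (n := a)).le.trans (Nat.pow_le_pow_left hs a)⟩

lemma PB.mul {f g : ℕ → ℕ} (hf : PB f) (hg : PB g) : PB fun s => f s * g s := by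
  obtain ⟨a, ha⟩ := hf
  obtain ⟨b, hb⟩ := hg
  exact ⟨a + b, fun s hs => by rw [pow_add]; exact Nat.mul_le_mul (ha s hs) (hb s hs)⟩

lemma PB.add {f g : ℕ → ℕ} (hf : PB f) (hg : PB g) : PB fun s => f s + g s := by
  obtain ⟨a, ha⟩ := hf
  obtain ⟨b, hb⟩ := hg
  refine ⟨max a b + 1, fun s hs => ?_⟩
  have h1 : s ^ a ≤ s ^ max a b := Nat.pow_le_pow_right (by omega) (le_max_left _ _)
  have h2 : s ^ b ≤ s ^ max a b := Nat.pow_le_pow_right (by omega) (le_max_right _ _)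
  have h3 : s ^ (max a b + 1) = s ^ max a b * s := pow_succ _ _
  have h4 : s ^ max a b * 2 ≤ s ^ max a b * s := Nat.mul_le_mul_left _ hs
  have h5 := ha s hs
  have h6 := hb s hs
  show f s + g s ≤ _
  rw [h3]
  omega

lemma PB.pow {f : ℕ → ℕ} (hf : PB f) (k : ℕ) : PB fun s => f s ^ k := by
  obtain ⟨a, ha⟩ := hf
  exact ⟨a * k, fun s hs => by rw [pow_mul]; exact Nat.pow_le_pow_left (ha s hs) k⟩

lemma PB.ord (d : ℕ) : PB fun s => ord s s d := by
  have hR : PB RR := (PB.const 16).mul ((PB.id.add (PB.const 3)).pow 2)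
  have hb : PB fun s => bb s (RR s) d :=
    (PB.id.add (PB.const 4)).mul ((hR.add (PB.const 1)).pow (d + 1))
  have hl : PB fun s => 4 * s + 11 := ((PB.const 4).mul PB.id).add (PB.const 11)
  have ht : PB fun s => bb s (RR s) d + 2 * s + 3 :=
    (hb.add ((PB.const 2).mul PB.id)).add (PB.const 3)
  have htt : PB fun s => tt s s d :=
    (((PB.const 2).mul ((((PB.const (d + 3)).mul ht).add hl).add (PB.const 1)))).mul
      ((((PB.const 96).mul (PB.id.mul hl)).mul (PB.const (2 ^ (d + 3 + 2)))).pow (d + 3))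
  exact ((((PB.const 2).mul ((PB.id.mul (hR.pow d)).add htt)).add ((PB.const 2).mul htt)).add
    ((PB.const 2).mul hb)).add (PB.const 6)

lemma rate (s : ℕ) : (1 - 3 / (16 * (((s + 1 : ℕ) : ℝ) + 2))) ^ RR s ≤ (1 / 16) ^ (s + 3) := by
  have hs : (0 : ℝ) ≤ s := Nat.cast_nonneg s
  have h0 : (0 : ℝ) ≤ 1 - 3 / (16 * (((s + 1 : ℕ) : ℝ) + 2)) := by
    push_cast
    rw [sub_nonneg, div_le_one (by positivity)]
    linarith
  have h1 : 1 - 3 / (16 * (((s + 1 : ℕ) : ℝ) + 2)) ≤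
      Real.exp (-(3 / (16 * (((s + 1 : ℕ) : ℝ) + 2)))) := by
    have := Real.add_one_le_exp (-(3 / (16 * (((s + 1 : ℕ) : ℝ) + 2))))
    linarith
  refine (pow_le_pow_left₀ h0 h1 _).trans ?_
  rw [← Real.exp_nat_mul]
  have h2 : ((RR s : ℕ) : ℝ) * -(3 / (16 * (((s + 1 : ℕ) : ℝ) + 2))) =
      ((s + 3 : ℕ) : ℝ) * (-3) := by
    unfold RR
    push_cast
    field_simp
    ring
  rw [h2, Real.exp_nat_mul]
  refine pow_le_pow_left₀ (Real.exp_pos _).le ?_ _
  rw [Real.exp_neg, one_div]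
  refine inv_anti₀ (by norm_num) ?_
  have h3 : Real.exp 3 = Real.exp 1 ^ 3 := by
    rw [← Real.exp_nat_mul]; norm_num
  rw [h3]
  have h4 := Real.exp_one_gt_d9
  calc (16 : ℝ) ≤ 2.7182818283 ^ 3 := by norm_num
    _ ≤ Real.exp 1 ^ 3 := pow_le_pow_left₀ (by norm_num) h4.le 3

lemma RR_le (s : ℕ) : RR s ≤ 2 ^ (2 * s + 8) := by
  unfold RR
  have h1 : s + 3 ≤ 2 ^ (s + 2) := by
    have : s < 2 ^ s := Nat.lt_two_pow_self
    have h2 : 2 ^ (s + 2) = 4 * 2 ^ s := by rw [pow_add]; ring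
    have h3 : 1 ≤ 2 ^ s := Nat.one_le_two_pow
    omega
  calc 16 * (s + 3) ^ 2 ≤ 16 * (2 ^ (s + 2)) ^ 2 :=
        Nat.mul_le_mul_left _ (Nat.pow_le_pow_left h1 2)
    _ = 2 ^ (2 * s + 8) := by
        rw [← pow_mul, show (16 : ℕ) = 2 ^ 4 by norm_num, ← pow_add]
        congr 1
        ring

variable {w n : ℕ}

/-- **Almost independent bits fool circuits of constant depth.** -/
theorem fool (C : Ckt w n) (hw : 1 ≤ w) {s d : ℕ} (hs : Nat.card C.Node ≤ 2 ^ s) (hn : n ≤ 2 ^ s)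
    (hd : ∀ v, C.depth v ≤ d) (v : C.Node) {D : (Fin n → Bool) → ℝ} (hD0 : ∀ x, 0 ≤ D x)
    (hD1 : ∑ x, D x = 1) {ε : ℝ} (hε0 : 0 ≤ ε)
    (hε : ∀ S : Finset (Fin n), S.Nonempty → S.card ≤ ord w s d →
      |∑ x, D x * H601R3.chi S x| ≤ ε) :
    |∑ x, D x * ru (C.val v) x - H601R3.Ex (ru (C.val v))| ≤
      (1 / 2) ^ s + ε * (2 * (n + 1)) ^ ord w s d := by
  classical
  have hfin := C.finite
  let _ : Fintype C.Node := Fintype.ofFinite _
  obtain ⟨G⟩ := C.gates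
  have hcn := H601R3.cn_pos (I := Fin n)
  set μ : (Fin n → Bool) → ℝ := fun x => 2 * (H601R3.cn (Fin n))⁻¹ + D x with hμ
  have hμ0 : ∀ x, 0 ≤ μ x := fun x => add_nonneg (by positivity) (hD0 x)
  have hμ1 : ∑ x, μ x = 3 := by
    rw [hμ, Finset.sum_add_distrib, hD1, Finset.sum_const, nsmul_eq_mul]
    have h1 : (((univ : Finset (Fin n → Bool)).card : ℕ) : ℝ) = H601R3.cn (Fin n) := by
      unfold H601R3.cn; simp
    rw [h1]
    field_simp
    norm_num
  obtain ⟨T, hT, hbad⟩ := choice G hs μ hμ0 (RR s)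
  obtain ⟨P, hP⟩ := exists_poly G T hT (RR s)
  have hR1 : 1 ≤ RR s := by
    unfold RR
    exact Nat.one_le_iff_ne_zero.2 (by positivity)
  have hdeg : Deg (w * RR s ^ d) (P v) := (poly_deg hT hR1 hP v).mono
    (Nat.mul_le_mul_left _ (Nat.pow_le_pow_right hR1 (hd v)))
  have hbd : ∀ x, |P v x| ≤ 2 ^ bb s (RR s) d := fun x =>
    (poly_bd hT hs hP v x).trans (pow_le_pow_right₀ (by norm_num) (bb_mono s _ (hd v)))
  have hB1 : (1 : ℝ) ≤ 2 ^ bb s (RR s) d := one_le_pow₀ (by norm_num)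
  have hν : ∀ x, outB G T (RR s) x = false → P v x = ru (C.val v) x := by
    intro x hx
    refine poly_eq hT hP (fun v' hv' => ?_) v
    have := (outB_eq G T hT (RR s) x).2 ⟨v', hv'⟩
    rw [hx] at this
    exact absurd this (by decide)
  -- the Fourier tail of the error
  have htail := node_tail (errC G T hT (RR s) hd) (errC G T hT (RR s) hd).val (by
    intro a
    rcases (errC G T hT (RR s) hd).rule a with h | h | h
    · exact absurd h (Finset.notMem_empty _)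
    · exact Or.inr (Or.inl h)
    · exact Or.inr (Or.inr h)) (ℓ := 4 * s + 11) (t := bb s (RR s) d + 2 * s + 3) (d := d + 3)
    (by omega) hw (by
      have h1 := card_VN C hs hn (RR_le s)
      have h2 : 2 * s + (2 * s + 8) + 3 = 4 * s + 11 := by ring
      rw [h2] at h1
      exact h1) (by omega) (Sum.inr (Sum.inr (Sum.inr (Sum.inr ())))) (le_refl (d + 3))
  have htail' : ∑ S, (if tt w s d ≤ S.card then H601R3.hat (ru (outB G T (RR s))) S ^ 2 else 0) ≤
      (1 / 4) ^ (bb s (RR s) d + 2 * s + 3) := htail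
  have hsand := sandwich (t := tt w s d) hdeg hB1 hbd hν hD0 hD1 hε0 (fun S hS hSc =>
    hε S hS (hSc.trans (by unfold ord; omega)))
  -- the mass of the errors
  have hmass : 2 * H601R3.Ex (ru (outB G T (RR s))) + ∑ x, D x * ru (outB G T (RR s)) x ≤
      3 * (2 ^ s * (1 / 16) ^ (s + 3)) := by
    have h1 : 2 * H601R3.Ex (ru (outB G T (RR s))) + ∑ x, D x * ru (outB G T (RR s)) x =
        ∑ x, μ x * ru (outB G T (RR s)) x := by
      unfold H601R3.Ex
      rw [Finset.mul_sum, Finset.mul_sum, ← Finset.sum_add_distrib]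
      refine Finset.sum_congr rfl fun x _ => ?_
      rw [hμ]
      ring
    rw [h1]
    calc ∑ x, μ x * ru (outB G T (RR s)) x
        ≤ ∑ x, ∑ v', (if Bad G T (RR s) v' x then μ x else 0) := by
          refine Finset.sum_le_sum fun x _ => ?_
          unfold ru
          by_cases hx : outB G T (RR s) x = true
          · rw [if_pos hx, mul_one]
            obtain ⟨v', hv'⟩ := (outB_eq G T hT (RR s) x).1 hx
            refine le_trans (le_of_eq (if_pos hv').symm) (Finset.single_le_sum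
              (f := fun v' => if Bad G T (RR s) v' x then μ x else 0)
              (fun v' _ => ?_) (Finset.mem_univ v'))
            split_ifs
            · exact hμ0 x
            · exact le_rfl
          · rw [if_neg hx, mul_zero]
            refine Finset.sum_nonneg fun v' _ => ?_
            split_ifs
            · exact hμ0 x
            · exact le_rfl
      _ = ∑ v', ∑ x, (if Bad G T (RR s) v' x then μ x else 0) := Finset.sum_comm
      _ ≤ ∑ _v' : C.Node, (1 / 16 : ℝ) ^ (s + 3) * 3 := by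
          refine Finset.sum_le_sum fun v' _ => (hbad v').trans ?_
          rw [hμ1]
          exact mul_le_mul_of_nonneg_right (rate s) (by norm_num)
      _ ≤ 3 * (2 ^ s * (1 / 16) ^ (s + 3)) := by
          rw [Finset.sum_const, Finset.card_univ, nsmul_eq_mul]
          have h2 : (Fintype.card C.Node : ℝ) ≤ 2 ^ s := by
            rw [← Nat.card_eq_fintype_card]
            exact_mod_cast hs
          have h3 : (0 : ℝ) ≤ (1 / 16) ^ (s + 3) * 3 := by positivity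
          calc (Fintype.card C.Node : ℝ) * ((1 / 16) ^ (s + 3) * 3)
              ≤ 2 ^ s * ((1 / 16) ^ (s + 3) * 3) := mul_le_mul_of_nonneg_right h2 h3
            _ = _ := by ring
  have h1 : 3 * ((2 : ℝ) ^ s * (1 / 16) ^ (s + 3)) ≤ (1 / 2) * (1 / 2) ^ s := by
    have e1 : (2 : ℝ) ^ s * (1 / 16) ^ (s + 3) = (1 / 8) ^ s * (1 / 16) ^ 3 := by
      rw [pow_add, ← mul_assoc, ← mul_pow]
      norm_num
    rw [e1]
    have e2 : ((1 : ℝ) / 8) ^ s ≤ (1 / 2) ^ s := pow_le_pow_left₀ (by norm_num) (by norm_num) s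
    have e3 : (0 : ℝ) ≤ (1 / 2) ^ s := by positivity
    nlinarith
  have h2 : 8 * ((2 : ℝ) ^ bb s (RR s) d) ^ 2 * (1 / 4) ^ (bb s (RR s) d + 2 * s + 3) ≤
      (1 / 2) * (1 / 2) ^ s := by
    have e1 : 8 * ((2 : ℝ) ^ bb s (RR s) d) ^ 2 * (1 / 4) ^ (bb s (RR s) d + 2 * s + 3) =
        (1 / 8) * (1 / 16) ^ s := by
      have e2 : ((2 : ℝ) ^ bb s (RR s) d) ^ 2 = 4 ^ bb s (RR s) d := by
        rw [← pow_mul, mul_comm, pow_mul]; norm_num
      have e3 : ((1 : ℝ) / 4) ^ (bb s (RR s) d + 2 * s + 3) =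
          (1 / 4) ^ bb s (RR s) d * ((1 / 16) ^ s * (1 / 64)) := by
        rw [pow_add, pow_add, pow_mul]; norm_num; ring
      rw [e2, e3]
      have e4 : (4 : ℝ) ^ bb s (RR s) d * (1 / 4) ^ bb s (RR s) d = 1 := by
        rw [← mul_pow]; norm_num
      calc 8 * (4 : ℝ) ^ bb s (RR s) d * ((1 / 4) ^ bb s (RR s) d * ((1 / 16) ^ s * (1 / 64)))
          = 8 * (4 ^ bb s (RR s) d * (1 / 4) ^ bb s (RR s) d) * ((1 / 16) ^ s * (1 / 64)) := by
            ring
        _ = _ := by rw [e4]; ring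
    rw [e1]
    have e2 : ((1 : ℝ) / 16) ^ s ≤ (1 / 2) ^ s := pow_le_pow_left₀ (by norm_num) (by norm_num) s
    have e3 : (0 : ℝ) ≤ (1 / 2) ^ s := by positivity
    nlinarith
  have h3 : 8 * ((2 : ℝ) ^ bb s (RR s) d) ^ 2 *
      (∑ S, if tt w s d ≤ S.card then H601R3.hat (ru (outB G T (RR s))) S ^ 2 else 0) ≤
      (1 / 2) * (1 / 2) ^ s :=
    (mul_le_mul_of_nonneg_left htail' (by positivity)).trans h2
  have h4 : ε * (Fintype.card (Fin n) + 1 : ℝ) ^ (2 * (w * RR s ^ d + tt w s d)) *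
        (48 * ((2 : ℝ) ^ bb s (RR s) d) ^ 2 * (Fintype.card (Fin n) + 1 : ℝ) ^ (2 * tt w s d)) ≤
      ε * (2 * (n + 1)) ^ ord w s d := by
    rw [Fintype.card_fin]
    have hn1 : (1 : ℝ) ≤ n + 1 := by linarith [(Nat.cast_nonneg n : (0 : ℝ) ≤ n)]
    have e1 : 48 * ((2 : ℝ) ^ bb s (RR s) d) ^ 2 ≤ 2 ^ ord w s d := by
      calc 48 * ((2 : ℝ) ^ bb s (RR s) d) ^ 2 ≤ 2 ^ 6 * (2 ^ bb s (RR s) d) ^ 2 :=
            mul_le_mul_of_nonneg_right (by norm_num) (by positivity)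
        _ = 2 ^ (2 * bb s (RR s) d + 6) := by rw [← pow_mul, ← pow_add]; congr 1; ring
        _ ≤ 2 ^ ord w s d := pow_le_pow_right₀ (by norm_num) (by unfold ord; omega)
    have e2 : ((n : ℝ) + 1) ^ (2 * (w * RR s ^ d + tt w s d)) * (n + 1) ^ (2 * tt w s d) ≤
        (n + 1) ^ ord w s d := by
      rw [← pow_add]
      exact pow_le_pow_right₀ hn1 (by unfold ord; omega)
    calc ε * ((n : ℝ) + 1) ^ (2 * (w * RR s ^ d + tt w s d)) *
          (48 * ((2 : ℝ) ^ bb s (RR s) d) ^ 2 * ((n : ℝ) + 1) ^ (2 * tt w s d))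
        = ε * ((48 * ((2 : ℝ) ^ bb s (RR s) d) ^ 2) *
          (((n : ℝ) + 1) ^ (2 * (w * RR s ^ d + tt w s d)) * (n + 1) ^ (2 * tt w s d))) := by
          ring
      _ ≤ ε * (2 ^ ord w s d * (n + 1) ^ ord w s d) :=
          mul_le_mul_of_nonneg_left (mul_le_mul e1 e2 (by positivity) (by positivity)) hε0
      _ = _ := by rw [mul_pow]
  have h5 : (1 / 2 : ℝ) * (1 / 2) ^ s + (1 / 2) * (1 / 2) ^ s = (1 / 2) ^ s := by ring
  linarith

end Pool.Agent.Y603.BR
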