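import Pool.Agent.Y603.BR.Tail

/-!
# Isolation (Razborov, Valiant and Vazirani)
-/

set_option autoImplicit false

namespace Pool.Agent.Y603.BR

open Finset H568R2

lemma Ex_prod_fun {I A : Type} [Fintype I] [DecidableEq I] [Fintype A] (w : A → ℝ)
    (g : I → A → ℝ) : Ex w (fun ω : I → A => ∏ i, g i (ω i)) = ∏ i, ∑ a, w a * g i a := by
  classical
  unfold Ex
  have h := Finset.prod_univ_sum (fun _ : I => (Finset.univ : Finset A))
    (fun i a => w a * g i a)
  rw [Fintype.piFinset_univ] at h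
  rw [h]
  exact Finset.sum_congr rfl fun ω _ => by rw [Finset.prod_mul_distrib]

variable {κ : Type} [Fintype κ] [DecidableEq κ]

lemma Ex_all (p : ℝ) (A : Finset κ) :
    Ex (bp p) (fun ω : κ → Bool => if ∀ i ∈ A, ω i = true then (1 : ℝ) else 0) = p ^ A.card := by
  have h1 : (fun ω : κ → Bool => if ∀ i ∈ A, ω i = true then (1 : ℝ) else 0) = fun ω =>
      ∏ i, (fun (i : κ) (b : Bool) => if i ∈ A ∧ b = false then (0 : ℝ) else 1) i (ω i) := by
    funext ω
    by_cases h : ∀ i ∈ A, ω i = true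
    · rw [if_pos h]
      symm
      refine Finset.prod_eq_one fun i _ => ?_
      simp only
      rw [if_neg]
      rintro ⟨h2, h3⟩
      rw [h i h2] at h3
      exact absurd h3 (by decide)
    · rw [if_neg h]
      push Not at h
      obtain ⟨i, hi, h2⟩ := h
      symm
      refine Finset.prod_eq_zero (Finset.mem_univ i) ?_
      simp only
      rw [if_pos ⟨hi, by simpa using h2⟩]
  rw [h1]
  refine (Ex_prod_fun (bp p) (fun (i : κ) (b : Bool) =>
    if i ∈ A ∧ b = false then (0 : ℝ) else 1)).trans ?_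
  have h2 : ∀ i : κ, ∑ a : Bool, bp p a * (fun (i : κ) (b : Bool) =>
      if i ∈ A ∧ b = false then (0 : ℝ) else 1) i a = if i ∈ A then p else 1 := by
    intro i
    rw [Fintype.sum_bool]
    by_cases h : i ∈ A
    · simp [h, bp]
    · simp [h, bp]
  rw [Finset.prod_congr rfl fun i _ => h2 i, Finset.prod_ite_mem]
  simp

lemma isolate {p : ℝ} (h0 : 0 ≤ p) (h1 : p ≤ 1) (Y : Finset κ) :
    p * Y.card - (p * Y.card) ^ 2 ≤ Ex (bp p) (fun ω : κ → Bool =>
      if (Y.filter fun y => ω y = true).card = 1 then (1 : ℝ) else 0) := by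
  have h2 : Ex (bp p) (fun ω : κ → Bool => ∑ y ∈ Y, 2 * (if ω y = true then (1 : ℝ) else 0) +
      ∑ y ∈ Y, ∑ z ∈ Y, (-1) * (if ω y = true ∧ ω z = true then (1 : ℝ) else 0)) ≤
      Ex (bp p) (fun ω : κ → Bool =>
        if (Y.filter fun y => ω y = true).card = 1 then (1 : ℝ) else 0) := by
    refine Ex_mono (bp_nonneg h0 h1) fun ω => ?_
    set N := (Y.filter fun y => ω y = true).card with hN
    have e1 : ∑ y ∈ Y, 2 * (if ω y = true then (1 : ℝ) else 0) = 2 * N := by
      rw [← Finset.mul_sum, Finset.sum_boole]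
    have e2 : ∑ y ∈ Y, ∑ z ∈ Y, (-1) * (if ω y = true ∧ ω z = true then (1 : ℝ) else 0) =
        - (N : ℝ) ^ 2 := by
      have e3 : ∀ y z, (-1) * (if ω y = true ∧ ω z = true then (1 : ℝ) else 0) =
          -((if ω y = true then (1 : ℝ) else 0) * (if ω z = true then (1 : ℝ) else 0)) := by
        intro y z
        cases ω y <;> cases ω z <;> simp
      simp only [e3, Finset.sum_neg_distrib]
      rw [← Finset.sum_mul_sum, Finset.sum_boole, ← hN]
      ring
    rw [e1, e2]
    by_cases h : N = 1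
    · rw [if_pos h, h]; norm_num
    · rw [if_neg h]
      rcases Nat.lt_or_ge N 1 with h3 | h3
      · have : N = 0 := by omega
        rw [this]; norm_num
      · have h4 : (2 : ℝ) ≤ N := by exact_mod_cast (by omega : 2 ≤ N)
        nlinarith
  refine le_trans ?_ h2
  rw [Ex_add, Ex_sum, Ex_sum]
  have h3 : ∀ y, Ex (bp p) (fun ω : κ → Bool => 2 * (if ω y = true then (1 : ℝ) else 0)) =
      2 * p := by
    intro y
    rw [Ex_smul]
    have := Ex_all p {y}
    simp only [Finset.mem_singleton, forall_eq, Finset.card_singleton, pow_one] at this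
    rw [this]
  have h4 : ∀ y z, -(p * (if y = z then 1 else 0)) - p ^ 2 ≤
      Ex (bp p) (fun ω : κ → Bool => (-1) *
        (if ω y = true ∧ ω z = true then (1 : ℝ) else 0)) := by
    intro y z
    rw [Ex_smul]
    have h5 := Ex_all p {y, z}
    simp only [Finset.mem_insert, Finset.mem_singleton, forall_eq_or_imp, forall_eq] at h5
    rw [h5]
    by_cases h : y = z
    · subst h
      simp
      positivity
    · rw [Finset.card_pair h, if_neg h]
      simp
  have h5 : ∀ y, ∑ z ∈ Y, (-(p * (if y = z then (1 : ℝ) else 0)) - p ^ 2) ≤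
      Ex (bp p) (fun ω : κ → Bool => ∑ z ∈ Y, (-1) *
        (if ω y = true ∧ ω z = true then (1 : ℝ) else 0)) := by
    intro y
    rw [Ex_sum]
    exact Finset.sum_le_sum fun z _ => h4 y z
  have h6 := Finset.sum_le_sum fun y (_ : y ∈ Y) => h5 y
  have h7 : ∑ y ∈ Y, ∑ z ∈ Y, (-(p * (if y = z then (1 : ℝ) else 0)) - p ^ 2) =
      -(p * Y.card) - p ^ 2 * Y.card ^ 2 := by
    have h8 : ∀ y ∈ Y, ∑ z ∈ Y, (-(p * (if y = z then (1 : ℝ) else 0)) - p ^ 2) =
        -p - p ^ 2 * Y.card := by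
      intro y hy
      rw [Finset.sum_sub_distrib, Finset.sum_neg_distrib, ← Finset.mul_sum, Finset.sum_ite_eq,
        if_pos hy, Finset.sum_const, nsmul_eq_mul]
      ring
    rw [Finset.sum_congr rfl h8, Finset.sum_const, nsmul_eq_mul]
    ring
  rw [h7] at h6
  simp only [h3]
  rw [Finset.sum_const, nsmul_eq_mul]
  nlinarith

lemma isolate_sum {Y : Finset κ} (hY : Y.Nonempty) {e : ℕ} (he : Y.card ≤ 2 ^ e) :
    3 / 16 ≤ ∑ i ∈ range (e + 2), Ex (bp ((1 / 2 : ℝ) ^ i)) (fun ω : κ → Bool =>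
      if (Y.filter fun y => ω y = true).card = 1 then (1 : ℝ) else 0) := by
  have hp : ∀ i : ℕ, 0 ≤ ((1 : ℝ) / 2) ^ i ∧ ((1 : ℝ) / 2) ^ i ≤ 1 := fun i =>
    ⟨by positivity, pow_le_one₀ (by norm_num) (by norm_num)⟩
  set c := Nat.clog 2 Y.card with hc
  have hce : c ≤ e := Nat.clog_le_of_le_pow he
  have h1 : Y.card ≤ 2 ^ c := Nat.le_pow_clog (by norm_num) _
  have hpos : 1 ≤ Y.card := Finset.card_pos.2 hY
  have h2 : 2 ^ c ≤ 2 * Y.card := by
    rcases Nat.lt_or_ge 1 Y.card with h3 | h3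
    · have h4 := Nat.pow_pred_clog_lt_self (b := 2) (by norm_num) h3
      rw [← hc] at h4
      have h5 : 1 ≤ c := by
        rw [Nat.one_le_iff_ne_zero]
        intro h0
        rw [h0] at h1
        simp at h1
        omega
      have h6 : 2 ^ c = 2 * 2 ^ c.pred := by
        rw [← pow_succ']
        congr 1
        exact (Nat.succ_pred_eq_of_pos h5).symm
      omega
    · have h4 : Y.card = 1 := by omega
      rw [hc, h4]
      simp
  have h3 := isolate (hp (c + 1)).1 (hp (c + 1)).2 Y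
  have h4 : 3 / 16 ≤ (1 / 2 : ℝ) ^ (c + 1) * Y.card - ((1 / 2 : ℝ) ^ (c + 1) * Y.card) ^ 2 := by
    set x := (1 / 2 : ℝ) ^ (c + 1) * Y.card with hx
    have h1' : (Y.card : ℝ) ≤ 2 ^ c := by exact_mod_cast h1
    have h2' : (2 : ℝ) ^ c ≤ 2 * Y.card := by exact_mod_cast h2
    have hcp : (0 : ℝ) < 2 ^ c := by positivity
    have e1 : x * 2 * 2 ^ c = Y.card := by
      rw [hx, pow_succ, one_div_pow]
      field_simp
    have hx1 : x ≤ 1 / 2 := by
      have : x * 2 * 2 ^ c ≤ 1 * 2 ^ c := by rw [e1, one_mul]; exact h1'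
      have := le_of_mul_le_mul_right this hcp
      linarith
    have hx2 : 1 / 4 ≤ x := by
      have : 1 * (2 : ℝ) ^ c ≤ (4 * x) * 2 ^ c := by
        rw [one_mul]
        calc (2 : ℝ) ^ c ≤ 2 * Y.card := h2'
          _ = 2 * (x * 2 * 2 ^ c) := by rw [e1]
          _ = _ := by ring
      have := le_of_mul_le_mul_right this hcp
      linarith
    nlinarith
  refine (h4.trans h3).trans ?_
  refine Finset.single_le_sum (f := fun i => Ex (bp ((1 / 2 : ℝ) ^ i)) (fun ω : κ → Bool =>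
      if (Y.filter fun y => ω y = true).card = 1 then (1 : ℝ) else 0)) (fun i _ => ?_)
    (Finset.mem_range.2 (by omega))
  exact Ex_nonneg (bp_nonneg (hp i).1 (hp i).2) fun ω => by split_ifs <;> norm_num

open Classical in
/-- One step of the greedy choice. -/
lemma greedy_step {X : Type} (B : Finset X) (μ : X → ℝ) (hμ : ∀ x, 0 ≤ μ x)
    (Y : X → Finset κ) {e : ℕ} (hY : ∀ x ∈ B, (Y x).Nonempty) (hYe : ∀ x ∈ B, (Y x).card ≤ 2 ^ e) :
    ∃ T : Finset κ, ∑ x ∈ B, (if (T ∩ Y x).card ≠ 1 then μ x else 0) ≤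
      (1 - 3 / (16 * (e + 2))) * ∑ x ∈ B, μ x := by
  have hp : ∀ i : ℕ, 0 ≤ ((1 : ℝ) / 2) ^ i ∧ ((1 : ℝ) / 2) ^ i ≤ 1 := fun i =>
    ⟨by positivity, pow_le_one₀ (by norm_num) (by norm_num)⟩
  set G : (κ → Bool) → ℝ := fun ω =>
    ∑ x ∈ B, μ x * (if ((Y x).filter fun y => ω y = true).card = 1 then (1 : ℝ) else 0) with hG
  obtain ⟨ω, hω⟩ := Finite.exists_max G
  have h1 : ∑ i ∈ range (e + 2), Ex (bp ((1 / 2 : ℝ) ^ i)) G ≤ (e + 2) * G ω := by
    calc ∑ i ∈ range (e + 2), Ex (bp ((1 / 2 : ℝ) ^ i)) G ≤ ∑ i ∈ range (e + 2), G ω := by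
          refine Finset.sum_le_sum fun i _ => ?_
          have := Ex_mono (w := bp ((1 / 2 : ℝ) ^ i)) (bp_nonneg (hp i).1 (hp i).2) hω
          rwa [Ex_const (bp_sum _)] at this
      _ = (e + 2) * G ω := by
          rw [Finset.sum_const, Finset.card_range, nsmul_eq_mul]; push_cast; ring
  have h2 : 3 / 16 * ∑ x ∈ B, μ x ≤ ∑ i ∈ range (e + 2), Ex (bp ((1 / 2 : ℝ) ^ i)) G := by
    have h3 : ∀ i, Ex (bp ((1 / 2 : ℝ) ^ i)) G = ∑ x ∈ B, μ x * Ex (bp ((1 / 2 : ℝ) ^ i))
        (fun ω : κ → Bool =>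
          if ((Y x).filter fun y => ω y = true).card = 1 then (1 : ℝ) else 0) := by
      intro i
      rw [hG, Ex_sum]
      exact Finset.sum_congr rfl fun x _ => Ex_smul _ _ _
    simp only [h3]
    rw [Finset.sum_comm, Finset.mul_sum]
    refine Finset.sum_le_sum fun x hx => ?_
    rw [← Finset.mul_sum, mul_comm]
    exact mul_le_mul_of_nonneg_left (isolate_sum (hY x hx) (hYe x hx)) (hμ x)
  refine ⟨univ.filter fun y => ω y = true, ?_⟩
  have h3 : ∑ x ∈ B, (if ((univ.filter fun y => ω y = true) ∩ Y x).card ≠ 1 then μ x else 0) =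
      ∑ x ∈ B, μ x - G ω := by
    rw [hG, ← Finset.sum_sub_distrib]
    refine Finset.sum_congr rfl fun x _ => ?_
    have e1 : (univ.filter fun y => ω y = true) ∩ Y x = (Y x).filter fun y => ω y = true := by
      ext y; simp [and_comm]
    rw [e1]
    by_cases h : ((Y x).filter fun y => ω y = true).card = 1
    · rw [if_neg (not_not.2 h), if_pos h]; ring
    · rw [if_pos h, if_neg h]; ring
  rw [h3]
  have he : (0 : ℝ) < e + 2 := by positivity
  have h4 : 3 / (16 * (e + 2)) * ∑ x ∈ B, μ x ≤ G ω := by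
    have h5 := h2.trans h1
    rw [div_mul_eq_mul_div, div_le_iff₀ (by positivity)]
    nlinarith
  linarith

open Classical in
/-- The greedy choice. -/
theorem greedy {X : Type} [Fintype X] (μ : X → ℝ) (hμ : ∀ x, 0 ≤ μ x)
    (Y : X → Finset κ) {e : ℕ} (hYe : ∀ x, (Y x).card ≤ 2 ^ e) (R : ℕ) :
    ∃ T : ℕ → Finset κ, ∑ x, (if (Y x).Nonempty ∧ ∀ k < R, (T k ∩ Y x).card ≠ 1 then μ x else 0) ≤
      (1 - 3 / (16 * (e + 2))) ^ R * ∑ x, μ x := by
  have hδ : (0 : ℝ) ≤ 1 - 3 / (16 * (e + 2)) := by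
    have he : (0 : ℝ) ≤ e := Nat.cast_nonneg e
    rw [sub_nonneg, div_le_one (by positivity)]
    linarith
  induction R with
  | zero =>
    refine ⟨fun _ => ∅, ?_⟩
    rw [pow_zero, one_mul]
    refine Finset.sum_le_sum fun x _ => ?_
    split_ifs
    · exact le_rfl
    · exact hμ x
  | succ R ih =>
    obtain ⟨T, hT⟩ := ih
    obtain ⟨T', hT'⟩ := greedy_step (e := e)
      (univ.filter fun x => (Y x).Nonempty ∧ ∀ k < R, (T k ∩ Y x).card ≠ 1) μ hμ Y
      (fun x hx => (Finset.mem_filter.1 hx).2.1) (fun x _ => hYe x)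
    refine ⟨fun k => if k = R then T' else T k, ?_⟩
    rw [Finset.sum_filter, Finset.sum_filter] at hT'
    have h1 : ∑ x, (if (Y x).Nonempty ∧ ∀ k < R + 1,
        ((if k = R then T' else T k) ∩ Y x).card ≠ 1 then μ x else 0) =
        ∑ x, if (Y x).Nonempty ∧ ∀ k < R, (T k ∩ Y x).card ≠ 1 then
          (if (T' ∩ Y x).card ≠ 1 then μ x else 0) else 0 := by
      refine Finset.sum_congr rfl fun x _ => ?_
      rw [← ite_and]
      refine if_congr ?_ rfl rfl
      constructor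
      · rintro ⟨h1, h2⟩
        refine ⟨⟨h1, fun k hk => ?_⟩, ?_⟩
        · have := h2 k (by omega)
          rwa [if_neg (by omega)] at this
        · have := h2 R (by omega)
          rwa [if_pos rfl] at this
      · rintro ⟨⟨h1, h2⟩, h3⟩
        refine ⟨h1, fun k hk => ?_⟩
        by_cases hkR : k = R
        · rw [if_pos hkR]; exact h3
        · rw [if_neg hkR]; exact h2 k (by omega)
    rw [h1]
    refine hT'.trans ?_
    rw [pow_succ', mul_assoc]
    exact mul_le_mul_of_nonneg_left hT hδ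

end Pool.Agent.Y603.BR
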