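import Pool.Agent.Y603.BR.Tail

/-!
# The Fourier tail of the nodes of a circuit
-/

set_option autoImplicit false

namespace Pool.Agent.Y603.BR

open Finset H568R2 Pool.Agent.TH163.AC3 Pool.Agent.Y603.MS

lemma Dt.imp {I : Type} [DecidableEq I] {Q Q' : Restr I → Prop} (hQ : ∀ ρ, Q ρ → Q' ρ) {t : ℕ}
    {ρ : Restr I} (h : Dt Q t ρ) : Dt Q' t ρ := by
  induction h with
  | leaf t ρ h => exact Dt.leaf _ _ (hQ _ h)
  | node t ρ i _ ih => exact Dt.node _ _ i ih

lemma hasDT_of_dt {I : Type} [DecidableEq I] {f : (I → Bool) → Bool} {ℓ t : ℕ} {ρ : Restr I}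
    (h : Dt (fun ρ' => HasDT ℓ (rs f ρ')) t ρ) : HasDT (t + ℓ) (rs f ρ) := by
  induction h with
  | leaf t ρ h => exact h.mono (by omega)
  | node t ρ i _ ih =>
    cases hρ : ρ i with
    | none =>
      obtain ⟨a, ha, hea⟩ := ih false
      obtain ⟨b, hb, heb⟩ := ih true
      refine ⟨TH163.AC3.Tree.node i a b, ?_, fun x => ?_⟩
      · unfold TH163.AC3.Tree.depth
        have := max_le ha hb
        omega
      · unfold TH163.AC3.Tree.eval
        by_cases hx : x i = true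
        · rw [if_pos hx, heb]
          unfold rs
          congr 1
          funext j
          unfold ov
          by_cases hj : j = i
          · subst hj; simp [hρ, hx]
          · simp [hj]
        · rw [if_neg hx, hea]
          unfold rs
          congr 1
          funext j
          unfold ov
          by_cases hj : j = i
          · subst hj; simp [hρ, hx]
          · simp [hj]
    | some c =>
      have := ih c
      rw [update_self' ρ i (some c) hρ] at this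
      exact this.mono (by omega)

variable {w n : ℕ}

/-- The level above which the nodes of a circuit have little Fourier mass. -/
def lvl (w ℓ d t : ℕ) : ℕ := 2 * (d * t + ℓ + 1) * (96 * (w * ℓ) * 2 ^ (d + 2)) ^ d

open Classical in
/-- **The Fourier tail of the nodes of a circuit.** -/
theorem node_tail (C : Circuit w n) (g : C.Node → (Fin n → Bool) → Bool) (hg : ∀ v, Shape C g v)
    {ℓ t d : ℕ} (hℓ : 1 ≤ ℓ) (hw : 1 ≤ w) (hs : Nat.card C.Node ≤ 2 ^ ℓ) (ht : 1 ≤ t) (v : C.Node)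
    (hv : C.depth v ≤ d) :
    ∑ S, (if lvl w ℓ d t ≤ S.card then H601R3.hat (ru (g v)) S ^ 2 else 0) ≤ (1 / 4) ^ t := by
  set Z : ℝ := 96 * (w * ℓ : ℕ) * 2 ^ (d + 2) with hZ
  have hwl : (1 : ℝ) ≤ (w * ℓ : ℕ) := by
    exact_mod_cast Nat.one_le_iff_ne_zero.2 (Nat.mul_ne_zero (by omega) (by omega))
  have h4 : (4 : ℝ) ≤ 2 ^ (d + 2) := by
    calc (4 : ℝ) = 2 ^ 2 := by norm_num
      _ ≤ 2 ^ (d + 2) := pow_le_pow_right₀ (by norm_num) (by omega)
  have hZ1 : 96 ≤ Z := by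
    rw [hZ]; nlinarith
  have hZ0 : 0 < Z := by linarith
  set q : ℝ := 1 / Z with hq
  have hq0 : 0 ≤ q := by positivity
  have hq3 : q ≤ 1 / 3 := by
    rw [hq]
    exact one_div_le_one_div_of_le (by norm_num) (by linarith)
  have hq96 : 96 * (w * ℓ : ℕ) * q = (1 / 2) ^ (d + 2) := by
    rw [hq, hZ, one_div_pow]
    field_simp
  have hq2 : 96 * (w * ℓ : ℕ) * q ≤ 1 / 2 := by
    rw [hq96]
    calc ((1 : ℝ) / 2) ^ (d + 2) ≤ (1 / 2) ^ 1 :=
          pow_le_pow_of_le_one (by norm_num) (by norm_num) (by omega)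
      _ = 1 / 2 := by norm_num
  have hL := levels C g hg hℓ hw hs hq0 hq3 hq2 ht d
  rw [hq96] at hL
  have hp0 : 0 ≤ q ^ d := pow_nonneg hq0 _
  have hp1 : q ^ d ≤ 1 := pow_le_one₀ hq0 (by linarith)
  have hT : (2 : ℝ) ^ (d * t + ℓ + 1) * (1 - q ^ d / 2) ^ (lvl w ℓ d t) ≤ 1 := by
    have h5 : (1 - q ^ d / 2) ^ (lvl w ℓ d t) ≤ Real.exp (-((d * t + ℓ + 1 : ℕ) : ℝ)) := by
      have h6 : 1 - q ^ d / 2 ≤ Real.exp (-(q ^ d / 2)) := by
        have := Real.add_one_le_exp (-(q ^ d / 2))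
        linarith
      refine (pow_le_pow_left₀ (by linarith) h6 _).trans (le_of_eq ?_)
      rw [← Real.exp_nat_mul]
      congr 1
      have h7 : ((lvl w ℓ d t : ℕ) : ℝ) = 2 * ((d * t + ℓ + 1 : ℕ) : ℝ) * Z ^ d := by
        unfold lvl
        rw [hZ]
        push_cast
        ring
      rw [h7, hq, one_div_pow]
      have : Z ^ d ≠ 0 := by positivity
      field_simp
    have h8 : (2 : ℝ) ^ (d * t + ℓ + 1) ≤ Real.exp ((d * t + ℓ + 1 : ℕ) : ℝ) := by
      have h9 : (2 : ℝ) ≤ Real.exp 1 := by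
        have := Real.add_one_le_exp (1 : ℝ)
        linarith
      calc (2 : ℝ) ^ (d * t + ℓ + 1) ≤ Real.exp 1 ^ (d * t + ℓ + 1) :=
            pow_le_pow_left₀ (by norm_num) h9 _
        _ = Real.exp ((d * t + ℓ + 1 : ℕ) : ℝ) := by
            rw [← Real.exp_nat_mul, mul_one]
    calc (2 : ℝ) ^ (d * t + ℓ + 1) * (1 - q ^ d / 2) ^ (lvl w ℓ d t)
        ≤ Real.exp ((d * t + ℓ + 1 : ℕ) : ℝ) * Real.exp (-((d * t + ℓ + 1 : ℕ) : ℝ)) :=
          mul_le_mul h8 h5 (pow_nonneg (by linarith) _) (Real.exp_pos _).le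
      _ = 1 := by rw [← Real.exp_add]; simp
  refine (tail hp0 hp1 hT (g v)).trans ?_
  have hmono : Ex (wq (q ^ d)) (fun ρ : Restr (Fin n) =>
      if ¬ HasDT (d * t + ℓ) (rs (g v) ρ) then (1 : ℝ) else 0) ≤
      Ex (wq (q ^ d)) (fun ρ : Restr (Fin n) => if ¬ Dt (fun ρ' => ∀ v, C.depth v ≤ d →
        HasDT ℓ (rs (g v) ρ')) (d * t) ρ then (1 : ℝ) else 0) := by
    refine Ex_mono (wq_nonneg hp0 hp1) fun ρ => ?_
    by_cases hd : Dt (fun ρ' => ∀ v, C.depth v ≤ d → HasDT ℓ (rs (g v) ρ')) (d * t) ρ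
    · have h10 : HasDT (d * t + ℓ) (rs (g v) ρ) :=
        hasDT_of_dt (Dt.imp (fun ρ' h => h v hv) hd)
      rw [if_neg (not_not.2 h10), if_neg (not_not.2 hd)]
    · rw [if_pos hd]
      split_ifs <;> norm_num
  have h11 := hmono.trans hL
  have h12 : 2 * ((2 : ℝ) ^ (d * t) * (2 * ((1 / 2) ^ (d + 2)) ^ (t + 1))) ≤ (1 / 4) ^ t := by
    have h13 : (2 : ℝ) ^ (d * t) * ((1 / 2) ^ (d + 2)) ^ (t + 1) =
        (1 / 2) ^ (2 * t + d + 2) := by
      rw [← pow_mul, show (d + 2) * (t + 1) = d * t + (2 * t + d + 2) by ring, pow_add,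
        ← mul_assoc, ← mul_pow]
      norm_num
    have h14 : ((1 : ℝ) / 2) ^ (2 * t + d + 2) ≤ (1 / 4) ^ t * (1 / 4) := by
      rw [show ((1 : ℝ) / 4) = (1 / 2) ^ 2 by norm_num, ← pow_mul, ← pow_add]
      exact pow_le_pow_of_le_one (by norm_num) (by norm_num) (by omega)
    have h15 : 0 ≤ ((1 : ℝ) / 4) ^ t := by positivity
    nlinarith
  linarith

end Pool.Agent.Y603.BR
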