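import Pool.Agent.Y603.BR.Iso
import Pool.Agent.Y603.BR.Deg
import Pool.Agent.Y603.BR.Node

/-!
# Approximation of circuits by polynomials (Razborov)
-/

set_option autoImplicit false

namespace Pool.Agent.Y603.BR

open Finset H568R2 Pool.Agent.Y603.MS

/-- Circuits whose leaves are functions of at most `w` input bits. -/
structure Ckt (w n : ℕ) where
  Node : Type
  [finite : Finite Node]
  val : Node → (Fin n → Bool) → Bool
  depth : Node → ℕ
  rule : ∀ v, (∃ A : Finset (Fin n), A.card ≤ w ∧
      ∀ x y, (∀ i ∈ A, x i = y i) → val v x = val v y) ∨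
    ∃ (c : Bool) (J : Finset (Node × Bool)), (∀ u ∈ J, depth u.1 < depth v) ∧
      ∀ x, (val v x = c ↔ ∃ u ∈ J, val u.1 x = u.2)

variable {w n : ℕ}

/-- The structure of the gates of a circuit. -/
structure Gates (C : Ckt w n) where
  g : C.Node → Bool
  c : C.Node → Bool
  J : C.Node → Finset (C.Node × Bool)
  J0 : ∀ v, g v = false → J v = ∅
  leaf : ∀ v, g v = false → ∃ A : Finset (Fin n), A.card ≤ w ∧
      ∀ x y, (∀ i ∈ A, x i = y i) → C.val v x = C.val v y
  lt : ∀ v, g v = true → ∀ u ∈ J v, C.depth u.1 < C.depth v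
  gate : ∀ v, g v = true → ∀ x, (C.val v x = c v ↔ ∃ u ∈ J v, C.val u.1 x = u.2)

lemma Ckt.gates (C : Ckt w n) : Nonempty (Gates C) := by
  have h : ∀ v, ∃ (g c : Bool) (J : Finset (C.Node × Bool)),
      (g = false → J = ∅) ∧
      (g = false → ∃ A : Finset (Fin n), A.card ≤ w ∧
        ∀ x y, (∀ i ∈ A, x i = y i) → C.val v x = C.val v y) ∧
      (g = true → ∀ u ∈ J, C.depth u.1 < C.depth v) ∧
      (g = true → ∀ x, (C.val v x = c ↔ ∃ u ∈ J, C.val u.1 x = u.2)) := by
    intro v
    rcases C.rule v with h | ⟨c, J, h1, h2⟩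
    · exact ⟨false, false, ∅, fun _ => rfl, fun _ => h, fun h => absurd h (by decide),
        fun h => absurd h (by decide)⟩
    · exact ⟨true, c, J, fun h => absurd h (by decide), fun h => absurd h (by decide),
        fun _ => h1, fun _ => h2⟩
  choose g c J h0 h1 h2 h3 using h
  exact ⟨⟨g, c, J, h0, h1, h2, h3⟩⟩

variable {C : Ckt w n}

/-- The true wires of a gate. -/
def tru (G : Gates C) (v : C.Node) (x : Fin n → Bool) : Finset (C.Node × Bool) :=
  (G.J v).filter fun u => C.val u.1 x = u.2

/-- The gate `v` is wrong on `x`. -/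
def Bad [DecidableEq C.Node] (G : Gates C) (T : C.Node → ℕ → Finset (C.Node × Bool)) (R : ℕ)
    (v : C.Node) (x : Fin n → Bool) : Prop :=
  G.g v = true ∧ (tru G v x).Nonempty ∧ ∀ k < R, (T v k ∩ tru G v x).card ≠ 1

open Classical in
/-- The choice of the sets for all the gates. -/
theorem choice (G : Gates C) {s : ℕ} (hs : Nat.card C.Node ≤ 2 ^ s) (μ : (Fin n → Bool) → ℝ)
    (hμ : ∀ x, 0 ≤ μ x) (R : ℕ) :
    ∃ T : C.Node → ℕ → Finset (C.Node × Bool), (∀ v k, T v k ⊆ G.J v) ∧
      ∀ v, ∑ x, (if Bad G T R v x then μ x else 0) ≤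
        (1 - 3 / (16 * ((s + 1 : ℕ) + 2))) ^ R * ∑ x, μ x := by
  have := C.finite
  let _ : Fintype C.Node := Fintype.ofFinite _
  have hc : ∀ A : Finset (C.Node × Bool), A.card ≤ 2 ^ (s + 1) := fun A => by
    refine (Finset.card_le_univ A).trans ?_
    rw [Fintype.card_prod, Fintype.card_bool, pow_succ, ← Nat.card_eq_fintype_card]
    exact Nat.mul_le_mul_right _ hs
  have h := fun v => greedy μ hμ (fun x => tru G v x) (fun x => hc _) R
  choose T hT using h
  refine ⟨fun v k => T v k ∩ G.J v, fun v k => Finset.inter_subset_right, fun v => ?_⟩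
  refine le_trans (Finset.sum_le_sum fun x _ => ?_) (hT v)
  by_cases hb : Bad G (fun v k => T v k ∩ G.J v) R v x
  · rw [if_pos hb, if_pos]
    refine ⟨hb.2.1, fun k hk => ?_⟩
    have h2 := hb.2.2 k hk
    have e : T v k ∩ G.J v ∩ tru G v x = T v k ∩ tru G v x := by
      rw [Finset.inter_assoc]
      congr 1
      exact Finset.inter_eq_right.2 (Finset.filter_subset _ _)
    rwa [e] at h2
  · rw [if_neg hb]
    split_ifs
    · exact hμ x
    · exact le_rfl

/-- The value of a wire, from the values of the nodes. -/
noncomputable def wire {V : Type} (P : V → ℝ) (u : V × Bool) : ℝ :=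
  if u.2 = true then P u.1 else 1 - P u.1

/-- The polynomials of a circuit. -/
structure Poly (G : Gates C) (T : C.Node → ℕ → Finset (C.Node × Bool)) (R : ℕ)
    (P : C.Node → (Fin n → Bool) → ℝ) : Prop where
  leaf : ∀ v, G.g v = false → P v = ru (C.val v)
  orr : ∀ v, G.g v = true → G.c v = true → ∀ x,
    P v x = 1 - ∏ k ∈ range R, (1 - ∑ u ∈ T v k, wire (fun a => P a x) u)
  andd : ∀ v, G.g v = true → G.c v = false → ∀ x,
    P v x = ∏ k ∈ range R, (1 - ∑ u ∈ T v k, wire (fun a => P a x) u)

lemma exists_poly (G : Gates C) (T : C.Node → ℕ → Finset (C.Node × Bool))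
    (hT : ∀ v k, T v k ⊆ G.J v) (R : ℕ) : ∃ P, Poly G T R P := by
  obtain ⟨P, hP⟩ := exists_rec C.depth (fun v (Q : C.Node → (Fin n → Bool) → ℝ) x =>
    if G.g v = true then
      (if G.c v = true then 1 - ∏ k ∈ range R, (1 - ∑ u ∈ T v k, wire (fun a => Q a x) u)
        else ∏ k ∈ range R, (1 - ∑ u ∈ T v k, wire (fun a => Q a x) u))
      else ru (C.val v) x) (fun _ => 0)
  have key : ∀ v, G.g v = true → ∀ x, ∏ k ∈ range R, (1 - ∑ u ∈ T v k,
      wire (fun a => (if C.depth a < C.depth v then P a else fun _ => 0) x) u) =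
      ∏ k ∈ range R, (1 - ∑ u ∈ T v k, wire (fun a => P a x) u) := by
    intro v hv x
    refine Finset.prod_congr rfl fun k _ => ?_
    congr 1
    refine Finset.sum_congr rfl fun u hu => ?_
    unfold wire
    simp only [if_pos (G.lt v hv u (hT v k hu))]
  refine ⟨P, ⟨fun v hv => ?_, fun v hv hc x => ?_, fun v hv hc x => ?_⟩⟩
  · rw [hP v]
    funext x
    rw [hv]
    simp
  · rw [hP v]
    simp only [hv, hc, if_true]
    rw [key v hv x]
  · rw [hP v]
    simp only [hv, hc, if_true]
    rw [key v hv x]
    simp

/-- The degrees. -/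
lemma poly_deg {G : Gates C} {T : C.Node → ℕ → Finset (C.Node × Bool)}
    (hT : ∀ v k, T v k ⊆ G.J v) {R : ℕ} (hR : 1 ≤ R) {P : C.Node → (Fin n → Bool) → ℝ}
    (hP : Poly G T R P) (v : C.Node) : Deg (w * R ^ C.depth v) (P v) := by
  induction hd : C.depth v using Nat.strong_induction_on generalizing v with
  | _ d ih =>
    cases hg : G.g v with
    | false =>
      rw [hP.leaf v hg]
      obtain ⟨A, hA, h⟩ := G.leaf v hg
      refine (Deg.of_jun ⟨A, hA, fun x y hxy => ?_⟩).mono
        (Nat.le_mul_of_pos_right _ (pow_pos (by omega) _))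
      unfold ru
      rw [h x y hxy]
    | true =>
      have hprod : Deg (w * R ^ d) (fun x => ∏ k ∈ range R,
          (1 - ∑ u ∈ T v k, wire (fun a => P a x) u)) := by
        rcases Nat.eq_zero_or_pos d with h0 | h0
        · have hJ : ∀ k, T v k = ∅ := fun k => by
            rw [Finset.eq_empty_iff_forall_notMem]
            intro u hu
            have := G.lt v hg u (hT v k hu)
            omega
          simp only [hJ, Finset.sum_empty, sub_zero, Finset.prod_const_one]
          exact Deg.const _ _
        · obtain ⟨e, rfl⟩ : ∃ e, d = e + 1 := ⟨d - 1, by omega⟩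
          have h1 : Deg ((range R).card * (w * R ^ e)) (fun x => ∏ k ∈ range R,
              (1 - ∑ u ∈ T v k, wire (fun a => P a x) u)) := by
            refine Deg.prod _ fun k _ => ?_
            refine (Deg.const _ 1).sub (Deg.sum _ fun u hu => ?_)
            have h2 := G.lt v hg u (hT v k hu)
            have h3 : Deg (w * R ^ e) (P u.1) :=
              (ih _ (by omega) u.1 rfl).mono
                (Nat.mul_le_mul_left _ (Nat.pow_le_pow_right hR (by omega)))
            unfold wire
            by_cases hu2 : u.2 = true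
            · simp only [if_pos hu2]; exact h3
            · simp only [if_neg hu2]; exact (Deg.const _ 1).sub h3
          refine h1.mono (le_of_eq ?_)
          rw [Finset.card_range, pow_succ]; ring
      cases hc : G.c v with
      | true =>
        have : P v = fun x => 1 - ∏ k ∈ range R,
            (1 - ∑ u ∈ T v k, wire (fun a => P a x) u) := funext (hP.orr v hg hc)
        rw [this]
        exact (Deg.const _ 1).sub hprod
      | false =>
        have : P v = fun x => ∏ k ∈ range R,
            (1 - ∑ u ∈ T v k, wire (fun a => P a x) u) := funext (hP.andd v hg hc)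
        rw [this]
        exact hprod

/-- The exponents of the bounds. -/
def bb (s R j : ℕ) : ℕ := (s + 4) * (R + 1) ^ (j + 1)

lemma bb_mono (s R : ℕ) {i j : ℕ} (h : i ≤ j) : bb s R i ≤ bb s R j :=
  Nat.mul_le_mul_left _ (Nat.pow_le_pow_right (by omega) (by omega))

lemma bb_succ (s R j : ℕ) : 1 + R * (s + 3 + bb s R j) ≤ bb s R (j + 1) := by
  unfold bb
  have h1 : R + 1 ≤ (R + 1) ^ (j + 1) := Nat.le_self_pow (by omega) _
  have h2 : (R + 1) ^ (j + 1 + 1) = (R + 1) ^ (j + 1) * (R + 1) := pow_succ _ _
  rw [h2]
  have h3 : (s + 4) * (R + 1) ≤ (s + 4) * (R + 1) ^ (j + 1) := Nat.mul_le_mul_left _ h1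
  nlinarith

/-- The bounds. -/
lemma poly_bd {G : Gates C} {T : C.Node → ℕ → Finset (C.Node × Bool)}
    (hT : ∀ v k, T v k ⊆ G.J v) {s : ℕ} (hs : Nat.card C.Node ≤ 2 ^ s) {R : ℕ}
    {P : C.Node → (Fin n → Bool) → ℝ} (hP : Poly G T R P) (v : C.Node) (x : Fin n → Bool) :
    |P v x| ≤ 2 ^ bb s R (C.depth v) := by
  have hfin := C.finite
  let _ : Fintype C.Node := Fintype.ofFinite _
  have hc : ∀ A : Finset (C.Node × Bool), (A.card : ℝ) ≤ 2 ^ (s + 1) := fun A => by
    have h1 : A.card ≤ 2 ^ (s + 1) := by
      refine (Finset.card_le_univ A).trans ?_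
      rw [Fintype.card_prod, Fintype.card_bool, pow_succ, ← Nat.card_eq_fintype_card]
      exact Nat.mul_le_mul_right _ hs
    exact_mod_cast h1
  induction hd : C.depth v using Nat.strong_induction_on generalizing v with
  | _ d ih =>
    have hone : (1 : ℝ) ≤ 2 ^ bb s R d := one_le_pow₀ (by norm_num)
    cases hg : G.g v with
    | false =>
      rw [hP.leaf v hg, abs_of_nonneg (ru_nonneg _ _)]
      exact (ru_le_one _ _).trans hone
    | true =>
      have hprod : |∏ k ∈ range R, (1 - ∑ u ∈ T v k, wire (fun a => P a x) u)| ≤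
          2 ^ (bb s R d - 1) := by
        rcases Nat.eq_zero_or_pos d with h0 | h0
        · have hJ : ∀ k, T v k = ∅ := fun k => by
            rw [Finset.eq_empty_iff_forall_notMem]
            intro u hu
            have := G.lt v hg u (hT v k hu)
            omega
          simp only [hJ, Finset.sum_empty, sub_zero, Finset.prod_const_one, abs_one]
          exact one_le_pow₀ (by norm_num)
        · obtain ⟨e, rfl⟩ : ∃ e, d = e + 1 := ⟨d - 1, by omega⟩
          rw [Finset.abs_prod]
          have h1 : ∀ k ∈ range R, |1 - ∑ u ∈ T v k, wire (fun a => P a x) u| ≤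
              2 ^ (s + 3 + bb s R e) := by
            intro k _
            have h2 : ∀ u ∈ T v k, |wire (fun a => P a x) u| ≤ 2 * 2 ^ bb s R e := by
              intro u hu
              have h3 := G.lt v hg u (hT v k hu)
              have h4 : |P u.1 x| ≤ 2 ^ bb s R e :=
                (ih _ (by omega) u.1 rfl).trans
                  (pow_le_pow_right₀ (by norm_num) (bb_mono s R (by omega)))
              have h5 : (1 : ℝ) ≤ 2 ^ bb s R e := one_le_pow₀ (by norm_num)
              unfold wire
              by_cases hu2 : u.2 = true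
              · rw [if_pos hu2]; linarith
              · rw [if_neg hu2]
                have h6 : |1 - P u.1 x| ≤ |(1 : ℝ)| + |P u.1 x| := abs_sub _ _
                rw [abs_one] at h6
                linarith
            have h3 : |∑ u ∈ T v k, wire (fun a => P a x) u| ≤
                2 ^ (s + 1) * (2 * 2 ^ bb s R e) := by
              refine (Finset.abs_sum_le_sum_abs _ _).trans ?_
              refine (Finset.sum_le_card_nsmul _ _ _ h2).trans ?_
              rw [nsmul_eq_mul]
              exact mul_le_mul_of_nonneg_right (hc _) (by positivity)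
            have h4 : |1 - ∑ u ∈ T v k, wire (fun a => P a x) u| ≤
                |(1 : ℝ)| + |∑ u ∈ T v k, wire (fun a => P a x) u| := abs_sub _ _
            rw [abs_one] at h4
            have h5 : (1 : ℝ) ≤ 2 ^ (s + 1) * (2 * 2 ^ bb s R e) := by
              have h6 : (1 : ℝ) ≤ 2 ^ (s + 1) := one_le_pow₀ (by norm_num)
              have h7 : (1 : ℝ) ≤ 2 ^ bb s R e := one_le_pow₀ (by norm_num)
              nlinarith
            have h6 : (2 : ℝ) ^ (s + 3 + bb s R e) = 2 * (2 ^ (s + 1) * (2 * 2 ^ bb s R e)) := by
              rw [show s + 3 + bb s R e = 1 + (s + 1) + 1 + bb s R e by ring, pow_add, pow_add,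
                pow_add]
              ring
            rw [h6]
            linarith
          calc ∏ k ∈ range R, |1 - ∑ u ∈ T v k, wire (fun a => P a x) u|
              ≤ ∏ _k ∈ range R, (2 : ℝ) ^ (s + 3 + bb s R e) :=
                Finset.prod_le_prod (fun _ _ => abs_nonneg _) h1
            _ = 2 ^ (R * (s + 3 + bb s R e)) := by
                rw [Finset.prod_const, Finset.card_range, ← pow_mul, mul_comm]
            _ ≤ 2 ^ (bb s R (e + 1) - 1) := by
                refine pow_le_pow_right₀ (by norm_num) ?_
                have := bb_succ s R e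
                omega
      have hbd : (2 : ℝ) ^ bb s R d = 2 * 2 ^ (bb s R d - 1) := by
        rw [← pow_succ']
        congr 1
        have : 1 ≤ bb s R d := by
          unfold bb
          exact Nat.one_le_iff_ne_zero.2 (Nat.mul_ne_zero (by omega) (pow_ne_zero _ (by omega)))
        omega
      have hone' : (1 : ℝ) ≤ 2 ^ (bb s R d - 1) := one_le_pow₀ (by norm_num)
      cases hc : G.c v with
      | true =>
        rw [hP.orr v hg hc, hbd]
        have h6 : |1 - ∏ k ∈ range R, (1 - ∑ u ∈ T v k, wire (fun a => P a x) u)| ≤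
          |(1 : ℝ)| + |∏ k ∈ range R, (1 - ∑ u ∈ T v k, wire (fun a => P a x) u)| := abs_sub _ _
        rw [abs_one] at h6
        linarith
      | false =>
        rw [hP.andd v hg hc, hbd]
        linarith

/-- The polynomials are correct unless a gate is wrong. -/
lemma poly_eq [DecidableEq C.Node] {G : Gates C} {T : C.Node → ℕ → Finset (C.Node × Bool)}
    (hT : ∀ v k, T v k ⊆ G.J v) {R : ℕ} {P : C.Node → (Fin n → Bool) → ℝ} (hP : Poly G T R P)
    {x : Fin n → Bool} (hx : ∀ v, ¬ Bad G T R v x) (v : C.Node) : P v x = ru (C.val v) x := by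
  induction hd : C.depth v using Nat.strong_induction_on generalizing v with
  | _ d ih =>
    cases hg : G.g v with
    | false => rw [hP.leaf v hg]
    | true =>
      have hsum : ∀ k, ∑ u ∈ T v k, wire (fun a => P a x) u = ((T v k ∩ tru G v x).card : ℝ) := by
        intro k
        have h1 : T v k ∩ tru G v x = (T v k).filter fun u => C.val u.1 x = u.2 := by
          ext u
          simp only [tru, Finset.mem_inter, Finset.mem_filter]
          constructor
          · rintro ⟨h1, h2, h3⟩; exact ⟨h1, h3⟩
          · rintro ⟨h1, h2⟩; exact ⟨h1, hT v k h1, h2⟩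
        rw [h1, ← Finset.sum_boole]
        refine Finset.sum_congr rfl fun u hu => ?_
        have h2 := ih _ (by rw [← hd]; exact G.lt v hg u (hT v k hu)) u.1 rfl
        unfold wire
        simp only [h2]
        unfold ru
        cases hu2 : u.2 <;> cases hval : C.val u.1 x <;> simp
      have hprod : ∏ k ∈ range R, (1 - ∑ u ∈ T v k, wire (fun a => P a x) u) =
          if (∃ u ∈ G.J v, C.val u.1 x = u.2) then 0 else 1 := by
        by_cases hne : ∃ u ∈ G.J v, C.val u.1 x = u.2
        · rw [if_pos hne]
          have hne' : (tru G v x).Nonempty := by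
            obtain ⟨u, hu, hux⟩ := hne
            exact ⟨u, Finset.mem_filter.2 ⟨hu, hux⟩⟩
          have h2 := hx v
          unfold Bad at h2
          push Not at h2
          obtain ⟨k, hk, hk1⟩ := h2 hg hne'
          refine Finset.prod_eq_zero (Finset.mem_range.2 hk) ?_
          rw [hsum, hk1]
          norm_num
        · rw [if_neg hne]
          refine Finset.prod_eq_one fun k _ => ?_
          have h2 : tru G v x = ∅ := by
            rw [Finset.eq_empty_iff_forall_notMem]
            intro u hu
            exact hne ⟨u, (Finset.mem_filter.1 hu).1, (Finset.mem_filter.1 hu).2⟩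
          rw [hsum, h2]
          simp
      have hgt := G.gate v hg x
      cases hc : G.c v with
      | true =>
        rw [hP.orr v hg hc, hprod]
        rw [hc] at hgt
        unfold ru
        by_cases hne : ∃ u ∈ G.J v, C.val u.1 x = u.2
        · rw [if_pos hne, if_pos (hgt.2 hne)]; norm_num
        · rw [if_neg hne, if_neg (fun h => hne (hgt.1 h))]; norm_num
      | false =>
        rw [hP.andd v hg hc, hprod]
        rw [hc] at hgt
        unfold ru
        by_cases hne : ∃ u ∈ G.J v, C.val u.1 x = u.2
        · rw [if_pos hne, if_neg]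
          rw [hgt.2 hne]
          decide
        · rw [if_neg hne, if_pos]
          by_contra h
          exact hne (hgt.1 (by simpa using h))

end Pool.Agent.Y603.BR
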