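import Pool.Agent.H601R3.Walsh
import Pool.Agent.Y603.MS.Level

/-!
# The Fourier tail of functions which are simplified by random restrictions
(Linial, Mansour, Nisan)
-/

set_option autoImplicit false

namespace Pool.Agent.Y603.BR

open Finset H568R2 Pool.Agent.TH163.AC3 Pool.Agent.Y603.MS

variable {I : Type} [Fintype I] [DecidableEq I]

/-- The real function of a Boolean function. -/
def ru (f : (I → Bool) → Bool) (x : I → Bool) : ℝ := if f x = true then 1 else 0

omit [Fintype I] [DecidableEq I] in
lemma ru_nonneg (f : (I → Bool) → Bool) (x : I → Bool) : 0 ≤ ru f x := by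
  unfold ru; split_ifs <;> norm_num

omit [Fintype I] [DecidableEq I] in
lemma ru_le_one (f : (I → Bool) → Bool) (x : I → Bool) : ru f x ≤ 1 := by
  unfold ru; split_ifs <;> norm_num

lemma chi_flip {T : Finset I} {i : I} (hi : i ∈ T) (x : I → Bool) :
    H601R3.chi T (Function.update x i (!x i)) = - H601R3.chi T x := by
  unfold H601R3.chi
  rw [← Finset.mul_prod_erase T _ hi, ← Finset.mul_prod_erase T (fun i => H601R3.sg (x i)) hi,
    Function.update_self, H601R3.sg_not, neg_mul]
  congr 2
  refine Finset.prod_congr rfl fun j hj => ?_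
  rw [Function.update_of_ne (Finset.ne_of_mem_erase hj)]

/-- The Fourier coefficients above the depth of a decision tree vanish. -/
lemma hat_dt {K : ℕ} {f : (I → Bool) → Bool} (h : HasDT K f) {T : Finset I} (hT : K < T.card) :
    H601R3.hat (ru f) T = 0 := by
  classical
  obtain ⟨t, ht, he⟩ := h
  have hne : ∀ x, (T \ t.reads x).Nonempty := fun x => by
    rw [← Finset.card_pos]
    have h1 := Finset.le_card_sdiff (t.reads x) T
    have h2 := t.card_reads x
    omega
  let pick : Finset I → I := fun R =>
    if h : (T \ R).Nonempty then h.choose else (hne fun _ => false).choose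
  have hpick : ∀ x, pick (t.reads x) ∈ T \ t.reads x := fun x => by
    show (if h : (T \ t.reads x).Nonempty then h.choose else _) ∈ _
    rw [dif_pos (hne x)]
    exact (hne x).choose_spec
  have hsame : ∀ x, t.reads (Function.update x (pick (t.reads x)) (!x (pick (t.reads x)))) =
      t.reads x ∧ t.eval (Function.update x (pick (t.reads x)) (!x (pick (t.reads x)))) =
      t.eval x := fun x => by
    have h1 := t.congr x (Function.update x (pick (t.reads x)) (!x (pick (t.reads x)))) (by
      intro j hj
      rw [Function.update_of_ne]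
      rintro rfl
      exact (Finset.mem_sdiff.1 (hpick x)).2 hj)
    exact ⟨h1.2, h1.1⟩
  unfold H601R3.hat
  have hz : ∑ ε : I → Bool, H601R3.chi T ε • ru f ε = 0 := by
    refine Finset.sum_involution
      (fun x _ => Function.update x (pick (t.reads x)) (!x (pick (t.reads x)))) ?_ ?_ ?_ ?_
    · intro x _
      have h1 : ru f (Function.update x (pick (t.reads x)) (!x (pick (t.reads x)))) = ru f x := by
        unfold ru
        rw [← he, ← he, (hsame x).2]
      rw [h1, chi_flip (Finset.mem_sdiff.1 (hpick x)).1, smul_eq_mul, smul_eq_mul]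
      ring
    · intro x _ _ h2
      have h3 := congrFun h2 (pick (t.reads x))
      rw [Function.update_self] at h3
      cases hx : x (pick (t.reads x)) <;> rw [hx] at h3 <;> simp at h3
    · intro x _
      exact Finset.mem_univ _
    · intro x _
      show Function.update _ (pick (t.reads _)) _ = x
      rw [(hsame x).1]
      funext j
      by_cases hj : j = pick (t.reads x)
      · subst hj; simp
      · simp [Function.update_of_ne hj]
  rw [hz, smul_zero]

/-- The point which is `y` on `L` and `z` elsewhere. -/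
def mix (L : Finset I) (y z : I → Bool) : I → Bool := fun i => if i ∈ L then y i else z i

lemma chi_mix (L S : Finset I) (y z : I → Bool) :
    H601R3.chi S (mix L y z) = H601R3.chi (S ∩ L) y * H601R3.chi (S \ L) z := by
  unfold H601R3.chi
  rw [← Finset.prod_inter_mul_prod_sdiff S L]
  congr 1
  · refine Finset.prod_congr rfl fun i hi => ?_
    unfold mix
    rw [if_pos (Finset.mem_inter.1 hi).2]
  · refine Finset.prod_congr rfl fun i hi => ?_
    unfold mix
    rw [if_neg (Finset.mem_sdiff.1 hi).2]

/-- exchanging the coordinates outside `L` -/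
def swapE (L : Finset I) : ((I → Bool) × (I → Bool)) ≃ ((I → Bool) × (I → Bool)) where
  toFun p := (mix L p.1 p.2, mix L p.2 p.1)
  invFun p := (mix L p.1 p.2, mix L p.2 p.1)
  left_inv p := by
    refine Prod.ext (funext fun i => ?_) (funext fun i => ?_) <;>
    · simp only [mix]
      split_ifs <;> rfl
  right_inv p := by
    refine Prod.ext (funext fun i => ?_) (funext fun i => ?_) <;>
    · simp only [mix]
      split_ifs <;> rfl

lemma avg_mix (L : Finset I) (G : (I → Bool) → ℝ) :
    H601R3.Ex (fun z => H601R3.Ex fun y => G (mix L y z)) = H601R3.Ex G := by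
  unfold H601R3.Ex
  rw [← Finset.mul_sum, Finset.sum_comm]
  have h1 : ∑ y : I → Bool, ∑ z : I → Bool, G (mix L y z) = H601R3.cn I * ∑ x, G x := by
    rw [← Fintype.sum_prod_type' (f := fun y z => G (mix L y z)),
      ← (swapE L).sum_comp (fun p : (I → Bool) × (I → Bool) => G (mix L p.1 p.2))]
    have h2 : ∀ p : (I → Bool) × (I → Bool), G (mix L (swapE L p).1 (swapE L p).2) = G p.1 := by
      intro p
      congr 1
      funext i
      simp only [swapE, Equiv.coe_fn_mk, mix]
      split_ifs <;> rfl
    rw [Finset.sum_congr rfl fun p _ => h2 p, Fintype.sum_prod_type]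
    simp only [Finset.sum_const, Finset.card_univ, nsmul_eq_mul]
    rw [← Finset.mul_sum]
    congr 1
    unfold H601R3.cn
    simp
  rw [h1]
  have := H601R3.cn_ne (I := I)
  field_simp

lemma hat_sum_inter (L T : Finset I) (a : Finset I → ℝ) :
    H601R3.hat (fun y : I → Bool => ∑ S, a S * H601R3.chi (S ∩ L) y) T =
      ∑ S, if S ∩ L = T then a S else 0 := by
  unfold H601R3.hat
  simp only [smul_eq_mul]
  have h1 : ∀ y : I → Bool, H601R3.chi T y * ∑ S, a S * H601R3.chi (S ∩ L) y =
      ∑ S, a S * (H601R3.chi (S ∩ L) y * H601R3.chi T y) := by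
    intro y
    rw [Finset.mul_sum]
    exact Finset.sum_congr rfl fun S _ => by ring
  rw [Finset.sum_congr rfl fun y _ => h1 y, Finset.sum_comm, Finset.mul_sum]
  refine Finset.sum_congr rfl fun S _ => ?_
  rw [← Finset.mul_sum, H601R3.chi_orth]
  have := H601R3.cn_ne (I := I)
  split_ifs
  · field_simp
  · simp

/-- The high frequencies inside `L`. -/
noncomputable def hi (L : Finset I) (K : ℕ) (f : (I → Bool) → ℝ) : (I → Bool) → ℝ :=
  H601R3.mult (fun S => if K < (S ∩ L).card then 1 else 0) f

lemma mix_expand (L : Finset I) (c : Finset I → ℝ) (f : (I → Bool) → ℝ) (y z : I → Bool) :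
    H601R3.mult c f (mix L y z) =
      ∑ S, (c S * H601R3.hat f S * H601R3.chi (S \ L) z) * H601R3.chi (S ∩ L) y := by
  unfold H601R3.mult
  refine Finset.sum_congr rfl fun S _ => ?_
  rw [chi_mix, smul_eq_mul]
  ring

lemma hat_hi (L : Finset I) (K : ℕ) (f : (I → Bool) → ℝ) (z : I → Bool) (T : Finset I) :
    H601R3.hat (fun y => hi L K f (mix L y z)) T =
      if K < T.card then H601R3.hat (fun y => f (mix L y z)) T else 0 := by
  have h1 : (fun y => hi L K f (mix L y z)) = fun y => ∑ S,
      ((if K < (S ∩ L).card then 1 else 0) * H601R3.hat f S * H601R3.chi (S \ L) z) *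
        H601R3.chi (S ∩ L) y := by
    funext y
    unfold hi
    exact mix_expand L _ f y z
  have h2 : (fun y => f (mix L y z)) = fun y => ∑ S,
      (1 * H601R3.hat f S * H601R3.chi (S \ L) z) * H601R3.chi (S ∩ L) y := by
    funext y
    rw [← mix_expand L (fun _ => 1) f y z, H601R3.mult_one]
  rw [h1, h2, hat_sum_inter, hat_sum_inter]
  by_cases hT : K < T.card
  · rw [if_pos hT]
    refine Finset.sum_congr rfl fun S _ => ?_
    by_cases hS : S ∩ L = T
    · rw [if_pos hS, if_pos hS, hS, if_pos hT]
    · rw [if_neg hS, if_neg hS]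
  · rw [if_neg hT]
    refine Finset.sum_eq_zero fun S _ => ?_
    by_cases hS : S ∩ L = T
    · rw [if_pos hS, hS, if_neg hT]; ring
    · rw [if_neg hS]

lemma pars (f : (I → Bool) → ℝ) : H601R3.Ex (fun x => f x ^ 2) = ∑ S, H601R3.hat f S ^ 2 := by
  have h1 := H601R3.parseval f
  simp only [Real.norm_eq_abs, sq_abs] at h1
  unfold H601R3.Ex
  rw [h1]
  have := H601R3.cn_ne (I := I)
  field_simp

open Classical in
/-- The high frequencies inside a set, against the restrictions outside the set. -/
lemma tail_set (L : Finset I) (K : ℕ) (f : (I → Bool) → Bool) :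
    ∑ S, (if K < (S ∩ L).card then H601R3.hat (ru f) S ^ 2 else 0) ≤
      H601R3.Ex (fun z => if ¬ HasDT K (fun y => f (mix L y z)) then (1 : ℝ) else 0) := by
  have h1 : ∑ S, (if K < (S ∩ L).card then H601R3.hat (ru f) S ^ 2 else 0) =
      H601R3.Ex (fun x => hi L K (ru f) x ^ 2) := by
    rw [pars]
    refine Finset.sum_congr rfl fun S _ => ?_
    unfold hi
    rw [H601R3.hat_mult]
    split_ifs <;> simp
  rw [h1, ← avg_mix L]
  refine H601R3.Ex_mono fun z => ?_
  rw [pars (fun y => hi L K (ru f) (mix L y z))]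
  simp only [hat_hi]
  have h2 : (fun y => ru f (mix L y z)) = ru fun y => f (mix L y z) := rfl
  rw [h2]
  by_cases hd : HasDT K (fun y => f (mix L y z))
  · rw [if_neg (not_not.2 hd)]
    refine le_of_eq (Finset.sum_eq_zero fun T _ => ?_)
    split_ifs with hT
    · rw [hat_dt hd hT]; norm_num
    · norm_num
  · rw [if_pos hd]
    calc ∑ T, (if K < T.card then H601R3.hat (ru fun y => f (mix L y z)) T else 0) ^ 2
        ≤ ∑ T, H601R3.hat (ru fun y => f (mix L y z)) T ^ 2 := by
          refine Finset.sum_le_sum fun T _ => ?_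
          split_ifs
          · exact le_rfl
          · rw [zero_pow two_ne_zero]; exact sq_nonneg _
      _ = H601R3.Ex (fun x => ru (fun y => f (mix L y z)) x ^ 2) := (pars _).symm
      _ ≤ H601R3.Ex (fun _ : I → Bool => (1 : ℝ)) := by
          refine H601R3.Ex_mono fun x => ?_
          have h3 := ru_nonneg (fun y => f (mix L y z)) x
          have h4 := ru_le_one (fun y => f (mix L y z)) x
          nlinarith
      _ = 1 := H601R3.Ex_const 1

/-- Bernoulli weight -/
noncomputable def bp (p : ℝ) : Bool → ℝ
  | true => p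
  | false => 1 - p

lemma bp_nonneg {p : ℝ} (h0 : 0 ≤ p) (h1 : p ≤ 1) (a : Bool) : 0 ≤ bp p a := by
  cases a <;> unfold bp <;> linarith

lemma bp_sum (p : ℝ) : ∑ a, bp p a = 1 := by
  rw [Fintype.sum_bool]; unfold bp; ring

/-- The set of live variables. -/
def live (l : I → Bool) : Finset I := univ.filter fun i => l i = true

lemma Ex_half (G : (I → Bool) → ℝ) : Ex (fun _ : Bool => (1 : ℝ) / 2) G = H601R3.Ex G := by
  unfold Ex H601R3.Ex H601R3.cn
  rw [Finset.mul_sum]
  refine Finset.sum_congr rfl fun x _ => ?_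
  rw [Finset.prod_const, Finset.card_univ, one_div, inv_pow]

lemma wq_two {p : ℝ} (G : Restr I → ℝ) :
    Ex (wq p) G = Ex (bp p) (fun l => H601R3.Ex fun z =>
      G fun i => if l i = true then none else some (z i)) := by
  have h1 := Ex_push (I := I) (fun c : Bool × Bool => if c.1 = true then none else some c.2)
    (fun c => bp p c.1 * (1 / 2)) (wq p) (by
      intro o
      rcases o with _ | b
      · have : (univ.filter fun a : Bool × Bool => (if a.1 = true then none else some a.2) = none) =
            {(true, true), (true, false)} := by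
          ext ⟨a, b⟩
          cases a <;> cases b <;> simp
        rw [this, Finset.sum_pair (by simp)]
        unfold wq bp
        ring
      · have : (univ.filter fun a : Bool × Bool =>
            (if a.1 = true then none else some a.2) = some b) = {(false, b)} := by
          ext ⟨a, c⟩
          cases a <;> cases c <;> cases b <;> simp
        rw [this, Finset.sum_singleton]
        unfold wq bp
        ring) G
  rw [← h1]
  have h2 := Ex_prod (I := I) (bp p) (fun _ : Bool => (1 : ℝ) / 2)
    (fun ω => G fun i => if (ω i).1 = true then none else some (ω i).2)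
  rw [h2]
  congr 1
  funext l
  rw [Ex_half]

lemma rs_mix (f : (I → Bool) → Bool) (l z : I → Bool) :
    rs f (fun i => if l i = true then none else some (z i)) = fun y => f (mix (live l) y z) := by
  funext y
  unfold rs
  congr 1
  funext i
  unfold ov mix live
  by_cases h : l i = true
  · simp [h]
  · simp [h]

lemma few_live {p : ℝ} (h0 : 0 ≤ p) (h1 : p ≤ 1) (S : Finset I) (a : ℕ) :
    Ex (bp p) (fun l : I → Bool => if (S ∩ live l).card ≤ a then (1 : ℝ) else 0) ≤
      2 ^ a * (1 - p / 2) ^ S.card := by
  have h2 : Ex (bp p) (fun l : I → Bool => if (S ∩ live l).card ≤ a then (1 : ℝ) else 0) ≤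
      Ex (bp p) (fun l : I → Bool => 2 ^ a * (1 / 2) ^ (S ∩ live l).card) := by
    refine Ex_mono (bp_nonneg h0 h1) fun ρ => ?_
    split_ifs with h
    · calc (1 : ℝ) = 2 ^ a * (1 / 2) ^ a := by rw [← mul_pow]; norm_num
        _ ≤ 2 ^ a * (1 / 2) ^ (S ∩ live ρ).card := mul_le_mul_of_nonneg_left
            (pow_le_pow_of_le_one (by norm_num) (by norm_num) h) (by positivity)
    · positivity
  refine h2.trans (le_of_eq ?_)
  rw [Ex_smul]
  congr 1
  unfold Ex
  have h3 : ∀ l : I → Bool, (∏ i, bp p (l i)) * (1 / 2) ^ (S ∩ live l).card =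
      ∏ i, bp p (l i) * (if i ∈ S ∧ l i = true then (1 : ℝ) / 2 else 1) := by
    intro l
    rw [Finset.prod_mul_distrib]
    congr 1
    rw [← Finset.prod_const, ← Finset.prod_filter]
    refine Finset.prod_congr ?_ fun _ _ => rfl
    ext i
    simp [live]
  rw [Finset.sum_congr rfl fun l _ => h3 l]
  have h4 := Finset.prod_univ_sum (fun _ : I => (Finset.univ : Finset Bool))
    (fun i b => bp p b * (if i ∈ S ∧ b = true then (1 : ℝ) / 2 else 1))
  rw [Fintype.piFinset_univ] at h4
  rw [← h4]
  have h5 : ∀ i, ∑ b : Bool, bp p b * (if i ∈ S ∧ b = true then (1 : ℝ) / 2 else 1) =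
      if i ∈ S then 1 - p / 2 else 1 := by
    intro i
    rw [Fintype.sum_bool]
    by_cases h : i ∈ S
    · simp [h, bp]; ring
    · simp [h, bp]
  rw [Finset.prod_congr rfl fun i _ => h5 i, Finset.prod_ite_mem]
  simp

open Classical in
/-- **The Fourier tail.** -/
theorem tail {p : ℝ} (h0 : 0 ≤ p) (h1 : p ≤ 1) {K t : ℕ} (ht : 2 ^ (K + 1) * (1 - p / 2) ^ t ≤ 1)
    (f : (I → Bool) → Bool) :
    ∑ S, (if t ≤ S.card then H601R3.hat (ru f) S ^ 2 else 0) ≤
      2 * Ex (wq p) (fun ρ : Restr I => if ¬ HasDT K (rs f ρ) then (1 : ℝ) else 0) := by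
  have h2 : Ex (bp p) (fun l => ∑ S, (if K < (S ∩ live l).card then
      H601R3.hat (ru f) S ^ 2 else 0)) ≤
      Ex (wq p) (fun ρ : Restr I => if ¬ HasDT K (rs f ρ) then (1 : ℝ) else 0) := by
    rw [wq_two]
    refine Ex_mono (bp_nonneg h0 h1) fun l => ?_
    simp only [rs_mix]
    exact tail_set (live l) K f
  refine le_trans ?_ (mul_le_mul_of_nonneg_left h2 (by norm_num))
  rw [Ex_sum, Finset.mul_sum]
  refine Finset.sum_le_sum fun S _ => ?_
  have h3 : ∀ l : I → Bool, (if K < (S ∩ live l).card then H601R3.hat (ru f) S ^ 2 else 0) =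
      H601R3.hat (ru f) S ^ 2 * (if K < (S ∩ live l).card then (1 : ℝ) else 0) := by
    intro l; split_ifs <;> ring
  simp only [h3]
  rw [Ex_smul]
  have h4 : 0 ≤ Ex (bp p) (fun l : I → Bool => if K < (S ∩ live l).card then (1 : ℝ) else 0) :=
    Ex_nonneg (bp_nonneg h0 h1) fun l => by split_ifs <;> norm_num
  have h5 := sq_nonneg (H601R3.hat (ru f) S)
  split_ifs with hS
  · have h6 : Ex (bp p) (fun l : I → Bool => if K < (S ∩ live l).card then (1 : ℝ) else 0) +
        Ex (bp p) (fun l : I → Bool => if (S ∩ live l).card ≤ K then (1 : ℝ) else 0) = 1 := by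
      rw [← Ex_add]
      have : (fun l : I → Bool => (if K < (S ∩ live l).card then (1 : ℝ) else 0) +
          (if (S ∩ live l).card ≤ K then (1 : ℝ) else 0)) = fun _ => 1 := by
        funext l
        by_cases h : K < (S ∩ live l).card
        · rw [if_pos h, if_neg (by omega)]; ring
        · rw [if_neg h, if_pos (by omega)]; ring
      rw [this, Ex_const (bp_sum p)]
    have h7 := few_live h0 h1 S K
    have h8 : (2 : ℝ) ^ K * (1 - p / 2) ^ S.card ≤ 1 / 2 := by
      calc (2 : ℝ) ^ K * (1 - p / 2) ^ S.card ≤ 2 ^ K * (1 - p / 2) ^ t :=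
            mul_le_mul_of_nonneg_left
              (pow_le_pow_of_le_one (by linarith) (by linarith) hS) (by positivity)
        _ = (2 ^ (K + 1) * (1 - p / 2) ^ t) / 2 := by rw [pow_succ]; ring
        _ ≤ 1 / 2 := by linarith
    nlinarith
  · positivity

end Pool.Agent.Y603.BR
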